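import Pool.Agent.Helper92.LB.X

/-!
# LB-Y: almost every frame, almost every centre
-/

open MeasureTheory Real Set Filter Topology

set_option autoImplicit false

namespace Pool.Agent.Helper92.LB

open Pool.Agent.Helper22.AE
open Pool.Agent.Helper22.AC (cntc ga)
open Pool.Agent.Helper22.OV (o3_k0_cont o3_k0_nonneg cntc_bdd)
open Pool.Agent.Helper92.GC
open Pool.Agent.Helper92.LA
open Pool.Agent.Helper22.LP (Fr fdet hom wr Hf Hf_isSupp)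

private theorem dyad_y {F : ℝ → ENNReal} {C b : ℝ} (hC : 0 ≤ C) (hb : 1 ≤ b)
    (h : ∀ p : ℕ, ∫⁻ R in Icc ((2 : ℝ) ^ p) (2 * (2 : ℝ) ^ p), F R ≤ ENNReal.ofReal (C * ((2 : ℝ) ^ p) ^ b)) {X : ℝ} (hX : 1 ≤ X) :
    ∫⁻ R in Icc 1 X, F R ≤ ENNReal.ofReal (C * 2 ^ b * X ^ b) := by
  have h1 : ∀ P : ℕ, ∫⁻ R in Icc 1 ((2 : ℝ) ^ P), F R ≤ ENNReal.ofReal (C * ((2 : ℝ) ^ P) ^ b) := by
    intro P
    induction P with
    | zero =>
      rw [pow_zero, Icc_self, Measure.restrict_singleton, volume_singleton, zero_smul, lintegral_zero_measure]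
      exact bot_le
    | succ P ih =>
      have h2 : Icc 1 ((2 : ℝ) ^ (P + 1)) ⊆ Icc 1 ((2 : ℝ) ^ P) ∪ Icc ((2 : ℝ) ^ P) (2 * (2 : ℝ) ^ P) := by
        intro x hx
        rw [pow_succ, mul_comm] at hx
        rcases le_total x ((2 : ℝ) ^ P) with h3 | h3
        · exact Or.inl ⟨hx.1, h3⟩
        · exact Or.inr ⟨h3, hx.2⟩
      have h4 : (2 : ℝ) ≤ 2 ^ b := by
        calc (2 : ℝ) = 2 ^ (1 : ℝ) := (rpow_one 2).symm
          _ ≤ 2 ^ b := rpow_le_rpow_of_exponent_le (by norm_num) hb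
      have h5 : 0 ≤ C * ((2 : ℝ) ^ P) ^ b := by positivity
      calc ∫⁻ R in Icc 1 ((2 : ℝ) ^ (P + 1)), F R ≤ ∫⁻ R in Icc 1 ((2 : ℝ) ^ P) ∪ Icc ((2 : ℝ) ^ P) (2 * (2 : ℝ) ^ P), F R :=
            lintegral_mono_set h2
        _ ≤ (∫⁻ R in Icc 1 ((2 : ℝ) ^ P), F R) + ∫⁻ R in Icc ((2 : ℝ) ^ P) (2 * (2 : ℝ) ^ P), F R := lintegral_union_le _ _ _
        _ ≤ ENNReal.ofReal (C * ((2 : ℝ) ^ P) ^ b) + ENNReal.ofReal (C * ((2 : ℝ) ^ P) ^ b) := add_le_add ih (h P)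
        _ = ENNReal.ofReal (C * ((2 : ℝ) ^ P) ^ b + C * ((2 : ℝ) ^ P) ^ b) := (ENNReal.ofReal_add h5 h5).symm
        _ ≤ ENNReal.ofReal (C * ((2 : ℝ) ^ (P + 1)) ^ b) := by
            refine ENNReal.ofReal_le_ofReal ?_
            rw [pow_succ, mul_rpow (by positivity) (by norm_num)]
            have h6 := mul_le_mul_of_nonneg_left h4 h5
            linarith
  obtain ⟨P, hp1, hp2⟩ := exists_nat_pow_near hX (show (1 : ℝ) < 2 by norm_num)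
  have h2 : Icc 1 X ⊆ Icc 1 ((2 : ℝ) ^ (P + 1)) := Icc_subset_Icc le_rfl hp2.le
  refine (lintegral_mono_set h2).trans ((h1 (P + 1)).trans (ENNReal.ofReal_le_ofReal ?_))
  rw [mul_assoc, ← mul_rpow (by norm_num) (by linarith)]
  refine mul_le_mul_of_nonneg_left (rpow_le_rpow (by positivity) ?_ (by linarith)) hC
  rw [pow_succ]
  linarith

/-- the two bounds for one centre -/
def Good (H : ℝ → ℝ) (f : Fr) (ε : ℝ) (c : ℝ × ℝ) : Prop :=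
  (∃ C : ℝ, ∀ R : ℝ, 1 ≤ R → |Ef2 H f c R| ≤ C * R ^ (6 / 11 + ε)) ∧
    ∃ C : ℝ, ∀ X : ℝ, 1 ≤ X → ∫⁻ R in Icc 1 X, ENNReal.ofReal (|Ef2 H f c R| ^ 24) ≤ ENNReal.ofReal (C * X ^ (13 + ε))

theorem Good_mono {H : ℝ → ℝ} {f : Fr} {ε ε' : ℝ} (h : ε ≤ ε') {c : ℝ × ℝ} (hg : Good H f ε c) : Good H f ε' c := by
  obtain ⟨⟨C, hC⟩, C', hC'⟩ := hg
  refine ⟨⟨|C|, fun R hR => (hC R hR).trans ?_⟩, |C'|, fun X hX => (hC' X hX).trans (ENNReal.ofReal_le_ofReal ?_)⟩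
  · calc C * R ^ (6 / 11 + ε) ≤ |C| * R ^ (6 / 11 + ε) := mul_le_mul_of_nonneg_right (le_abs_self C) (by positivity)
      _ ≤ |C| * R ^ (6 / 11 + ε') := mul_le_mul_of_nonneg_left (rpow_le_rpow_of_exponent_le hR (by linarith)) (abs_nonneg C)
  · calc C' * X ^ (13 + ε) ≤ |C'| * X ^ (13 + ε) := mul_le_mul_of_nonneg_right (le_abs_self C') (by positivity)
      _ ≤ |C'| * X ^ (13 + ε') := mul_le_mul_of_nonneg_left (rpow_le_rpow_of_exponent_le hX (by linarith)) (abs_nonneg C')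

/-- from the dyadic intervals to all radii -/
theorem good_of_dyadic {H : ℝ → ℝ} (hH : IsSupp H) {f : Fr} (hf : fdet f ≠ 0) {e D R₁ : ℝ} (he : 0 < e) (hD : 0 ≤ D) {c : ℝ × ℝ}
    (h : ∀ p : ℕ, R₁ ≤ (2 : ℝ) ^ p →
      (∀ R ∈ Icc ((2 : ℝ) ^ p) (2 * (2 : ℝ) ^ p), |Ef2 H f c R| ≤ D * ((2 : ℝ) ^ p) ^ (6 / 11 + 2 * e)) ∧
      ∫⁻ R in Icc ((2 : ℝ) ^ p) (2 * (2 : ℝ) ^ p), ENNReal.ofReal (|Ef2 H f c R| ^ 24) ≤ ENNReal.ofReal (D * ((2 : ℝ) ^ p) ^ (13 + 48 * e))) :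
    Good H f (48 * e) c := by
  obtain ⟨C₄, hC₄⟩ := cntc_bdd (Hf_isSupp hH hf) (2 * R₁)
  have hsmall : ∀ p : ℕ, (2 : ℝ) ^ p ≤ R₁ → ∀ R ∈ Icc ((2 : ℝ) ^ p) (2 * (2 : ℝ) ^ p), |Ef2 H f c R| ≤ |C₄| := by
    intro p h1 R hR
    have hp : (1 : ℝ) ≤ 2 ^ p := one_le_pow₀ (by norm_num)
    unfold Ef2
    exact (hC₄ R (by linarith [hR.1]) (by linarith [hR.2]) c).trans (le_abs_self _)
  constructor
  · refine ⟨D + |C₄|, fun R hR => ?_⟩
    obtain ⟨p, hp1, hp2⟩ := exists_nat_pow_near hR (show (1 : ℝ) < 2 by norm_num)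
    have hRm : R ∈ Icc ((2 : ℝ) ^ p) (2 * (2 : ℝ) ^ p) := ⟨hp1, by rw [pow_succ] at hp2; linarith⟩
    have hp : (1 : ℝ) ≤ 2 ^ p := one_le_pow₀ (by norm_num)
    have h4 : ((2 : ℝ) ^ p) ^ (6 / 11 + 2 * e) ≤ R ^ (6 / 11 + 48 * e) :=
      (rpow_le_rpow_of_exponent_le hp (by linarith)).trans (rpow_le_rpow (by positivity) hp1 (by linarith))
    have h5 : 1 ≤ R ^ (6 / 11 + 48 * e) := one_le_rpow hR (by linarith)
    have h6 : 0 ≤ |C₄| := abs_nonneg _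
    rcases le_total R₁ ((2 : ℝ) ^ p) with h1 | h1
    · have h2 := (h p h1).1 R hRm
      have h3 := mul_le_mul_of_nonneg_left h4 hD
      have h7 : 0 ≤ |C₄| * R ^ (6 / 11 + 48 * e) := by positivity
      rw [add_mul]
      linarith
    · have h2 := hsmall p h1 R hRm
      have h3 : |C₄| ≤ |C₄| * R ^ (6 / 11 + 48 * e) := le_mul_of_one_le_right h6 h5
      have h7 : 0 ≤ D * R ^ (6 / 11 + 48 * e) := by positivity
      rw [add_mul]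
      linarith
  · have h0 : ∀ p : ℕ, ∫⁻ R in Icc ((2 : ℝ) ^ p) (2 * (2 : ℝ) ^ p), ENNReal.ofReal (|Ef2 H f c R| ^ 24) ≤
        ENNReal.ofReal ((D + |C₄| ^ 24) * ((2 : ℝ) ^ p) ^ (13 + 48 * e)) := by
      intro p
      have hp : (1 : ℝ) ≤ 2 ^ p := one_le_pow₀ (by norm_num)
      have hpb : (2 : ℝ) ^ p ≤ ((2 : ℝ) ^ p) ^ (13 + 48 * e) := by
        calc (2 : ℝ) ^ p = ((2 : ℝ) ^ p) ^ (1 : ℝ) := (rpow_one _).symm
          _ ≤ _ := rpow_le_rpow_of_exponent_le hp (by linarith)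
      have hC4 : 0 ≤ |C₄| ^ 24 := by positivity
      have hz : 0 ≤ ((2 : ℝ) ^ p) ^ (13 + 48 * e) := by positivity
      rcases le_total R₁ ((2 : ℝ) ^ p) with h1 | h1
      · refine (h p h1).2.trans (ENNReal.ofReal_le_ofReal ?_)
        have := mul_nonneg hC4 hz
        linarith
      · have h2 : ∀ R ∈ Icc ((2 : ℝ) ^ p) (2 * (2 : ℝ) ^ p), ENNReal.ofReal (|Ef2 H f c R| ^ 24) ≤ ENNReal.ofReal (|C₄| ^ 24) := by
          intro R hR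
          exact ENNReal.ofReal_le_ofReal (pow_le_pow_left₀ (abs_nonneg _) (hsmall p h1 R hR) 24)
        calc ∫⁻ R in Icc ((2 : ℝ) ^ p) (2 * (2 : ℝ) ^ p), ENNReal.ofReal (|Ef2 H f c R| ^ 24) ≤
              ∫⁻ _R in Icc ((2 : ℝ) ^ p) (2 * (2 : ℝ) ^ p), ENNReal.ofReal (|C₄| ^ 24) := setLIntegral_mono' measurableSet_Icc h2
          _ = ENNReal.ofReal (|C₄| ^ 24) * ENNReal.ofReal ((2 : ℝ) ^ p) := by
              rw [setLIntegral_const, Real.volume_Icc]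
              congr 2
              ring
          _ = ENNReal.ofReal (|C₄| ^ 24 * (2 : ℝ) ^ p) := (ENNReal.ofReal_mul hC4).symm
          _ ≤ _ := by
              refine ENNReal.ofReal_le_ofReal ?_
              have q1 := mul_le_mul_of_nonneg_left hpb hC4
              have q2 := mul_nonneg hD hz
              linarith
    exact ⟨(D + |C₄| ^ 24) * 2 ^ (13 + 48 * e), fun X hX => dyad_y (by positivity) (by linarith) h0 hX⟩

private lemma cntc_add_y (H : ℝ → ℝ) (c : ℝ × ℝ) (m : ℤ × ℤ) (R : ℝ) :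
    cntc H (c + ((m.1 : ℝ), (m.2 : ℝ))) R = cntc H c R := by
  unfold cntc
  congr 1
  refine Nat.card_congr ((Equiv.subRight m).subtypeEquiv fun k => ?_)
  have h1 : (((Equiv.subRight m) k).1 : ℝ) - c.1 = (k.1 : ℝ) - (c + ((m.1 : ℝ), (m.2 : ℝ))).1 := by
    simp only [Equiv.subRight_apply, Prod.fst_sub, Prod.fst_add]
    push_cast
    ring
  have h2 : (((Equiv.subRight m) k).2 : ℝ) - c.2 = (k.2 : ℝ) - (c + ((m.1 : ℝ), (m.2 : ℝ))).2 := by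
    simp only [Equiv.subRight_apply, Prod.snd_sub, Prod.snd_add]
    push_cast
    ring
  rw [h1, h2]

private lemma Ef2_fract_y (H : ℝ → ℝ) (f : Fr) (c : ℝ × ℝ) (R : ℝ) :
    Ef2 H f (c - ((⌊c.1⌋ : ℝ), (⌊c.2⌋ : ℝ))) R = Ef2 H f c R := by
  unfold Ef2
  have h1 := cntc_add_y (Hf H f) (c - ((⌊c.1⌋ : ℝ), (⌊c.2⌋ : ℝ))) (⌊c.1⌋, ⌊c.2⌋) R
  simp only [sub_add_cancel] at h1
  rw [← h1]

/-- from the unit square to the plane -/
private lemma ae_periodic_y {P : ℝ × ℝ → Prop} (hP : ∀ c : ℝ × ℝ, P (c - ((⌊c.1⌋ : ℝ), (⌊c.2⌋ : ℝ))) → P c)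
    (h : ∀ᵐ c : ℝ × ℝ, c ∈ Icc (0 : ℝ) 1 ×ˢ Icc (0 : ℝ) 1 → P c) : ∀ᵐ c : ℝ × ℝ, P c := by
  have h1 : ∀ m : ℤ × ℤ, ∀ᵐ c : ℝ × ℝ, c - ((m.1 : ℝ), (m.2 : ℝ)) ∈ Icc (0 : ℝ) 1 ×ˢ Icc (0 : ℝ) 1 →
      P (c - ((m.1 : ℝ), (m.2 : ℝ))) := by
    intro m
    exact (measurePreserving_sub_right (volume : Measure (ℝ × ℝ)) ((m.1 : ℝ), (m.2 : ℝ))).quasiMeasurePreserving.ae h
  have h2 := ae_all_iff.mpr h1
  filter_upwards [h2] with c hc
  apply hP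
  refine hc (⌊c.1⌋, ⌊c.2⌋) ?_
  refine ⟨⟨?_, ?_⟩, ⟨?_, ?_⟩⟩
  · simp only [Prod.fst_sub]
    linarith [Int.floor_le c.1]
  · simp only [Prod.fst_sub]
    linarith [Int.lt_floor_add_one c.1]
  · simp only [Prod.snd_sub]
    linarith [Int.floor_le c.2]
  · simp only [Prod.snd_sub]
    linarith [Int.lt_floor_add_one c.2]

/-- one frame with the bound of the moments, almost every centre -/
theorem frame_centre {H : ℝ → ℝ} (hH : IsSupp H) {φ : ℝ × ℝ → ℝ} (hφ : IsBump φ) {α₀ B : ℝ} (ha0 : 0 < α₀) (ha1 : α₀ < π / 2) (hB : 1 ≤ B)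
    (hjc : Continuous fun q : ℝ × (ℝ × ℝ) => hom (ga H q.1) q.2)
    (hfam : ∀ α ∈ Icc (-α₀) α₀, HL B (hom (ga H α)) ∧ WL B (wr H α) ∧ WL B (fun _ => 1)) {f : Fr} (hf : fdet f ≠ 0) {M : ℝ} (hM : 1 ≤ M) (hfb : Fb M f)
    {e : ℝ} (he : 0 < e) (he1 : e ≤ 1 / 1000) {C₁ : ℝ} (hC₁ : 0 ≤ C₁)
    (hJ : ∀ p n : ℕ, n ≤ p → ∫ α in Icc (-α₀) α₀, k0 (1 / sqrt ((2 : ℝ) ^ p * ((2 ^ n : ℕ) : ℝ))) α * JJ f (hom (ga H α)) ((2 : ℝ) ^ p) (2 ^ n) ≤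
      C₁ * (((2 : ℝ) ^ p) ^ (1 + e) * MB ((2 : ℝ) ^ p) (2 ^ n))) : ∀ᵐ c : ℝ × ℝ, Good H f (48 * e) c := by
  obtain ⟨C, hC, hmom⟩ := E4_mom (H := H) hM hB
  have hX1 : ∀ p : ℕ, (1 : ℝ) ≤ 2 ^ p := fun p => one_le_pow₀ (by norm_num)
  have hX0 : ∀ p : ℕ, (0 : ℝ) < 2 ^ p := fun p => by positivity
  have hβ : ∀ p n : ℕ, 0 < 1 / sqrt ((2 : ℝ) ^ p * ((2 ^ n : ℕ) : ℝ)) := by
    intro p n
    have : (0 : ℝ) < ((2 ^ n : ℕ) : ℝ) := by exact_mod_cast Nat.one_le_two_pow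
    positivity
  obtain ⟨κ, hκd⟩ : ∃ κ : ℕ → ℕ → ℝ → ℝ, ∀ p n, κ p n = k0 (1 / sqrt ((2 : ℝ) ^ p * ((2 ^ n : ℕ) : ℝ))) := ⟨_, fun _ _ => rfl⟩
  have hκc : ∀ p n, Continuous (κ p n) := by
    intro p n
    rw [hκd]
    exact o3_k0_cont (hβ p n)
  have hκ0 : ∀ p n α, 0 ≤ κ p n α := by
    intro p n α
    rw [hκd]
    exact o3_k0_nonneg (hβ p n) α
  obtain ⟨δ, hδ⟩ : ∃ δ : ℕ → ℝ, ∀ p, δ p = ((2 : ℝ) ^ p) ^ (-(1 / 2 - e)) := ⟨_, fun _ => rfl⟩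
  obtain ⟨e4, he4⟩ : ∃ e4 : ℕ → ℝ → ℝ → ℝ × ℝ → ℝ, ∀ n, e4 n = E4 f H (2 ^ n) := ⟨_, fun _ => rfl⟩
  have c4 : ∀ n, Continuous fun q : ℝ × (ℝ × (ℝ × ℝ)) => e4 n q.1 q.2.1 q.2.2 := by
    intro n
    rw [he4]
    exact E4_cont hH hjc f (2 ^ n)
  obtain ⟨Z, hZd⟩ : ∃ Z : ℕ → ℕ → ℝ × ℝ → ℝ, ∀ p n, Z p n = Zg (e4 n) φ (κ p n) α₀ (δ p) ((2 : ℝ) ^ p) := ⟨_, fun _ _ => rfl⟩
  obtain ⟨D, hDd⟩ : ∃ D : ℕ → ℕ → ℝ, ∀ p n, D p n = ((2 : ℝ) ^ p) ^ (1 + 2 * e) * MB ((2 : ℝ) ^ p) (2 ^ n) := ⟨_, fun _ _ => rfl⟩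
  obtain ⟨r, hr⟩ : ∃ r : ℝ, r = (2 : ℝ) ^ (-e) := ⟨_, rfl⟩
  have hMB := fun p n : ℕ => (MB_pos (hX0 p) (hX0 n))
  have hD0 : ∀ p n, 0 < D p n := by
    intro p n
    rw [hDd]
    exact mul_pos (rpow_pos_of_pos (hX0 p) _) (hMB p n)
  have hr0 : 0 ≤ r := by
    rw [hr]
    positivity
  have hr1 : r < 1 := by
    rw [hr]
    exact rpow_lt_one_of_one_lt_of_neg (by norm_num) (by linarith)
  have hZc : ∀ p n, Continuous (Z p n) := by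
    intro p n
    rw [hZd]
    exact Zg_cont (c4 n) hφ (hκc p n) α₀ (δ p) ((2 : ℝ) ^ p)
  have hZ0 : ∀ p n c, 0 ≤ Z p n c := by
    intro p n c
    rw [hZd]
    refine Zg_nonneg (fun α r c => ?_) hφ (hκ0 p n) c
    rw [he4]
    exact E4_nonneg _ _ _ _ _ _
  have hb : ∀ p n, n ≤ p → ∫ c in Tq, Z p n c ≤ C * C₁ * r ^ p * D p n := by
    intro p n hn
    have hMRc : Continuous fun q : ℝ × ℝ => C * MR f (hom (ga H q.1)) q.2 (2 ^ n) :=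
      continuous_const.mul (MR_cont (h := fun α => hom (ga H α)) hjc f (2 ^ n))
    have h1 := Zg_int (α₀ := α₀) (δ := δ p) (X := (2 : ℝ) ^ p) (m := fun α r => C * MR f (hom (ga H α)) r (2 ^ n)) (c4 n) hφ (hκc p n) (hκ0 p n) hMRc (by
      intro α hα r y
      rw [he4]
      exact hmom f hfb α (hfam α hα) (2 ^ n) Nat.one_le_two_pow r y)
    rw [← hZd] at h1
    refine h1.trans ?_
    have hJc : Continuous fun α => JJ f (hom (ga H α)) ((2 : ℝ) ^ p) (2 ^ n) := by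
      have h2 := JJ_cont (h := fun α => hom (ga H α)) hjc ((2 : ℝ) ^ p) (2 ^ n)
      have h3 : Continuous fun α : ℝ => ((f, α) : Fr × ℝ) := by fun_prop
      have h4 := h2.comp h3
      exact h4
    have hMI : Continuous fun α => ∫ r in Icc ((2 : ℝ) ^ p / 2) (4 * (2 : ℝ) ^ p), C * MR f (hom (ga H α)) r (2 ^ n) :=
      continuous_parametric_integral_of_continuous (f := fun α r => C * MR f (hom (ga H α)) r (2 ^ n)) hMRc isCompact_Icc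
    have h2 : ∀ α, ∫ r in Icc ((2 : ℝ) ^ p / 2) (4 * (2 : ℝ) ^ p), C * MR f (hom (ga H α)) r (2 ^ n) ≤ C * JJ f (hom (ga H α)) ((2 : ℝ) ^ p) (2 ^ n) := by
      intro α
      rw [integral_const_mul]
      refine mul_le_mul_of_nonneg_left ?_ hC.le
      have h3 : Continuous fun r => MR f (hom (ga H α)) r (2 ^ n) := by
        have h4 : Continuous fun r : ℝ => (α, r) := by fun_prop
        have h5 := (MR_cont (h := fun α => hom (ga H α)) hjc f (2 ^ n)).comp h4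
        exact h5
      unfold JJ
      unfold MR at h3 ⊢
      refine setIntegral_mono_set ?_ (Eventually.of_forall fun r => Pool.Agent.Helper92.DT.m12_nonneg _ _) (Eventually.of_forall ?_)
      · exact h3.continuousOn.integrableOn_compact isCompact_Icc
      · intro t ht
        have := hX0 p
        exact ⟨by linarith [ht.1], by linarith [ht.2]⟩
    calc ∫ α in Icc (-α₀) α₀, κ p n α * ∫ r in Icc ((2 : ℝ) ^ p / 2) (4 * (2 : ℝ) ^ p), C * MR f (hom (ga H α)) r (2 ^ n) ≤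
          ∫ α in Icc (-α₀) α₀, κ p n α * (C * JJ f (hom (ga H α)) ((2 : ℝ) ^ p) (2 ^ n)) := by
            refine setIntegral_mono_on ?_ ?_ measurableSet_Icc fun α _ => mul_le_mul_of_nonneg_left (h2 α) (hκ0 p n α)
            · exact ((hκc p n).mul hMI).continuousOn.integrableOn_compact isCompact_Icc
            · exact ((hκc p n).mul (continuous_const.mul hJc)).continuousOn.integrableOn_compact isCompact_Icc
      _ = C * ∫ α in Icc (-α₀) α₀, κ p n α * JJ f (hom (ga H α)) ((2 : ℝ) ^ p) (2 ^ n) := by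
            rw [← integral_const_mul]
            congr 1
            funext α
            ring
      _ ≤ C * (C₁ * (((2 : ℝ) ^ p) ^ (1 + e) * MB ((2 : ℝ) ^ p) (2 ^ n))) := by
            refine mul_le_mul_of_nonneg_left ?_ hC.le
            rw [hκd]
            exact hJ p n hn
      _ = C * C₁ * r ^ p * D p n := by
            have h5 : ((2 : ℝ) ^ p) ^ (1 + e) = r ^ p * ((2 : ℝ) ^ p) ^ (1 + 2 * e) := by
              rw [hr, ← rpow_natCast ((2 : ℝ) ^ (-e)) p, ← rpow_mul (by norm_num), ← rpow_natCast 2 p, ← rpow_mul (by norm_num),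
                ← rpow_mul (by norm_num), ← rpow_add (by norm_num)]
              congr 1
              ring
            rw [hDd, h5]
            ring
  have hae := bc_c hZc hZ0 hD0 hr0 hr1 hb
  refine ae_periodic_y (fun c hc => ?_) ?_
  · unfold Good at hc ⊢
    simp only [Ef2_fract_y] at hc
    exact hc
  · have h1 := (ae_restrict_iff' (measurableSet_Icc.prod measurableSet_Icc)).1 hae
    filter_upwards [h1] with c hc hcm
    obtain ⟨K₂, hK₂, h2⟩ := hc hcm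
    obtain ⟨D', R₁, hD', h3⟩ := centre_core hH hφ ha0 ha1 hB hjc hfam hf he he1 hK₂ (c := c) (by
      intro p n hn
      have h4 := h2 p n hn
      rw [hZd, hDd, he4, hκd, hδ] at h4
      exact h4)
    exact good_of_dyadic hH hf he hD' h3

end Pool.Agent.Helper92.LB
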