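import Pool.Agent.Helper92.LA.Fin
import Pool.Agent.Helper92.LB.Y

/-!
# LB-Fin: almost every lattice and almost every centre: exponent 6/11 and the twenty-fourth moment
-/

open MeasureTheory Real Set Filter Topology

set_option autoImplicit false

namespace Pool.Agent.Helper92.LB

open Pool.Agent.Helper22.AE
open Pool.Agent.Helper22.AC (cntc ga)
open Pool.Agent.Helper22.OV (o3_k0_cont o3_k0_nonneg)
open Pool.Agent.Helper92.LA
open Pool.Agent.Helper22.LP (Fr fdet hom wr Hf Hf_isSupp area_lin)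

private theorem fb_f {f : Fr} (hf : fdet f ≠ 0) : ∃ M : ℝ, 1 ≤ M ∧ Fb M f := by
  have h0 : 0 < |fdet f| := abs_pos.2 hf
  refine ⟨1 + |f.1.1| + |f.1.2| + |f.2.1| + |f.2.2| + 1 / |fdet f|, ?_, ?_⟩
  · have := abs_nonneg f.1.1
    have := abs_nonneg f.1.2
    have := abs_nonneg f.2.1
    have := abs_nonneg f.2.2
    have : 0 ≤ 1 / |fdet f| := by positivity
    linarith
  · have h1 := abs_nonneg f.1.1
    have h2 := abs_nonneg f.1.2
    have h3 := abs_nonneg f.2.1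
    have h4 := abs_nonneg f.2.2
    have h5 : 0 ≤ 1 / |fdet f| := by positivity
    refine ⟨by linarith, by linarith, by linarith, by linarith, ?_⟩
    have h6 : 1 = 1 / |fdet f| * |fdet f| := by field_simp
    calc (1 : ℝ) = 1 / |fdet f| * |fdet f| := h6
      _ ≤ _ := mul_le_mul_of_nonneg_right (by linarith) h0.le

/-- almost every frame with positive determinant, almost every centre -/
theorem frame_centre_ae {H : ℝ → ℝ} (hH : IsSupp H) (h5 : ContDiff ℝ 5 H)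
    (hmom : ∀ c₁ B : ℝ, 0 < c₁ → c₁ ≤ 1 → 1 ≤ B → MomP (Pool.Agent.Helper60.LT.Hom c₁ B)) :
    ∀ᵐ f : Fr, 0 < fdet f → ∀ᵐ c : ℝ × ℝ, ∀ ε : ℝ, 0 < ε → Good H f ε c := by
  obtain ⟨α₀, c₁, B, ha0, ha1, hc₁, hc₁1, hB, hjc, hfam⟩ := fam hH h5
  obtain ⟨φ, hφ⟩ := exists_bump
  have hβ : ∀ p n : ℕ, 0 < 1 / sqrt ((2 : ℝ) ^ p * ((2 ^ n : ℕ) : ℝ)) := by
    intro p n
    have : (0 : ℝ) < ((2 ^ n : ℕ) : ℝ) := by exact_mod_cast Nat.one_le_two_pow
    positivity
  have hk : ∀ p n : ℕ, ∫ α in Icc (-α₀) α₀, k0 (1 / sqrt ((2 : ℝ) ^ p * ((2 ^ n : ℕ) : ℝ))) α ≤ 20 := by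
    intro p n
    have hpi := Real.pi_pos
    have h2 := k0_int (hβ p n)
    rw [intervalIntegral.integral_of_le (by linarith)] at h2
    refine le_trans (setIntegral_mono_set ?_ (Eventually.of_forall (o3_k0_nonneg (hβ p n))) (Eventually.of_forall ?_)) h2
    · rw [← integrableOn_Icc_iff_integrableOn_Ioc]
      exact (o3_k0_cont (hβ p n)).continuousOn.integrableOn_compact isCompact_Icc
    · intro x hx
      exact ⟨by linarith [hx.1], by linarith [hx.2]⟩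
  have h1 := ae_JJ (hmom c₁ B hc₁ hc₁1 hB) (h := fun α => hom (ga H α)) hjc (α₀ := α₀) (fun α hα => (hfam α hα).1)
    (κ := fun p n => k0 (1 / sqrt ((2 : ℝ) ^ p * ((2 ^ n : ℕ) : ℝ)))) (fun p n => o3_k0_cont (hβ p n)) (fun p n => o3_k0_nonneg (hβ p n))
    (K := 20) hk
  filter_upwards [h1] with f hf hdet
  obtain ⟨M, hM, hfb⟩ := fb_f hdet.ne'
  have h2 : ∀ᵐ c : ℝ × ℝ, ∀ j : ℕ, Good H f (48 * (1 / (1000 * ((j : ℝ) + 1)))) c := by
    rw [ae_all_iff]
    intro j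
    have he0 : 0 < 1 / (1000 * ((j : ℝ) + 1)) := by positivity
    have he1 : 1 / (1000 * ((j : ℝ) + 1)) ≤ 1 / 1000 := by
      refine one_div_le_one_div_of_le (by norm_num) ?_
      have : (0 : ℝ) ≤ j := Nat.cast_nonneg j
      linarith
    obtain ⟨C₁, hC₁, hJ⟩ := hf hdet _ he0
    exact frame_centre hH hφ ha0 ha1 hB hjc (fun α hα => (hfam α hα).2) hdet.ne' hM hfb he0 he1 hC₁ hJ
  filter_upwards [h2] with c hc ε hε
  obtain ⟨j, hj⟩ := exists_nat_one_div_lt hε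
  refine Good_mono ?_ (hc j)
  have h3 : 48 * (1 / (1000 * ((j : ℝ) + 1))) = 48 / 1000 * (1 / ((j : ℝ) + 1)) := by
    field_simp
  rw [h3]
  have h4 : 0 < 1 / ((j : ℝ) + 1) := by positivity
  linarith

/-- a linear change of variables -/
theorem ae_lin {x y z w : ℝ} (h : x * w - y * z ≠ 0) {P : ℝ × ℝ → Prop} (hP : ∀ᵐ c : ℝ × ℝ, P c) :
    ∀ᵐ c : ℝ × ℝ, P (x * c.1 + y * c.2, z * c.1 + w * c.2) := by
  obtain ⟨L, hL⟩ : ∃ L : (ℝ × ℝ) ≃ₗ[ℝ] (ℝ × ℝ), ∀ c, L c = (x * c.1 + y * c.2, z * c.1 + w * c.2) := by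
    refine ⟨{ toFun := fun c => (x * c.1 + y * c.2, z * c.1 + w * c.2)
              map_add' := ?_
              map_smul' := ?_
              invFun := fun u => ((w * u.1 - y * u.2) / (x * w - y * z), (x * u.2 - z * u.1) / (x * w - y * z))
              left_inv := ?_
              right_inv := ?_ }, fun c => rfl⟩
    · intro a b
      ext
      · simp only [Prod.fst_add, Prod.snd_add]
        ring
      · simp only [Prod.fst_add, Prod.snd_add]
        ring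
    · intro r a
      ext
      · simp only [Prod.smul_fst, Prod.smul_snd, smul_eq_mul, RingHom.id_apply]
        ring
      · simp only [Prod.smul_fst, Prod.smul_snd, smul_eq_mul, RingHom.id_apply]
        ring
    · intro c
      ext
      · simp only
        rw [div_eq_iff h]
        ring
      · simp only
        rw [div_eq_iff h]
        ring
    · intro u
      ext
      · simp only
        have e : x * ((w * u.1 - y * u.2) / (x * w - y * z)) + y * ((x * u.2 - z * u.1) / (x * w - y * z)) =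
            u.1 * (x * w - y * z) / (x * w - y * z) := by ring
        rw [e, mul_div_cancel_right₀ _ h]
      · simp only
        have e : z * ((w * u.1 - y * u.2) / (x * w - y * z)) + w * ((x * u.2 - z * u.1) / (x * w - y * z)) =
            u.2 * (x * w - y * z) / (x * w - y * z) := by ring
        rw [e, mul_div_cancel_right₀ _ h]
  have h1 : LinearMap.det (L : (ℝ × ℝ) →ₗ[ℝ] (ℝ × ℝ)) ≠ 0 := (LinearEquiv.isUnit_det' L).ne_zero
  have h2 := MeasureTheory.Measure.LinearMap.quasiMeasurePreserving (volume : Measure (ℝ × ℝ)) (L : (ℝ × ℝ) →ₗ[ℝ] (ℝ × ℝ)) h1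
  have h3 := h2.ae hP
  filter_upwards [h3] with c hc
  rw [← hL]
  exact hc

/-- the two bounds for a lattice and a centre -/
def GoodL (H : ℝ → ℝ) (ab : Fr) (ε : ℝ) (c : ℝ × ℝ) : Prop :=
  (∃ C : ℝ, ∀ R : ℝ, 1 ≤ R → |El2 H ab c R| ≤ C * R ^ (6 / 11 + ε)) ∧
    ∃ C : ℝ, ∀ X : ℝ, 1 ≤ X → ∫⁻ R in Icc 1 X, ENNReal.ofReal (|El2 H ab c R| ^ 24) ≤ ENNReal.ofReal (C * X ^ (13 + ε))

theorem lattice_centre_ae {H : ℝ → ℝ} (hH : IsSupp H) (h5 : ContDiff ℝ 5 H)
    (hmom : ∀ c₁ B : ℝ, 0 < c₁ → c₁ ≤ 1 → 1 ≤ B → MomP (Pool.Agent.Helper60.LT.Hom c₁ B)) :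
    ∀ᵐ ab : Fr, fdet ab ≠ 0 ∧ ∀ᵐ c : ℝ × ℝ, ∀ ε : ℝ, 0 < ε → GoodL H ab ε c := by
  have h1 := ae_dual (frame_centre_ae hH h5 hmom)
  have h2 : ∀ᵐ ab : Fr, 0 < fdet ab → ∀ᵐ c : ℝ × ℝ, ∀ ε : ℝ, 0 < ε → GoodL H ab ε c := by
    filter_upwards [h1] with ab h hd
    have hdl : fdet (dl ab) ≠ 0 := by
      rw [fdet_dl hd.ne']
      positivity
    have hE : ∀ c R, El2 H ab c R = Ef2 H (dl ab) ((dl ab).1.1 * c.1 + (dl ab).1.2 * c.2, (dl ab).2.1 * c.1 + (dl ab).2.2 * c.2) R := by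
      intro c R
      unfold El2 Ef2
      rw [← lcnt_eq hH.per hd.ne', area_lin hH.per hdl, fdet_dl hd.ne', abs_div, abs_one]
      have e : 1 / |fdet ab| * area H * R ^ 2 = area H * R ^ 2 / |fdet ab| := by ring
      rw [e]
    have h3 := ae_lin (x := (dl ab).1.1) (y := (dl ab).1.2) (z := (dl ab).2.1) (w := (dl ab).2.2) (by
      have := hdl
      unfold fdet at this
      exact this) (h hd)
    filter_upwards [h3] with c hc ε hε
    unfold GoodL
    simp only [hE]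
    exact hc ε hε
  have h3 := ae_swap h2
  filter_upwards [h2, h3, ae_det] with ab h4 h5 h6
  refine ⟨h6, ?_⟩
  rcases lt_or_gt_of_ne h6 with h7 | h7
  · have e : fdet (ab.2, ab.1) = -fdet ab := by
      unfold fdet
      simp only
      ring
    have hE : ∀ c R, El2 H ab c R = El2 H (ab.2, ab.1) c R := by
      intro c R
      unfold El2
      rw [lcnt_swap, e, abs_neg]
    filter_upwards [h5 (by rw [e]; linarith)] with c hc ε hε
    unfold GoodL
    simp only [hE]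
    exact hc ε hε
  · exact h4 h7

/-- the statement -/
theorem lattice_centre {H : ℝ → ℝ} (h5 : ContDiff ℝ 5 H) (hp : Function.Periodic H (2 * π)) (hr : ∀ t, 0 < H t + deriv (deriv H) t) (hpos : ∀ t, 0 < H t) :
    ∀ᵐ ab : Fr, fdet ab ≠ 0 ∧ ∀ᵐ c : ℝ × ℝ,
      (∀ ε : ℝ, 0 < ε → ∃ C : ℝ, ∀ R : ℝ, 1 ≤ R → |lcnt ab H c R - area H * R ^ 2 / abs (fdet ab)| ≤ C * R ^ (6 / 11 + ε)) ∧
      ∀ ε : ℝ, 0 < ε → ∃ C : ℝ, ∀ X : ℝ, 1 ≤ X →
        ∫⁻ R in Icc 1 X, ENNReal.ofReal (|lcnt ab H c R - area H * R ^ 2 / abs (fdet ab)| ^ 24) ≤ ENNReal.ofReal (C * X ^ (13 + ε)) := by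
  have hH : IsSupp H := ⟨h5.of_le (by norm_num), hp, hpos, hr⟩
  filter_upwards [lattice_centre_ae hH h5 (fun _ _ hc hc1 hB => momP hc hc1 hB)] with ab h
  refine ⟨h.1, ?_⟩
  filter_upwards [h.2] with c hc
  exact ⟨fun ε hε => (hc ε hε).1, fun ε hε => (hc ε hε).2⟩

end Pool.Agent.Helper92.LB
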