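import Pool.Agent.Helper92.LB.P2

/-!
# LB-Av: averages over the translations and over `α`
-/

open MeasureTheory Real Set Filter Topology

set_option autoImplicit false

namespace Pool.Agent.Helper92.LB

open Pool.Agent.Helper22.AE

/-- the domain of the averages -/
def Sv (α₀ : ℝ) : Set ((ℝ × ℝ) × ℝ) := (Icc (-1 : ℝ) 1 ×ˢ Icc (-1 : ℝ) 1) ×ˢ Icc (-α₀) α₀

/-- the average over the translations and over `α` -/
noncomputable def av (φ : ℝ × ℝ → ℝ) (κ : ℝ → ℝ) (α₀ : ℝ) (G : (ℝ × ℝ) × ℝ → ℝ) : ℝ := ∫ s in Sv α₀, φ s.1 * κ s.2 * G s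

theorem Sv_compact (α₀ : ℝ) : IsCompact (Sv α₀) := (isCompact_Icc.prod isCompact_Icc).prod isCompact_Icc

theorem bump_out {φ : ℝ × ℝ → ℝ} (hφ : IsBump φ) {p : ℝ × ℝ} (hp : p ∉ Icc (-1 : ℝ) 1 ×ˢ Icc (-1 : ℝ) 1) : φ p = 0 := by
  apply hφ.supp
  by_contra h
  push Not at h
  apply hp
  refine ⟨abs_le.mp ?_, abs_le.mp ?_⟩
  · exact (sq_le_one_iff_abs_le_one p.1).mp (by nlinarith [sq_nonneg p.2])
  · exact (sq_le_one_iff_abs_le_one p.2).mp (by nlinarith [sq_nonneg p.1])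

section

variable {φ : ℝ × ℝ → ℝ} {κ : ℝ → ℝ} {α₀ : ℝ}

theorem av_int (hφ : IsBump φ) (hκ : Continuous κ) {G : (ℝ × ℝ) × ℝ → ℝ} (hG : Continuous G) :
    IntegrableOn (fun s => φ s.1 * κ s.2 * G s) (Sv α₀) := by
  have h1 : Continuous fun s : (ℝ × ℝ) × ℝ => φ s.1 * κ s.2 * G s :=
    ((hφ.cont.comp continuous_fst).mul (hκ.comp continuous_snd)).mul hG
  exact h1.continuousOn.integrableOn_compact (Sv_compact α₀)

theorem av_nonneg (hφ : IsBump φ) (hκ0 : ∀ α, 0 ≤ κ α) {G : (ℝ × ℝ) × ℝ → ℝ} (hG : ∀ s, 0 ≤ G s) : 0 ≤ av φ κ α₀ G :=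
  integral_nonneg fun s => mul_nonneg (mul_nonneg (hφ.nonneg _) (hκ0 _)) (hG s)

theorem av_mono (hφ : IsBump φ) (hκ : Continuous κ) (hκ0 : ∀ α, 0 ≤ κ α) {G G' : (ℝ × ℝ) × ℝ → ℝ} (hG : Continuous G) (hG' : Continuous G')
    (h : ∀ s : (ℝ × ℝ) × ℝ, s.2 ∈ Icc (-α₀) α₀ → G s ≤ G' s) : av φ κ α₀ G ≤ av φ κ α₀ G' := by
  unfold av
  refine setIntegral_mono_on (av_int hφ hκ hG) (av_int hφ hκ hG') (Sv_compact α₀).measurableSet fun s hs => ?_
  exact mul_le_mul_of_nonneg_left (h s hs.2) (mul_nonneg (hφ.nonneg _) (hκ0 _))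

theorem av_add (hφ : IsBump φ) (hκ : Continuous κ) {G G' : (ℝ × ℝ) × ℝ → ℝ} (hG : Continuous G) (hG' : Continuous G') :
    av φ κ α₀ (fun s => G s + G' s) = av φ κ α₀ G + av φ κ α₀ G' := by
  unfold av
  rw [← integral_add (av_int hφ hκ hG) (av_int hφ hκ hG')]
  congr 1
  funext s
  ring

theorem av_const_mul (a : ℝ) (G : (ℝ × ℝ) × ℝ → ℝ) : av φ κ α₀ (fun s => a * G s) = a * av φ κ α₀ G := by
  unfold av
  rw [← integral_const_mul]
  congr 1
  funext s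
  ring

/-- the average as an iterated integral -/
theorem av_eq (hφ : IsBump φ) (hκ : Continuous κ) {G : (ℝ × ℝ) × ℝ → ℝ} (hG : Continuous G) :
    ∫ p : ℝ × ℝ, φ p * ∫ α in Icc (-α₀) α₀, κ α * G (p, α) = av φ κ α₀ G := by
  have h1 : av φ κ α₀ G = ∫ p in Icc (-1 : ℝ) 1 ×ˢ Icc (-1 : ℝ) 1, ∫ α in Icc (-α₀) α₀, φ p * κ α * G (p, α) := by
    unfold av
    have h2 := av_int (α₀ := α₀) hφ hκ hG
    unfold Sv at h2 ⊢
    rw [Measure.volume_eq_prod] at h2 ⊢
    exact setIntegral_prod _ h2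
  rw [h1, ← setIntegral_eq_integral_of_forall_compl_eq_zero (s := Icc (-1 : ℝ) 1 ×ˢ Icc (-1 : ℝ) 1)]
  · refine integral_congr_ae (Eventually.of_forall fun p => ?_)
    simp only
    rw [← integral_const_mul]
    congr 1
    funext α
    ring
  · intro p hp
    rw [bump_out hφ hp, zero_mul]

theorem av_snd (hφ : IsBump φ) (hκ : Continuous κ) {J : ℝ → ℝ} (hJ : Continuous J) :
    av φ κ α₀ (fun s => J s.2) = ∫ α in Icc (-α₀) α₀, κ α * J α := by
  rw [← av_eq (G := fun s => J s.2) hφ hκ (hJ.comp continuous_snd)]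
  simp only
  rw [integral_mul_const, hφ.int_one, one_mul]

theorem av_one (hφ : IsBump φ) (hκ : Continuous κ) (hκ1 : ∫ α in Icc (-α₀) α₀, κ α ≤ 20) : av φ κ α₀ (fun _ => 1) ≤ 20 := by
  have h := av_snd (α₀ := α₀) hφ hκ (J := fun _ => 1) continuous_const
  simp only [mul_one] at h
  rw [h]
  exact hκ1

/-- Jensen's inequality with a constant -/
theorem av_jen (hφ : IsBump φ) (hκ : Continuous κ) (hκ0 : ∀ α, 0 ≤ κ α) (hκ1 : ∫ α in Icc (-α₀) α₀, κ α ≤ 20)
    {G : (ℝ × ℝ) × ℝ → ℝ} (hG : Continuous G) (hG0 : ∀ s, 0 ≤ G s) :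
    av φ κ α₀ G ^ 12 ≤ 21 ^ 12 * av φ κ α₀ (fun s => G s ^ 12) := by
  obtain ⟨W, hW⟩ : ∃ W : ℝ, W = av φ κ α₀ (fun s => G s ^ 12) := ⟨_, rfl⟩
  obtain ⟨V, hV⟩ : ∃ V : ℝ, V = av φ κ α₀ G := ⟨_, rfl⟩
  have hW0 : 0 ≤ W := by
    rw [hW]
    exact av_nonneg hφ hκ0 fun s => pow_nonneg (hG0 s) 12
  have hV0 : 0 ≤ V := by
    rw [hV]
    exact av_nonneg hφ hκ0 hG0
  have key : ∀ l : ℝ, 0 < l → V ≤ 20 * l + 1 / l ^ 11 * W := by
    intro l hl
    have hpt : ∀ s, G s ≤ l * 1 + 1 / l ^ 11 * G s ^ 12 := by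
      intro s
      rcases le_total (G s) l with h | h
      · have : 0 ≤ 1 / l ^ 11 * G s ^ 12 := mul_nonneg (by positivity) (pow_nonneg (hG0 s) 12)
        linarith
      · have h2 : l ^ 11 ≤ G s ^ 11 := pow_le_pow_left₀ hl.le h 11
        have h3 : G s ≤ 1 / l ^ 11 * G s ^ 12 := by
          rw [one_div, inv_mul_eq_div, le_div_iff₀ (by positivity)]
          calc G s * l ^ 11 ≤ G s * G s ^ 11 := mul_le_mul_of_nonneg_left h2 (hG0 s)
            _ = G s ^ 12 := by ring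
        linarith
    have h1 : V ≤ av φ κ α₀ (fun s => l * 1 + 1 / l ^ 11 * G s ^ 12) := by
      rw [hV]
      exact av_mono hφ hκ hκ0 hG (continuous_const.add (continuous_const.mul (hG.pow 12))) fun s _ => hpt s
    rw [av_add (G := fun _ => l * 1) (G' := fun s => 1 / l ^ 11 * G s ^ 12) hφ hκ continuous_const (continuous_const.mul (hG.pow 12)),
      av_const_mul l (fun _ => 1), av_const_mul, ← hW] at h1
    have h2 := mul_le_mul_of_nonneg_left (av_one (α₀ := α₀) hφ hκ hκ1) hl.le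
    linarith
  rw [← hW, ← hV]
  rcases hW0.eq_or_lt with h0 | h0
  · rw [← h0] at key ⊢
    have hV1 : V ≤ 0 := by
      by_contra hc
      push Not at hc
      have := key (V / 40) (by positivity)
      linarith
    have : V = 0 := le_antisymm hV1 hV0
    rw [this]
    norm_num
  · obtain ⟨l, hl⟩ : ∃ l : ℝ, l = W ^ (1 / 12 : ℝ) := ⟨_, rfl⟩
    have hl0 : 0 < l := by
      rw [hl]
      positivity
    have hl12 : l ^ 12 = W := by
      rw [hl, ← rpow_natCast, ← rpow_mul hW0]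
      norm_num
    have h1 := key l hl0
    have h2 : 1 / l ^ 11 * W = l := by
      rw [← hl12]
      field_simp
    rw [h2] at h1
    calc V ^ 12 ≤ (21 * l) ^ 12 := pow_le_pow_left₀ hV0 (by linarith) 12
      _ = 21 ^ 12 * W := by rw [mul_pow, hl12]

/-- exchange of the average with an integral over a compact set -/
theorem av_swap (hφ : IsBump φ) (hκ : Continuous κ) {Y : Type} [TopologicalSpace Y] [T2Space Y] [SecondCountableTopology Y] [MeasurableSpace Y] [OpensMeasurableSpace Y]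
    {ν : Measure Y} [SFinite ν] [IsFiniteMeasureOnCompacts ν] {T : Set Y} (hT : IsCompact T)
    {F : (ℝ × ℝ) × ℝ → Y → ℝ} (hF : Continuous fun q : ((ℝ × ℝ) × ℝ) × Y => F q.1 q.2) :
    ∫ y in T, av φ κ α₀ (fun s => F s y) ∂ν = av φ κ α₀ (fun s => ∫ y in T, F s y ∂ν) := by
  unfold av
  rw [integral_integral_swap]
  · refine integral_congr_ae (Eventually.of_forall fun s => ?_)
    simp only
    rw [integral_const_mul]
  · have h1 : Continuous fun q : Y × ((ℝ × ℝ) × ℝ) => φ q.2.1 * κ q.2.2 * F q.2 q.1 := by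
      refine ((hφ.cont.comp (continuous_fst.comp continuous_snd)).mul (hκ.comp (continuous_snd.comp continuous_snd))).mul ?_
      exact hF.comp (continuous_snd.prodMk continuous_fst)
    rw [Measure.prod_restrict]
    exact h1.continuousOn.integrableOn_compact (hT.prod (Sv_compact α₀))

end

end Pool.Agent.Helper92.LB
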