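import Pool.Agent.Helper92.LA.Defs

/-!
# LB-C: from the bounds of the averages of the blocks to the count: exponent 6/11 and the twenty-fourth moment, one dyadic interval
-/

open MeasureTheory Real Set Filter Topology

set_option autoImplicit false

namespace Pool.Agent.Helper92.LB

open Pool.Agent.Helper92.LA (MB)

/-- the exponent of the bound of the twelfth moment -/
noncomputable def muc (x n : ℝ) : ℝ := max (12 * n) (39 / 2 * n - 5 / 2 * x)

open Classical in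
/-- the exponent of the twelfth power of the supremum of a block -/
noncomputable def axc (x n e : ℝ) : ℝ := if n ≤ x / 11 then 6 * x + 6 * n else 7 * x - 17 * n + 2 * (e * x) + muc x n

private lemma mb_c {x n : ℝ} : MB (exp x) (exp n) ≤ 3 * exp (muc x n) := by
  have h1 := le_max_left (12 * n) (39 / 2 * n - 5 / 2 * x)
  have h2 := le_max_right (12 * n) (39 / 2 * n - 5 / 2 * x)
  have e0 : exp x * exp n = exp (x + n) := (exp_add x n).symm
  have e1 : (exp n) ^ 12 = exp (12 * n) := by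
    rw [← exp_nat_mul]
    norm_num
  have e2 : (exp n) ^ 18 = exp (18 * n) := by
    rw [← exp_nat_mul]
    norm_num
  have e3 : (exp n) ^ 22 = exp (22 * n) := by
    rw [← exp_nat_mul]
    norm_num
  unfold MB
  rw [e0, e1, e2, e3, ← exp_mul, ← exp_mul, ← exp_add, ← exp_add]
  have f1 : exp (12 * n) ≤ exp (muc x n) := exp_le_exp.2 h1
  have f2 : exp (18 * n + (x + n) * -(3 / 2)) ≤ exp (muc x n) := by
    apply exp_le_exp.2
    unfold muc
    rcases le_total (39 / 2 * n - 5 / 2 * x) (12 * n) with h | h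
    · rw [max_eq_left h]
      linarith
    · rw [max_eq_right h]
      linarith
  have f3 : exp (22 * n + (x + n) * -(5 / 2)) ≤ exp (muc x n) := by
    apply exp_le_exp.2
    unfold muc
    linarith
  linarith

private lemma axc_le {x n e : ℝ} (hn : 0 ≤ n) (hnx : n ≤ x / 2) (he : 0 < e) :
    axc x n e ≤ 72 / 11 * x + 2 * (e * x) ∧ axc x n e + 6 * x - 18 * n + ((1 + 2 * e) * x + muc x n) ≤ 13 * x + 4 * (e * x) := by
  have hx : 0 ≤ x := by linarith
  have hex : 0 ≤ e * x := mul_nonneg he.le hx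
  unfold axc
  split_ifs with h
  · have hm : muc x n = 12 * n := by
      unfold muc
      exact max_eq_left (by linarith)
    rw [hm]
    constructor <;> linarith
  · push Not at h
    unfold muc
    rcases le_total (39 / 2 * n - 5 / 2 * x) (12 * n) with h1 | h1
    · rw [max_eq_left h1]
      constructor <;> linarith
    · rw [max_eq_right h1]
      constructor <;> linarith

private lemma psum_c {n1 : ℕ} {x : ℝ} {y : ℕ → ℝ} (hx : 0 ≤ x) (hy : ∀ i, 0 ≤ y i) :
    (x + ∑ i ∈ Finset.range n1, y i) ^ 24 ≤ ((n1 : ℝ) + 1) ^ 23 * (x ^ 24 + ∑ i ∈ Finset.range n1, y i ^ 24) := by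
  obtain ⟨F, h0, h1⟩ : ∃ F : ℕ → ℝ, F 0 = x ∧ ∀ i, F (i + 1) = y i := ⟨fun i => Nat.casesOn i x y, rfl, fun _ => rfl⟩
  have h2 := pow_sum_le_card_mul_sum_pow (s := Finset.range (n1 + 1)) (f := F) (fun i _ => by
    cases i with
    | zero =>
      rw [h0]
      exact hx
    | succ i =>
      rw [h1]
      exact hy i) 23
  rw [Finset.sum_range_succ', Finset.sum_range_succ', Finset.card_range] at h2
  simp only [h0, h1] at h2
  push_cast at h2
  rw [add_comm x, add_comm (x ^ 24)]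
  exact h2

/-- one dyadic interval -/
theorem core24 {e T K₁ C₃ L : ℝ} (he : 0 < e) (hT : 0 ≤ T) (hK₁ : 0 ≤ K₁) (hC₃ : 0 ≤ C₃) :
    ∃ D : ℝ, 0 ≤ D ∧ ∀ X : ℝ, 1 ≤ X → ∀ n1 : ℕ, (n1 : ℝ) + 1 ≤ L * X ^ e → (∀ n < n1, (2 : ℝ) ^ n ≤ X ^ (1 / 2 : ℝ)) →
      ∀ (B : ℕ → ℝ → ℝ) (E : ℝ → ℝ), (∀ n R, 0 ≤ B n R) → (∀ n, Continuous (B n)) →
      (∀ R ∈ Icc X (2 * X), |E R| ≤ C₃ * (X ^ (1 / 2 + e) + ∑ n ∈ Finset.range n1, (X ^ (1 / 2 : ℝ) * ((2 ^ n : ℕ) : ℝ) ^ (-(3 / 2) : ℝ) * B n R + 1))) →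
      (∀ n < n1, ∀ R ∈ Icc X (2 * X), B n R ≤ T * ((2 ^ n : ℕ) : ℝ) ^ 2) →
      (∀ n < n1, ∀ R ∈ Icc X (2 * X), B n R ^ 12 ≤ K₁ * ((2 ^ n : ℕ) : ℝ) * (X ^ (1 + 2 * e) * MB X (2 ^ n))) →
      (∀ n < n1, ∫ R in Icc X (2 * X), B n R ^ 12 ≤ K₁ * (X ^ (1 + 2 * e) * MB X (2 ^ n))) →
      (∀ R ∈ Icc X (2 * X), |E R| ≤ D * X ^ (6 / 11 + 2 * e)) ∧
        ∫⁻ R in Icc X (2 * X), ENNReal.ofReal (|E R| ^ 24) ≤ ENNReal.ofReal (D * X ^ (13 + 48 * e)) := by
  obtain ⟨M₁, hM₁⟩ : ∃ M₁ : ℝ, M₁ = T ^ 12 + 3 * K₁ := ⟨_, rfl⟩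
  have hM0 : 0 ≤ M₁ := by
    rw [hM₁]
    positivity
  obtain ⟨D₁, hD₁⟩ : ∃ D₁ : ℝ, D₁ = C₃ * (M₁ + 2) * |L| := ⟨_, rfl⟩
  obtain ⟨D₂, hD₂⟩ : ∃ D₂ : ℝ, D₂ = C₃ ^ 24 * (|L| ^ 24 * (1 + 2 ^ 23 * (M₁ * (3 * K₁) + 1))) := ⟨_, rfl⟩
  have hD₁0 : 0 ≤ D₁ := by
    rw [hD₁]
    positivity
  have hD₂0 : 0 ≤ D₂ := by
    rw [hD₂]
    positivity
  refine ⟨D₁ + D₂, by positivity, ?_⟩
  intro X hX1 n1 hn1 hN B E hB0 hBc hE ht hs hm
  have hX0 : 0 < X := by linarith
  obtain ⟨x, hx⟩ : ∃ x : ℝ, x = log X := ⟨_, rfl⟩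
  have hx0 : 0 ≤ x := by
    rw [hx]
    exact log_nonneg hX1
  have hXx : X = exp x := by
    rw [hx, exp_log hX0]
  have hXpow : ∀ y : ℝ, X ^ y = exp (y * x) := by
    intro y
    rw [hXx, ← exp_mul, mul_comm]
  have hex : 0 ≤ e * x := mul_nonneg he.le hx0
  obtain ⟨ν, hν⟩ : ∃ ν : ℕ → ℝ, ∀ n, ν n = n * log 2 := ⟨_, fun _ => rfl⟩
  have hNr : ∀ n : ℕ, ((2 ^ n : ℕ) : ℝ) = (2 : ℝ) ^ n := fun n => by push_cast; rfl
  have hNe : ∀ n : ℕ, ((2 ^ n : ℕ) : ℝ) = exp (ν n) := by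
    intro n
    rw [hNr, hν, exp_nat_mul, exp_log (by norm_num)]
  have hν0 : ∀ n, 0 ≤ ν n := by
    intro n
    rw [hν]
    have := log_two_gt_d9
    positivity
  have hνx : ∀ n < n1, ν n ≤ x / 2 := by
    intro n hn
    have h1 := hN n hn
    rw [← hNr, hNe, hXpow, exp_le_exp] at h1
    linarith
  have hL1 : (n1 : ℝ) + 1 ≤ |L| * X ^ e := hn1.trans (mul_le_mul_of_nonneg_right (le_abs_self L) (by positivity))
  have hn0 : (0 : ℝ) ≤ n1 := Nat.cast_nonneg n1
  have hpre : ∀ n : ℕ, X ^ (1 / 2 : ℝ) * ((2 ^ n : ℕ) : ℝ) ^ (-(3 / 2) : ℝ) = exp (x / 2 - 3 / 2 * ν n) := by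
    intro n
    rw [hXpow, hNe, ← exp_mul, ← exp_add]
    congr 1
    ring
  have hpre12 : ∀ n : ℕ, exp (x / 2 - 3 / 2 * ν n) ^ 12 = exp (6 * x - 18 * ν n) := by
    intro n
    rw [← exp_nat_mul]
    congr 1
    push_cast
    ring
  have hMB : ∀ n : ℕ, X ^ (1 + 2 * e) * MB X (2 ^ n) ≤ 3 * exp ((1 + 2 * e) * x + muc x (ν n)) := by
    intro n
    have h5 : MB X (2 ^ n) ≤ 3 * exp (muc x (ν n)) := by
      rw [← hNr, hNe, hXx]
      exact mb_c
    calc X ^ (1 + 2 * e) * MB X (2 ^ n) ≤ X ^ (1 + 2 * e) * (3 * exp (muc x (ν n))) := mul_le_mul_of_nonneg_left h5 (by positivity)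
      _ = 3 * exp ((1 + 2 * e) * x + muc x (ν n)) := by
          rw [hXpow, exp_add]
          ring
  -- the twelfth power of a block
  have h12 : ∀ n < n1, ∀ R ∈ Icc X (2 * X), (exp (x / 2 - 3 / 2 * ν n) * B n R) ^ 12 ≤ M₁ * exp (axc x (ν n) e) := by
    intro n hn R hR
    rw [mul_pow, hpre12]
    by_cases hc : ν n ≤ x / 11
    · have h1 : B n R ^ 12 ≤ T ^ 12 * exp (24 * ν n) := by
        have h2 := pow_le_pow_left₀ (hB0 n R) (ht n hn R hR) 12
        rw [hNe, mul_pow, ← exp_nat_mul, ← exp_nat_mul] at h2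
        have h3 : exp ((12 : ℕ) * ((2 : ℕ) * ν n)) = exp (24 * ν n) := by
          congr 1
          push_cast
          ring
        rw [h3] at h2
        exact h2
      unfold axc
      rw [if_pos hc]
      calc exp (6 * x - 18 * ν n) * B n R ^ 12 ≤ exp (6 * x - 18 * ν n) * (T ^ 12 * exp (24 * ν n)) := mul_le_mul_of_nonneg_left h1 (exp_pos _).le
        _ = T ^ 12 * exp (6 * x + 6 * ν n) := by
            have : exp (6 * x + 6 * ν n) = exp (6 * x - 18 * ν n) * exp (24 * ν n) := by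
              rw [← exp_add]
              congr 1
              ring
            rw [this]
            ring
        _ ≤ M₁ * exp (6 * x + 6 * ν n) := by
            refine mul_le_mul_of_nonneg_right ?_ (exp_pos _).le
            rw [hM₁]
            linarith
    · have h1 : B n R ^ 12 ≤ K₁ * exp (ν n) * (3 * exp ((1 + 2 * e) * x + muc x (ν n))) := by
        have h2 := hs n hn R hR
        rw [hNe] at h2
        exact h2.trans (mul_le_mul_of_nonneg_left (hMB n) (by positivity))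
      unfold axc
      rw [if_neg hc]
      calc exp (6 * x - 18 * ν n) * B n R ^ 12 ≤ exp (6 * x - 18 * ν n) * (K₁ * exp (ν n) * (3 * exp ((1 + 2 * e) * x + muc x (ν n)))) :=
            mul_le_mul_of_nonneg_left h1 (exp_pos _).le
        _ = 3 * K₁ * exp (7 * x - 17 * ν n + 2 * (e * x) + muc x (ν n)) := by
            have : exp (7 * x - 17 * ν n + 2 * (e * x) + muc x (ν n)) =
                exp (6 * x - 18 * ν n) * exp (ν n) * exp ((1 + 2 * e) * x + muc x (ν n)) := by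
              rw [← exp_add, ← exp_add]
              congr 1
              ring
            rw [this]
            ring
        _ ≤ M₁ * exp (7 * x - 17 * ν n + 2 * (e * x) + muc x (ν n)) := by
            refine mul_le_mul_of_nonneg_right ?_ (exp_pos _).le
            rw [hM₁]
            have : 0 ≤ T ^ 12 := by positivity
            linarith
  have hy0 : ∀ n R, 0 ≤ exp (x / 2 - 3 / 2 * ν n) * B n R := fun n R => mul_nonneg (exp_pos _).le (hB0 n R)
  -- the bound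
  have h1 : ∀ n < n1, ∀ R ∈ Icc X (2 * X), exp (x / 2 - 3 / 2 * ν n) * B n R ≤ (M₁ + 1) * X ^ (6 / 11 + e) := by
    intro n hn R hR
    obtain ⟨f1, -⟩ := axc_le (hν0 n) (hνx n hn) he
    refine le_of_pow_le_pow_left₀ (n := 12) (by norm_num) (by positivity) ((h12 n hn R hR).trans ?_)
    rw [mul_pow]
    have g1 : M₁ ≤ (M₁ + 1) ^ 12 := by
      calc M₁ ≤ (M₁ + 1) ^ 1 := by linarith
        _ ≤ (M₁ + 1) ^ 12 := pow_le_pow_right₀ (by linarith) (by norm_num)
    have g2 : exp (axc x (ν n) e) ≤ (X ^ (6 / 11 + e)) ^ 12 := by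
      rw [hXpow, ← exp_nat_mul, exp_le_exp]
      push_cast
      linarith
    exact mul_le_mul g1 g2 (exp_pos _).le (by positivity)
  have hXa : X ^ (1 / 2 + e) ≤ X ^ (6 / 11 + e) := rpow_le_rpow_of_exponent_le hX1 (by linarith)
  have hXb : 1 ≤ X ^ (6 / 11 + e) := one_le_rpow hX1 (by linarith)
  constructor
  · intro R hR
    have hsum : ∑ n ∈ Finset.range n1, (X ^ (1 / 2 : ℝ) * ((2 ^ n : ℕ) : ℝ) ^ (-(3 / 2) : ℝ) * B n R + 1) ≤
        n1 * ((M₁ + 2) * X ^ (6 / 11 + e)) := by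
      have h2 : ∀ n ∈ Finset.range n1, X ^ (1 / 2 : ℝ) * ((2 ^ n : ℕ) : ℝ) ^ (-(3 / 2) : ℝ) * B n R + 1 ≤ (M₁ + 2) * X ^ (6 / 11 + e) := by
        intro n hn
        rw [hpre]
        have := h1 n (Finset.mem_range.1 hn) R hR
        linarith
      have h3 := Finset.sum_le_sum h2
      rw [Finset.sum_const, Finset.card_range, nsmul_eq_mul] at h3
      exact h3
    have h3 : X ^ (1 / 2 + e) + ∑ n ∈ Finset.range n1, (X ^ (1 / 2 : ℝ) * ((2 ^ n : ℕ) : ℝ) ^ (-(3 / 2) : ℝ) * B n R + 1) ≤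
        ((n1 : ℝ) + 1) * ((M₁ + 2) * X ^ (6 / 11 + e)) := by
      have : 0 ≤ (M₁ + 1) * X ^ (6 / 11 + e) := by positivity
      linarith
    calc |E R| ≤ C₃ * (((n1 : ℝ) + 1) * ((M₁ + 2) * X ^ (6 / 11 + e))) := (hE R hR).trans (mul_le_mul_of_nonneg_left h3 hC₃)
      _ ≤ C₃ * ((|L| * X ^ e) * ((M₁ + 2) * X ^ (6 / 11 + e))) :=
          mul_le_mul_of_nonneg_left (mul_le_mul_of_nonneg_right hL1 (by positivity)) hC₃
      _ = D₁ * X ^ (6 / 11 + 2 * e) := by
          have : X ^ (6 / 11 + 2 * e) = X ^ e * X ^ (6 / 11 + e) := by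
            rw [← rpow_add hX0]
            congr 1
            ring
          rw [this, hD₁]
          ring
      _ ≤ _ := mul_le_mul_of_nonneg_right (by linarith) (by positivity)
  · obtain ⟨Φ, hΦd⟩ : ∃ Φ : ℝ → ℝ, ∀ R, Φ R = C₃ ^ 24 * (((n1 : ℝ) + 1) ^ 23 * (X ^ (12 + 24 * e) +
      ∑ n ∈ Finset.range n1, 2 ^ 23 * (M₁ * exp (axc x (ν n) e + (6 * x - 18 * ν n)) * B n R ^ 12 + 1))) := ⟨_, fun _ => rfl⟩
    have hc3 : ∀ n, Continuous fun R => 2 ^ 23 * (M₁ * exp (axc x (ν n) e + (6 * x - 18 * ν n)) * B n R ^ 12 + 1) :=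
      fun n => continuous_const.mul ((continuous_const.mul ((hBc n).pow 12)).add continuous_const)
    have hΦc : Continuous Φ := by
      rw [funext hΦd]
      exact continuous_const.mul (continuous_const.mul (continuous_const.add (continuous_finsetSum _ fun n _ => hc3 n)))
    have hΦ0 : ∀ R, 0 ≤ Φ R := by
      intro R
      rw [hΦd]
      refine mul_nonneg (by positivity) (mul_nonneg (by positivity) (add_nonneg (by positivity) (Finset.sum_nonneg fun n _ => ?_)))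
      have := hB0 n R
      positivity
    have hpoint : ∀ R ∈ Icc X (2 * X), ENNReal.ofReal (|E R| ^ 24) ≤ ENNReal.ofReal (Φ R) := by
      intro R hR
      refine ENNReal.ofReal_le_ofReal ?_
      obtain ⟨y, hy⟩ : ∃ y : ℕ → ℝ, ∀ n, y n = exp (x / 2 - 3 / 2 * ν n) * B n R + 1 := ⟨_, fun _ => rfl⟩
      have hyn : ∀ n, 0 ≤ y n := by
        intro n
        rw [hy]
        have := hy0 n R
        linarith
      have h2 := hE R hR
      simp only [hpre, ← hy] at h2
      have h3 := pow_le_pow_left₀ (abs_nonneg _) h2 24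
      rw [mul_pow] at h3
      refine h3.trans ?_
      rw [hΦd]
      refine mul_le_mul_of_nonneg_left ?_ (by positivity)
      refine (psum_c (by positivity) hyn).trans (mul_le_mul_of_nonneg_left ?_ (by positivity))
      have h4 : (X ^ (1 / 2 + e)) ^ 24 = X ^ (12 + 24 * e) := by
        rw [← rpow_natCast, ← rpow_mul hX0.le]
        congr 1
        push_cast
        ring
      rw [h4]
      refine add_le_add le_rfl (Finset.sum_le_sum fun n hn => ?_)
      have hn' := Finset.mem_range.1 hn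
      have h5 := add_pow_le (a := exp (x / 2 - 3 / 2 * ν n) * B n R) (b := 1) (hy0 n R) zero_le_one 24
      rw [hy]
      refine h5.trans ?_
      rw [one_pow]
      refine mul_le_mul_of_nonneg_left ?_ (by positivity)
      have h6 : (exp (x / 2 - 3 / 2 * ν n) * B n R) ^ 24 ≤ M₁ * exp (axc x (ν n) e + (6 * x - 18 * ν n)) * B n R ^ 12 := by
        calc (exp (x / 2 - 3 / 2 * ν n) * B n R) ^ 24 = (exp (x / 2 - 3 / 2 * ν n) * B n R) ^ 12 * (exp (x / 2 - 3 / 2 * ν n) * B n R) ^ 12 := by ring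
          _ ≤ M₁ * exp (axc x (ν n) e) * (exp (x / 2 - 3 / 2 * ν n) * B n R) ^ 12 :=
              mul_le_mul_of_nonneg_right (h12 n hn' R hR) (pow_nonneg (hy0 n R) 12)
          _ = M₁ * exp (axc x (ν n) e + (6 * x - 18 * ν n)) * B n R ^ 12 := by
              rw [mul_pow, hpre12, exp_add]
              ring
      linarith
    have hΦint : ∫ R in Icc X (2 * X), Φ R ≤ D₂ * X ^ (13 + 48 * e) := by
      have hvol : ∀ z : ℝ, ∫ _R in Icc X (2 * X), z = X * z := by
        intro z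
        rw [setIntegral_const, Measure.real, Real.volume_Icc, ENNReal.toReal_ofReal (by linarith), smul_eq_mul]
        ring
      have hcon : ∀ g : ℝ → ℝ, Continuous g → IntegrableOn g (Icc X (2 * X)) := fun g hg =>
        hg.continuousOn.integrableOn_compact isCompact_Icc
      have e3 : ∀ n, ∫ R in Icc X (2 * X), 2 ^ 23 * (M₁ * exp (axc x (ν n) e + (6 * x - 18 * ν n)) * B n R ^ 12 + 1) =
          2 ^ 23 * (M₁ * exp (axc x (ν n) e + (6 * x - 18 * ν n)) * (∫ R in Icc X (2 * X), B n R ^ 12) + X) := by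
        intro n
        have c1 : Continuous fun R => M₁ * exp (axc x (ν n) e + (6 * x - 18 * ν n)) * B n R ^ 12 := continuous_const.mul ((hBc n).pow 12)
        have i1 : ∫ R in Icc X (2 * X), (M₁ * exp (axc x (ν n) e + (6 * x - 18 * ν n)) * B n R ^ 12 + 1) =
            (∫ R in Icc X (2 * X), M₁ * exp (axc x (ν n) e + (6 * x - 18 * ν n)) * B n R ^ 12) + ∫ _R in Icc X (2 * X), (1 : ℝ) :=
          integral_add (hcon _ c1) (hcon _ continuous_const)
        rw [integral_const_mul, i1, integral_const_mul, hvol, mul_one]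
      have e4 : ∫ R in Icc X (2 * X), (X ^ (12 + 24 * e) + ∑ n ∈ Finset.range n1,
          2 ^ 23 * (M₁ * exp (axc x (ν n) e + (6 * x - 18 * ν n)) * B n R ^ 12 + 1)) = X * X ^ (12 + 24 * e) +
          ∑ n ∈ Finset.range n1, 2 ^ 23 * (M₁ * exp (axc x (ν n) e + (6 * x - 18 * ν n)) * (∫ R in Icc X (2 * X), B n R ^ 12) + X) := by
        rw [integral_add (hcon (fun _ => X ^ (12 + 24 * e)) continuous_const)
          (hcon (fun R => ∑ n ∈ Finset.range n1, 2 ^ 23 * (M₁ * exp (axc x (ν n) e + (6 * x - 18 * ν n)) * B n R ^ 12 + 1))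
            (continuous_finsetSum _ fun n _ => hc3 n)), hvol, integral_finsetSum _ fun n _ => hcon _ (hc3 n)]
        congr 1
        exact Finset.sum_congr rfl fun n _ => e3 n
      have e1 : ∫ R in Icc X (2 * X), Φ R = C₃ ^ 24 * (((n1 : ℝ) + 1) ^ 23 * (X * X ^ (12 + 24 * e) +
          ∑ n ∈ Finset.range n1, 2 ^ 23 * (M₁ * exp (axc x (ν n) e + (6 * x - 18 * ν n)) * (∫ R in Icc X (2 * X), B n R ^ 12) + X))) := by
        simp only [hΦd]
        rw [integral_const_mul, integral_const_mul, e4]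
      have hXc : X * X ^ (12 + 24 * e) = X ^ (13 + 24 * e) := by
        rw [← rpow_one_add' hX0.le (by linarith)]
        congr 1
        ring
      have hterm : ∀ n ∈ Finset.range n1, 2 ^ 23 * (M₁ * exp (axc x (ν n) e + (6 * x - 18 * ν n)) * (∫ R in Icc X (2 * X), B n R ^ 12) + X) ≤
          2 ^ 23 * (M₁ * (3 * K₁) + 1) * X ^ (13 + 24 * e) := by
        intro n hn
        have hn' := Finset.mem_range.1 hn
        obtain ⟨-, f2⟩ := axc_le (hν0 n) (hνx n hn') he
        have g1 : (∫ R in Icc X (2 * X), B n R ^ 12) ≤ K₁ * (3 * exp ((1 + 2 * e) * x + muc x (ν n))) :=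
          (hm n hn').trans (mul_le_mul_of_nonneg_left (hMB n) hK₁)
        have g2 : exp (axc x (ν n) e + (6 * x - 18 * ν n)) * exp ((1 + 2 * e) * x + muc x (ν n)) ≤ X ^ (13 + 24 * e) := by
          rw [← exp_add, hXpow, exp_le_exp]
          linarith
        have g3 : X ≤ X ^ (13 + 24 * e) := by
          calc X = X ^ (1 : ℝ) := (rpow_one X).symm
            _ ≤ _ := rpow_le_rpow_of_exponent_le hX1 (by linarith)
        have g4 : M₁ * exp (axc x (ν n) e + (6 * x - 18 * ν n)) * (∫ R in Icc X (2 * X), B n R ^ 12) ≤ M₁ * (3 * K₁) * X ^ (13 + 24 * e) := by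
          calc M₁ * exp (axc x (ν n) e + (6 * x - 18 * ν n)) * (∫ R in Icc X (2 * X), B n R ^ 12) ≤
                M₁ * exp (axc x (ν n) e + (6 * x - 18 * ν n)) * (K₁ * (3 * exp ((1 + 2 * e) * x + muc x (ν n)))) :=
                mul_le_mul_of_nonneg_left g1 (by positivity)
            _ = M₁ * (3 * K₁) * (exp (axc x (ν n) e + (6 * x - 18 * ν n)) * exp ((1 + 2 * e) * x + muc x (ν n))) := by ring
            _ ≤ _ := mul_le_mul_of_nonneg_left g2 (by positivity)
        calc 2 ^ 23 * (M₁ * exp (axc x (ν n) e + (6 * x - 18 * ν n)) * (∫ R in Icc X (2 * X), B n R ^ 12) + X) ≤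
              2 ^ 23 * (M₁ * (3 * K₁) * X ^ (13 + 24 * e) + X ^ (13 + 24 * e)) := mul_le_mul_of_nonneg_left (by linarith) (by positivity)
          _ = _ := by ring
      have hsum := Finset.sum_le_sum hterm
      rw [Finset.sum_const, Finset.card_range, nsmul_eq_mul] at hsum
      rw [e1, hXc]
      obtain ⟨S, hS⟩ : ∃ S : ℝ, S = ∑ n ∈ Finset.range n1,
        2 ^ 23 * (M₁ * exp (axc x (ν n) e + (6 * x - 18 * ν n)) * (∫ R in Icc X (2 * X), B n R ^ 12) + X) := ⟨_, rfl⟩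
      rw [← hS] at hsum ⊢
      obtain ⟨Y, hY⟩ : ∃ Y : ℝ, Y = X ^ (13 + 24 * e) := ⟨_, rfl⟩
      have hY0 : 0 ≤ Y := by
        rw [hY]
        positivity
      rw [← hY] at hsum ⊢
      obtain ⟨Q, hQ⟩ : ∃ Q : ℝ, Q = 2 ^ 23 * (M₁ * (3 * K₁) + 1) := ⟨_, rfl⟩
      have hQ0 : 0 ≤ Q := by
        rw [hQ]
        positivity
      rw [← hQ] at hsum
      have h2 : Y + S ≤ ((n1 : ℝ) + 1) * ((1 + Q) * Y) := by
        have h3 : 0 ≤ Q * Y := by positivity
        have h4 : 0 ≤ (n1 : ℝ) * Y := by positivity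
        have h5 : ((n1 : ℝ) + 1) * ((1 + Q) * Y) = Y + n1 * (Q * Y) + (n1 : ℝ) * Y + Q * Y := by ring
        rw [h5]
        linarith
      have h6 : ((n1 : ℝ) + 1) ^ 24 ≤ (|L| * X ^ e) ^ 24 := pow_le_pow_left₀ (by positivity) hL1 24
      have h7 : (X ^ e) ^ 24 * Y = X ^ (13 + 48 * e) := by
        rw [hY, ← rpow_natCast, ← rpow_mul hX0.le, ← rpow_add hX0]
        congr 1
        push_cast
        ring
      calc C₃ ^ 24 * (((n1 : ℝ) + 1) ^ 23 * (Y + S)) ≤ C₃ ^ 24 * (((n1 : ℝ) + 1) ^ 23 * (((n1 : ℝ) + 1) * ((1 + Q) * Y))) :=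
            mul_le_mul_of_nonneg_left (mul_le_mul_of_nonneg_left h2 (by positivity)) (by positivity)
        _ = C₃ ^ 24 * (((n1 : ℝ) + 1) ^ 24 * ((1 + Q) * Y)) := by ring
        _ ≤ C₃ ^ 24 * ((|L| * X ^ e) ^ 24 * ((1 + Q) * Y)) :=
            mul_le_mul_of_nonneg_left (mul_le_mul_of_nonneg_right h6 (by positivity)) (by positivity)
        _ = D₂ * ((X ^ e) ^ 24 * Y) := by
            rw [hD₂, ← hQ]
            ring
        _ = _ := by rw [h7]
    calc ∫⁻ R in Icc X (2 * X), ENNReal.ofReal (|E R| ^ 24) ≤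
          ∫⁻ R in Icc X (2 * X), ENNReal.ofReal (Φ R) := setLIntegral_mono' measurableSet_Icc hpoint
      _ = ENNReal.ofReal (∫ R in Icc X (2 * X), Φ R) := by
          rw [ofReal_integral_eq_lintegral_ofReal (hΦc.continuousOn.integrableOn_compact isCompact_Icc) (Eventually.of_forall hΦ0)]
      _ ≤ _ := by
          refine ENNReal.ofReal_le_ofReal (hΦint.trans ?_)
          exact mul_le_mul_of_nonneg_right (by linarith) (by positivity)

end Pool.Agent.Helper92.LB
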