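import Pool.Agent.Helper60.LQ.P5T

/-!
# LB-P1: decomposition into square annuli, one centre

As LQ-P5T (`dil_blocks_two`), the bound for the centre `c` uses the sums at the centres `c + R₀^(-τ) p`, averaged with the weight `φ`.
-/

open MeasureTheory Real Set Filter Topology

set_option autoImplicit false

namespace Pool.Agent.Helper92.LB

open Pool.Agent.Helper22.AE
open Pool.Agent.Helper22.AC (cntc ga smcc poisson_c le_smcc smcc_le)
open Pool.Agent.Helper92.GC (dt sqa oct)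
open Pool.Agent.Helper22.LP
open Pool.Agent.Helper60.LQ (errd_le_poisson)

private lemma d1_nat_lb : Summable (fun n : ℕ => ((1 + |((n : ℤ) : ℝ)|) ^ 2)⁻¹) := by
  have h0 : Summable (fun n : ℕ => 1 / ((n + 1 : ℕ) : ℝ) ^ 2) :=
    (summable_nat_add_iff 1).mpr (Real.summable_one_div_nat_pow.mpr (by norm_num : 1 < 2))
  refine h0.congr (fun n => ?_)
  have hn : (0 : ℝ) ≤ n := Nat.cast_nonneg n
  rw [Int.cast_natCast, abs_of_nonneg hn, one_div]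
  push_cast
  rw [add_comm]

private lemma d1_int_lb : Summable (fun n : ℤ => ((1 + |(n : ℝ)|) ^ 2)⁻¹) := by
  apply Summable.of_nat_of_neg
  · exact d1_nat_lb
  · refine d1_nat_lb.congr (fun n => ?_)
    push_cast
    rw [abs_neg]

/-- the majorant of the tail -/
private noncomputable def d2m_lb (k : ℤ × ℤ) : ℝ := ((1 + |(k.1 : ℝ)|) ^ 2)⁻¹ * ((1 + |(k.2 : ℝ)|) ^ 2)⁻¹

private lemma d1_sum_lb : Summable d2m_lb :=
  Summable.mul_of_nonneg d1_int_lb d1_int_lb (fun n => by positivity) (fun n => by positivity)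

private lemma d1_nk_lb (k : ℤ × ℤ) : nk k = sqrt ((k.1 : ℝ) ^ 2 + (k.2 : ℝ) ^ 2) := by
  unfold nk cz
  rw [Complex.norm_def, Complex.normSq_mk]
  congr 1
  ring

private lemma d1_abs_lb (k : ℤ × ℤ) : |(k.1 : ℝ)| ≤ nk k ∧ |(k.2 : ℝ)| ≤ nk k := by
  rw [d1_nk_lb]
  constructor
  · apply Real.le_sqrt_of_sq_le
    rw [sq_abs]
    nlinarith [sq_nonneg (k.2 : ℝ)]
  · apply Real.le_sqrt_of_sq_le
    rw [sq_abs]
    nlinarith [sq_nonneg (k.1 : ℝ)]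

private lemma d1_one_lb {k : ℤ × ℤ} (hk : k ≠ 0) : 1 ≤ nk k := by
  rw [d1_nk_lb]
  apply Real.le_sqrt_of_sq_le
  have h1 : (1 : ℤ) ≤ k.1 ^ 2 + k.2 ^ 2 := by
    by_contra hn
    push Not at hn
    apply hk
    have h2 : k.1 ^ 2 = 0 := by nlinarith [sq_nonneg k.1, sq_nonneg k.2]
    have h3 : k.2 ^ 2 = 0 := by nlinarith [sq_nonneg k.1, sq_nonneg k.2]
    ext
    · exact pow_eq_zero_iff (two_ne_zero) |>.mp h2
    · exact pow_eq_zero_iff (two_ne_zero) |>.mp h3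
  have h2 : (1 : ℝ) ≤ (k.1 : ℝ) ^ 2 + (k.2 : ℝ) ^ 2 := by exact_mod_cast h1
  rw [one_pow]
  exact h2

/-- comparison with the majorant -/
private lemma d1_major_lb {k : ℤ × ℤ} (hk : k ≠ 0) : (nk k ^ 4)⁻¹ ≤ 16 * d2m_lb k := by
  have h0 := d1_one_lb hk
  obtain ⟨h1, h2⟩ := d1_abs_lb k
  have h3 : (1 + |(k.1 : ℝ)|) ^ 2 ≤ (2 * nk k) ^ 2 := pow_le_pow_left₀ (by positivity) (by linarith) 2
  have h4 : (1 + |(k.2 : ℝ)|) ^ 2 ≤ (2 * nk k) ^ 2 := pow_le_pow_left₀ (by positivity) (by linarith) 2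
  have h5 : (1 + |(k.1 : ℝ)|) ^ 2 * (1 + |(k.2 : ℝ)|) ^ 2 ≤ 16 * nk k ^ 4 := by
    have := mul_le_mul h3 h4 (by positivity) (by positivity)
    refine this.trans (le_of_eq ?_)
    ring
  unfold d2m_lb
  rw [← mul_inv, ← div_eq_mul_inv, inv_eq_one_div, div_le_div_iff₀ (by positivity) (by positivity)]
  linarith

/-- a term of the tail -/
private lemma d1_term_lb {G : ℝ → ℝ} (hG : IsSupp G) {φ : ℝ × ℝ → ℝ} {e2 C1 CA R₀ τ : ℝ} (hτ : τ < 1)
    {A : ℕ} (hA : 5 ≤ e2 * A) (hR : 1 ≤ R₀)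
    (h1 : ∫ t in (0 : ℝ)..(2 * π), rho G t ≤ C1 * (2 * R₀)) (hC1 : 0 ≤ C1)
    (h2 : ∀ x y : ℝ, ‖fhat φ x y‖ * (1 + sqrt (x ^ 2 + y ^ 2)) ^ (A + 4) ≤ CA) (hCA : 0 ≤ CA)
    {k : ℤ × ℤ} (hk : k ≠ 0) {n1 : ℕ} (hn : R₀ ^ (τ + e2) ≤ 2 ^ n1) (hk1 : (2 : ℝ) ^ n1 ≤ nk k) :
    ‖ft G k * fhat φ (R₀ ^ (-τ) * k.1) (R₀ ^ (-τ) * k.2)‖ ≤ 16 * C1 * CA * d2m_lb k := by
  have hR0 : 0 < R₀ := by linarith
  have h0 := d1_one_lb hk
  set δ : ℝ := R₀ ^ (-τ) with hδ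
  have hδ0 : 0 < δ := Real.rpow_pos_of_pos hR0 _
  -- the first factor
  have h3 : ‖ft G k‖ ≤ C1 * R₀ / nk k := by
    refine (ft_norm hG hk).trans ?_
    have h4 : (∫ t in (0 : ℝ)..(2 * π), rho G t) / (2 * π * nk k) ≤ C1 * (2 * R₀) / (2 * π * nk k) :=
      div_le_div_of_nonneg_right h1 (by positivity)
    refine h4.trans ?_
    rw [div_le_div_iff₀ (by positivity) (by positivity)]
    have h5 : 1 ≤ π := by linarith [Real.pi_gt_three]
    have h6 : 0 ≤ C1 * R₀ * nk k := by positivity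
    nlinarith
  -- the second factor
  have h4 : sqrt ((δ * (k.1 : ℝ)) ^ 2 + (δ * (k.2 : ℝ)) ^ 2) = δ * nk k := by
    rw [d1_nk_lb, mul_pow, mul_pow, ← mul_add, Real.sqrt_mul (by positivity), Real.sqrt_sq hδ0.le]
  have h5 := h2 (δ * k.1) (δ * k.2)
  rw [h4] at h5
  have h6 : R₀ ^ e2 ≤ δ * nk k := by
    have h7 : R₀ ^ e2 = δ * R₀ ^ (τ + e2) := by
      rw [hδ, ← Real.rpow_add hR0]
      congr 1
      ring
    rw [h7]
    exact mul_le_mul_of_nonneg_left (hn.trans hk1) hδ0.le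
  have h7 : R₀ ^ 5 ≤ (δ * nk k) ^ A := by
    have h8 : (R₀ ^ e2) ^ A ≤ (δ * nk k) ^ A := pow_le_pow_left₀ (by positivity) h6 A
    refine le_trans ?_ h8
    rw [← Real.rpow_natCast (R₀ ^ e2) A, ← Real.rpow_mul hR0.le, ← Real.rpow_natCast R₀ 5]
    exact Real.rpow_le_rpow_of_exponent_le hR (by exact_mod_cast hA)
  have h8 : (R₀ ^ 4)⁻¹ ≤ δ ^ 4 := by
    rw [hδ, ← Real.rpow_natCast (R₀ ^ (-τ)) 4, ← Real.rpow_mul hR0.le, ← Real.rpow_natCast R₀ 4,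
      ← Real.rpow_neg hR0.le]
    apply Real.rpow_le_rpow_of_exponent_le hR
    push_cast
    linarith
  have h9 : R₀ * nk k ^ 4 ≤ (1 + δ * nk k) ^ (A + 4) := by
    have g1 : (δ * nk k) ^ (A + 4) ≤ (1 + δ * nk k) ^ (A + 4) :=
      pow_le_pow_left₀ (by positivity) (by linarith) _
    refine le_trans ?_ g1
    rw [pow_add]
    have g2 : (R₀ ^ 4)⁻¹ * nk k ^ 4 ≤ (δ * nk k) ^ 4 := by
      rw [mul_pow]
      exact mul_le_mul_of_nonneg_right h8 (by positivity)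
    have g3 : R₀ ^ 5 * ((R₀ ^ 4)⁻¹ * nk k ^ 4) ≤ (δ * nk k) ^ A * (δ * nk k) ^ 4 :=
      mul_le_mul h7 g2 (by positivity) (by positivity)
    refine le_trans (le_of_eq ?_) g3
    field_simp
  have h10 : ‖fhat φ (δ * k.1) (δ * k.2)‖ ≤ CA / (R₀ * nk k ^ 4) := by
    rw [le_div_iff₀ (by positivity)]
    exact (mul_le_mul_of_nonneg_left h9 (norm_nonneg _)).trans h5
  rw [norm_mul]
  calc ‖ft G k‖ * ‖fhat φ (δ * k.1) (δ * k.2)‖ ≤ (C1 * R₀ / nk k) * (CA / (R₀ * nk k ^ 4)) :=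
        mul_le_mul h3 h10 (norm_nonneg _) (by positivity)
    _ = C1 * CA * ((nk k)⁻¹ * (nk k ^ 4)⁻¹) := by field_simp
    _ ≤ C1 * CA * (1 * (16 * d2m_lb k)) := by
        apply mul_le_mul_of_nonneg_left _ (by positivity)
        exact mul_le_mul (inv_le_one_of_one_le₀ h0) (d1_major_lb hk) (by positivity) (by positivity)
    _ = 16 * C1 * CA * d2m_lb k := by ring

private lemma sq_mem_lb {n : ℕ} {k : ℤ × ℤ} :
    k ∈ sqa (2 ^ n) ↔ (2 : ℤ) ^ n ≤ max |k.1| |k.2| ∧ max |k.1| |k.2| < 2 ^ (n + 1) := by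
  unfold sqa
  rw [Finset.mem_filter]
  push_cast
  have e : (2 : ℤ) * 2 ^ n = 2 ^ (n + 1) := by ring
  rw [e, le_max_iff, max_lt_iff]
  constructor
  · exact fun h => h.2
  · intro h
    refine ⟨?_, h⟩
    unfold box
    rw [Finset.mem_product, Finset.mem_Icc, Finset.mem_Icc]
    push_cast
    rw [e]
    exact ⟨abs_le.mp h.2.1.le, abs_le.mp h.2.2.le⟩

private lemma sq_disj_lb (n1 : ℕ) :
    (Finset.range n1 : Set ℕ).PairwiseDisjoint (fun n => sqa (2 ^ n)) := by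
  intro m _ n _ hmn
  rw [Function.onFun, Finset.disjoint_left]
  intro k h1 h2
  rw [sq_mem_lb] at h1 h2
  rcases lt_or_gt_of_ne hmn with h | h
  · have h3 : (2 : ℤ) ^ (m + 1) ≤ 2 ^ n := pow_le_pow_right₀ (by norm_num) h
    linarith [h1.2, h2.1]
  · have h3 : (2 : ℤ) ^ (n + 1) ≤ 2 ^ m := pow_le_pow_right₀ (by norm_num) h
    linarith [h1.1, h2.2]

private lemma sq_nk_lb (k : ℤ × ℤ) : ((max |k.1| |k.2| : ℤ) : ℝ) ≤ nk k := by
  push_cast
  exact max_le (d1_abs_lb k).1 (d1_abs_lb k).2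

private lemma sq_one_lb {k : ℤ × ℤ} (hk : k ≠ 0) : 1 ≤ max |k.1| |k.2| := by
  by_contra h
  push Not at h
  apply hk
  rw [max_lt_iff] at h
  ext
  · exact Int.abs_lt_one_iff.mp h.1
  · exact Int.abs_lt_one_iff.mp h.2

private lemma sq_out_lb {n1 : ℕ} {k : ℤ × ℤ} (hk : k ≠ 0) (h : ∀ n < n1, k ∉ sqa (2 ^ n)) :
    (2 : ℤ) ^ n1 ≤ max |k.1| |k.2| := by
  induction n1 with
  | zero => simpa using sq_one_lb hk
  | succ n ih =>
    have h1 := ih (fun m hm => h m (by omega))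
    have h2 := h n (by omega)
    rw [sq_mem_lb] at h2
    by_contra hn
    push Not at hn
    exact h2 ⟨h1, hn⟩

private lemma bump_int_lb {φ : ℝ × ℝ → ℝ} (hφ : IsBump φ) : Integrable φ := by
  refine hφ.cont.integrable_of_hasCompactSupport ?_
  apply HasCompactSupport.intro (K := Icc (-1 : ℝ) 1 ×ˢ Icc (-1 : ℝ) 1) (isCompact_Icc.prod isCompact_Icc)
  intro p hp
  apply hφ.supp
  by_contra h
  push Not at h
  apply hp
  refine ⟨abs_le.mp ?_, abs_le.mp ?_⟩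
  · exact (sq_le_one_iff_abs_le_one p.1).mp (by nlinarith [sq_nonneg p.2])
  · exact (sq_le_one_iff_abs_le_one p.2).mp (by nlinarith [sq_nonneg p.1])

/-- a continuous function with the weight `φ` is integrable -/
theorem bump_mul_int {φ : ℝ × ℝ → ℝ} (hφ : IsBump φ) {B : ℝ × ℝ → ℝ} (hB : Continuous B) : Integrable (fun p => φ p * B p) := by
  refine (hφ.cont.mul hB).integrable_of_hasCompactSupport ?_
  apply HasCompactSupport.intro (K := Icc (-1 : ℝ) 1 ×ˢ Icc (-1 : ℝ) 1) (isCompact_Icc.prod isCompact_Icc)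
  intro p hp
  have h0 : φ p = 0 := by
    apply hφ.supp
    by_contra h
    push Not at h
    apply hp
    refine ⟨abs_le.mp ?_, abs_le.mp ?_⟩
    · exact (sq_le_one_iff_abs_le_one p.1).mp (by nlinarith [sq_nonneg p.2])
    · exact (sq_le_one_iff_abs_le_one p.2).mp (by nlinarith [sq_nonneg p.1])
  rw [Pi.mul_apply, h0, zero_mul]

/-- the smoothing factor is an average over translations of the centre -/
private lemma block_lb {φ : ℝ × ℝ → ℝ} (hφ : IsBump φ) (S : Finset (ℤ × ℤ)) (a : ℤ × ℤ → ℂ) (δ : ℝ)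
    (c : ℝ × ℝ) {B : ℝ × ℝ → ℝ} (hBc : Continuous B) (hB : ∀ c' : ℝ × ℝ, ‖∑ k ∈ S, a k * ee (dt k (-c'))‖ ≤ B c') :
    ‖∑ k ∈ S, a k * fhat φ (δ * k.1) (δ * k.2) * ee (-((k.1 : ℝ) * c.1 + (k.2 : ℝ) * c.2))‖ ≤
      ∫ p : ℝ × ℝ, φ p * B (c.1 + δ * p.1, c.2 + δ * p.2) := by
  have hφi := bump_int_lb hφ
  have hφc : Integrable (fun p => (φ p : ℂ)) := hφi.ofReal
  have hee : ∀ k : ℤ × ℤ, Continuous fun p : ℝ × ℝ =>
      ee (-(δ * (k.1 : ℝ) * p.1 + δ * (k.2 : ℝ) * p.2)) := by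
    intro k
    exact ee_cont.comp (by fun_prop)
  have hint : ∀ k : ℤ × ℤ, Integrable (fun p : ℝ × ℝ =>
      ee (-(δ * (k.1 : ℝ) * p.1 + δ * (k.2 : ℝ) * p.2)) * (φ p : ℂ)) := by
    intro k
    refine hφc.bdd_mul (c := 1) (hee k).aestronglyMeasurable ?_
    exact Filter.Eventually.of_forall fun p => (ee_norm _).le
  have e1 : ∑ k ∈ S, a k * fhat φ (δ * k.1) (δ * k.2) *
        ee (-((k.1 : ℝ) * c.1 + (k.2 : ℝ) * c.2)) =
      ∫ p : ℝ × ℝ, (∑ k ∈ S, a k * ee (dt k (-(c.1 + δ * p.1, c.2 + δ * p.2)))) * (φ p : ℂ) := by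
    have e2 : ∀ p : ℝ × ℝ,
        (∑ k ∈ S, a k * ee (dt k (-(c.1 + δ * p.1, c.2 + δ * p.2)))) * (φ p : ℂ) =
        ∑ k ∈ S, (a k * ee (-((k.1 : ℝ) * c.1 + (k.2 : ℝ) * c.2))) *
          (ee (-(δ * (k.1 : ℝ) * p.1 + δ * (k.2 : ℝ) * p.2)) * (φ p : ℂ)) := by
      intro p
      rw [Finset.sum_mul]
      refine Finset.sum_congr rfl fun k _ => ?_
      have e3 : dt k (-(c.1 + δ * p.1, c.2 + δ * p.2)) =
          -((k.1 : ℝ) * c.1 + (k.2 : ℝ) * c.2) + -(δ * (k.1 : ℝ) * p.1 + δ * (k.2 : ℝ) * p.2) := by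
        unfold dt
        simp only [Prod.fst_neg, Prod.snd_neg]
        ring
      rw [e3, ee_add]
      ring
    simp only [e2]
    rw [integral_finsetSum _ fun k _ => (hint k).const_mul _]
    refine Finset.sum_congr rfl fun k _ => ?_
    rw [integral_const_mul]
    unfold fhat
    ring
  rw [e1]
  refine norm_integral_le_of_norm_le (bump_mul_int hφ (hBc.comp (by fun_prop))) ?_
  refine Filter.Eventually.of_forall fun p => ?_
  rw [norm_mul, Complex.norm_real, Real.norm_eq_abs, abs_of_nonneg (hφ.nonneg p), mul_comm]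
  exact mul_le_mul_of_nonneg_left (hB _) (hφ.nonneg p)

theorem dil_blocks_c {H : ℝ → ℝ} (hH : IsSupp H) {φ : ℝ × ℝ → ℝ} (hφ : IsBump φ) {τ e2 : ℝ} (h0 : 0 < τ) (h1 : τ < 1) (he2 : 0 < e2) :
    ∃ C R₁ κ : ℝ, 0 < R₁ ∧ 0 < κ ∧ ∀ R₀ : ℝ, R₁ ≤ R₀ → ∀ n1 : ℕ, R₀ ^ (τ + e2) ≤ 2 ^ n1 → ∀ B : ℕ → ℝ × ℝ → ℝ, (∀ n < n1, Continuous (B n)) →
      ∀ R ∈ Icc R₀ (2 * R₀),
      (∀ n < n1, ∀ r ∈ Icc (R₀ / 2) (4 * R₀), (r = R + κ * R₀ ^ (-τ) ∨ r = R - κ * R₀ ^ (-τ)) → ∀ c' : ℝ × ℝ,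
        ‖∑ k ∈ sqa (2 ^ n), ft (fun θ => r * H θ) k * ee (dt k (-c'))‖ ≤ B n c') →
      ∀ c : ℝ × ℝ,
        |cntc H c R - area H * R ^ 2| ≤ C * R₀ ^ (1 - τ) +
          ∑ n ∈ Finset.range n1, ∫ p : ℝ × ℝ, φ p * B n (c.1 + R₀ ^ (-τ) * p.1, c.2 + R₀ ^ (-τ) * p.2) := by
  classical
  obtain ⟨C, R₁, κ, hR₁, hκ, hC⟩ := errd_le_poisson hH hφ h0
  obtain ⟨C1, hC1⟩ := rho_int hH
  obtain ⟨A, hA⟩ : ∃ A : ℕ, 5 ≤ e2 * A := by
    obtain ⟨A, hA⟩ := exists_nat_ge (5 / e2)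
    refine ⟨A, ?_⟩
    rw [div_le_iff₀ he2] at hA
    linarith
  obtain ⟨CA, hCA⟩ := hφ.decay (A + 4)
  have hCA0 : 0 ≤ CA := le_trans (by positivity) (hCA 0 0)
  set T0 : ℝ := 16 * (2 * |C1|) * CA * ∑' k, d2m_lb k with hT0
  have hT0' : 0 ≤ T0 := by
    have h1 : 0 ≤ ∑' k, d2m_lb k := tsum_nonneg (fun k => by unfold d2m_lb; positivity)
    rw [hT0]
    positivity
  refine ⟨C + T0, max R₁ 2, κ, lt_max_of_lt_left hR₁, hκ, ?_⟩
  intro R₀ hR₀ n1 hn1 Bn hBc R hR hBn c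
  have hR1 : R₁ ≤ R₀ := (le_max_left _ _).trans hR₀
  have hR22 : 2 ≤ R₀ := (le_max_right _ _).trans hR₀
  have hR2 : 1 ≤ R₀ := by linarith
  have hR0 : 0 < R₀ := by linarith
  obtain ⟨r, hr, hrR, hS, hb⟩ := hC R₀ hR1 R hR c
  refine hb.trans ?_
  set δ : ℝ := R₀ ^ (-τ) with hδ
  have hδ0 : 0 < δ := Real.rpow_pos_of_pos hR0 _
  have hδ1 : δ ≤ 1 := Real.rpow_le_one_of_one_le_of_nonpos hR2 (by linarith)
  set G : ℝ → ℝ := fun θ => r * H θ with hG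
  set T : ℤ × ℤ → ℂ := fun k => ft G k * fhat φ (δ * k.1) (δ * k.2) *
    ee (-((k.1 : ℝ) * c.1 + (k.2 : ℝ) * c.2)) with hT
  have hTn : ∀ k, ‖T k‖ = ‖ft G k * fhat φ (δ * k.1) (δ * k.2)‖ := by
    intro k
    rw [hT]
    simp only [norm_mul, ee_norm, mul_one]
  have hrho : ∫ t in (0 : ℝ)..(2 * π), rho G t ≤ (2 * |C1|) * (2 * R₀) := by
    have h1 := hC1 r (by linarith [hr.1]) 0 (by norm_num)
    have e : (fun θ => r * H θ + 0) = G := by
      funext θ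
      rw [add_zero]
    rw [e] at h1
    refine h1.trans ?_
    have h2 : C1 * r ≤ |C1| * (4 * R₀) :=
      mul_le_mul (le_abs_self C1) hr.2 (by linarith [hr.1]) (abs_nonneg _)
    linarith
  set B : Finset (ℤ × ℤ) := (Finset.range n1).biUnion (fun n => sqa (2 ^ n)) with hB
  -- the rest
  set g : ℤ × ℤ → ℂ := fun k => if k = 0 ∨ k ∈ B then 0 else T k with hg
  have hgle : ∀ k, ‖g k‖ ≤ 16 * (2 * |C1|) * CA * d2m_lb k := by
    intro k
    by_cases hk : k = 0 ∨ k ∈ B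
    · rw [hg]
      simp only [hk, if_true, norm_zero]
      unfold d2m_lb
      positivity
    · rw [hg]
      simp only [hk, if_false]
      push Not at hk
      obtain ⟨hk0, hkB⟩ := hk
      rw [hTn]
      have h2 : (2 : ℤ) ^ n1 ≤ max |k.1| |k.2| := by
        refine sq_out_lb hk0 ?_
        intro n hn hmem
        exact hkB (Finset.mem_biUnion.mpr ⟨n, Finset.mem_range.mpr hn, hmem⟩)
      have h3 : (2 : ℝ) ^ n1 ≤ nk k := by
        refine le_trans ?_ (sq_nk_lb k)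
        exact_mod_cast h2
      exact d1_term_lb hS h1 hA hR2 hrho (by positivity) hCA hCA0 hk0 hn1 h3
  have hmaj : Summable (fun k => 16 * (2 * |C1|) * CA * d2m_lb k) := d1_sum_lb.mul_left _
  have hgs : Summable (fun k => ‖g k‖) := Summable.of_nonneg_of_le (fun k => norm_nonneg _) hgle hmaj
  have hB0 : (0 : ℤ × ℤ) ∉ B := by
    intro h
    obtain ⟨n, -, h1⟩ := Finset.mem_biUnion.mp h
    rw [sq_mem_lb] at h1
    have h3 : (0 : ℤ) < 2 ^ n := by positivity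
    have h4 := h1.1
    simp only [Prod.fst_zero, Prod.snd_zero, abs_zero, max_self] at h4
    linarith
  have hsplit : ∑' k : {k : ℤ × ℤ // k ≠ 0}, T k = ∑ k ∈ B, T k + ∑' k, g k := by
    have e1 : ∑' k : {k : ℤ × ℤ // k ≠ 0}, T k = ∑' k, ({k : ℤ × ℤ | k ≠ 0}).indicator T k :=
      tsum_subtype {k : ℤ × ℤ | k ≠ 0} T
    have e2 : ∀ k, ({k : ℤ × ℤ | k ≠ 0}).indicator T k = (if k ∈ B then T k else 0) + g k := by
      intro k
      by_cases h1 : k = 0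
      · subst h1
        simp [hg, hB0]
      · by_cases h2 : k ∈ B
        · simp [hg, h1, h2, Set.indicator]
        · simp [hg, h1, h2, Set.indicator]
    rw [e1, tsum_congr e2, Summable.tsum_add]
    · congr 1
      rw [tsum_eq_sum (s := B) (fun k hk => by simp [hk])]
      exact Finset.sum_congr rfl (fun k hk => by simp [hk])
    · exact summable_of_hasFiniteSupport (B.finite_toSet.subset (fun k hk => by
        by_contra h1
        rw [Function.mem_support] at hk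
        apply hk
        have : k ∉ B := h1
        simp [this]))
    · exact hgs.of_norm
  have hsumB : ∑ k ∈ B, T k = ∑ n ∈ Finset.range n1, ∑ k ∈ sqa (2 ^ n), T k := by
    rw [hB, Finset.sum_biUnion (sq_disj_lb n1)]
  have hblk : ∀ n ∈ Finset.range n1, ‖∑ k ∈ sqa (2 ^ n), T k‖ ≤ ∫ p : ℝ × ℝ, φ p * Bn n (c.1 + δ * p.1, c.2 + δ * p.2) := by
    intro n hn
    refine block_lb hφ (sqa (2 ^ n)) (ft G) δ c (hBc n (Finset.mem_range.mp hn)) ?_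
    exact fun c' => hBn n (Finset.mem_range.mp hn) r hr hrR c'
  have htail : ‖∑' k, g k‖ ≤ T0 := by
    refine (norm_tsum_le_tsum_norm hgs).trans ?_
    refine (Summable.tsum_le_tsum hgle hgs hmaj).trans (le_of_eq ?_)
    rw [hT0, tsum_mul_left]
  have hroot : 1 ≤ R₀ ^ (1 - τ) := Real.one_le_rpow hR2 (by linarith)
  have hfin : ‖∑' k : {k : ℤ × ℤ // k ≠ 0}, T k‖ ≤
      (∑ n ∈ Finset.range n1, ∫ p : ℝ × ℝ, φ p * Bn n (c.1 + δ * p.1, c.2 + δ * p.2)) + T0 := by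
    rw [hsplit, hsumB]
    exact (norm_add_le _ _).trans
      (add_le_add ((norm_sum_le _ _).trans (Finset.sum_le_sum hblk)) htail)
  have hfin2 : T0 ≤ T0 * R₀ ^ (1 - τ) := by nlinarith
  have hfin3 : (C + T0) * R₀ ^ (1 - τ) = C * R₀ ^ (1 - τ) + T0 * R₀ ^ (1 - τ) := by ring
  rw [hfin3]
  linarith


end Pool.Agent.Helper92.LB
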