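import Pool.Agent.Helper92.LA.E4

/-!
# LB-Q: the derivative of `LS` in the radius, the supremum over the radius, the twelfth moment over the centres
-/

open MeasureTheory Real Set Filter Topology

set_option autoImplicit false

namespace Pool.Agent.Helper92.LB

open Pool.Agent.Helper22.AE
open Pool.Agent.Helper92.GC
open Pool.Agent.Helper92.DT
open Pool.Agent.Helper92.LA
open Pool.Agent.Helper22.LP (Fr fv fk fdet nr tr hom LS nr_eq nr_pos fk_ne)
open Pool.Agent.Helper22.LP (sqa_ne)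

/-- the weight of the derivative in the radius -/
noncomputable def dw (h : ℝ × ℝ → ℝ) (w : ℝ × ℝ → ℂ) (v : ℝ × ℝ) : ℂ := w v * ((h v / nr v : ℝ) : ℂ)

theorem hl_zero {B : ℝ} {h : ℝ × ℝ → ℝ} (hh : HL B h) : h (0, 0) = 0 := by
  have h1 := hh.hom 2 (0, 0) (by norm_num)
  simp only [mul_zero] at h1
  linarith

theorem nr_ge_abs (v : ℝ × ℝ) : |v.1| ≤ nr v ∧ |v.2| ≤ nr v := by
  rw [nr_eq]
  constructor
  · apply Real.le_sqrt_of_sq_le
    rw [sq_abs]
    nlinarith [sq_nonneg v.2]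
  · apply Real.le_sqrt_of_sq_le
    rw [sq_abs]
    nlinarith [sq_nonneg v.1]

theorem nr_nonneg (v : ℝ × ℝ) : 0 ≤ nr v := by
  rw [nr_eq]
  exact Real.sqrt_nonneg _

/-- the quotient `h / nr` is bounded -/
theorem hq_bdd {B : ℝ} (hB : 0 ≤ B) {h : ℝ × ℝ → ℝ} (hh : HL B h) (v : ℝ × ℝ) : |h v / nr v| ≤ 2 * B := by
  rcases eq_or_ne v 0 with rfl | hv
  · have h1 : h 0 = 0 := hl_zero hh
    rw [h1, zero_div, abs_zero]
    positivity
  · have h1 : 0 < nr v := nr_pos hv
    obtain ⟨a1, a2⟩ := nr_ge_abs v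
    have h2 := hh.hom (1 / nr v) v (by positivity)
    have h3 := hh.lip (1 / nr v * v.1, 1 / nr v * v.2) (0, 0) (by
      rw [abs_mul, abs_of_pos (by positivity : 0 < 1 / nr v), one_div, inv_mul_le_iff₀ h1, mul_one]
      exact a1) (by
      rw [abs_mul, abs_of_pos (by positivity : 0 < 1 / nr v), one_div, inv_mul_le_iff₀ h1, mul_one]
      exact a2) (by simp) (by simp)
    rw [h2, hl_zero hh] at h3
    simp only [sub_zero] at h3
    have e : h v / nr v = 1 / nr v * h v := by ring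
    rw [e]
    refine h3.trans ?_
    have h4 : |1 / nr v * v.1| ≤ 1 := by
      rw [abs_mul, abs_of_pos (by positivity : 0 < 1 / nr v), one_div, inv_mul_le_iff₀ h1, mul_one]
      exact a1
    have h5 : |1 / nr v * v.2| ≤ 1 := by
      rw [abs_mul, abs_of_pos (by positivity : 0 < 1 / nr v), one_div, inv_mul_le_iff₀ h1, mul_one]
      exact a2
    nlinarith

/-- the weight of the derivative has the same properties -/
theorem dw_WL {B : ℝ} {h : ℝ × ℝ → ℝ} (hh : HL B h) {w : ℝ × ℝ → ℂ} (hw : WL B w) : WL (5 * B ^ 2) (dw h w) := by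
  have hB : 0 ≤ B := (norm_nonneg _).trans (hw.bdd (0, 0))
  have hbd : ∀ v, |h v / nr v| ≤ 2 * B := hq_bdd hB hh
  constructor
  · intro s v hs
    unfold dw
    rw [hw.hom s v hs, hh.hom s v hs, nr_smul hs]
    congr 2
    rw [mul_div_mul_left _ _ hs.ne']
  · intro v
    unfold dw
    rw [norm_mul, Complex.norm_real, Real.norm_eq_abs]
    calc ‖w v‖ * |h v / nr v| ≤ B * (2 * B) := mul_le_mul (hw.bdd v) (hbd v) (abs_nonneg _) hB
      _ ≤ 5 * B ^ 2 := by nlinarith
  · intro v v' hv hv'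
    obtain ⟨D, hD⟩ : ∃ D : ℝ, D = |v.1 - v'.1| + |v.2 - v'.2| := ⟨_, rfl⟩
    have hD0 : 0 ≤ D := by
      rw [hD]
      positivity
    have hb : ∀ u : ℝ × ℝ, max |u.1| |u.2| = 1 → |u.1| ≤ 1 ∧ |u.2| ≤ 1 ∧ 1 ≤ nr u := by
      intro u hu
      refine ⟨hu ▸ le_max_left _ _, hu ▸ le_max_right _ _, ?_⟩
      rw [← hu]
      exact max_le (nr_ge_abs u).1 (nr_ge_abs u).2
    obtain ⟨v1, v2, v3⟩ := hb v hv
    obtain ⟨u1, u2, u3⟩ := hb v' hv'
    have h1 : |h v - h v'| ≤ B * D := by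
      rw [hD]
      exact hh.lip v v' v1 v2 u1 u2
    have h2 : |nr v - nr v'| ≤ D := by
      rw [hD]
      exact (nr_sub_le v v').trans (nr_le_add _)
    have h3 : |h v / nr v - h v' / nr v'| ≤ 3 * B * D := by
      have e : h v / nr v - h v' / nr v' = (h v - h v') / nr v + h v' / nr v' * ((nr v' - nr v) / nr v) := by
        have n1 : nr v ≠ 0 := by linarith
        have n2 : nr v' ≠ 0 := by linarith
        field_simp
        ring
      rw [e]
      refine (abs_add_le _ _).trans ?_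
      have a1 : |(h v - h v') / nr v| ≤ B * D := by
        rw [abs_div, abs_of_pos (by linarith : 0 < nr v), div_le_iff₀ (by linarith)]
        have := mul_nonneg hB hD0
        nlinarith
      have a2 : |(nr v' - nr v) / nr v| ≤ D := by
        rw [abs_div, abs_of_pos (by linarith : 0 < nr v), div_le_iff₀ (by linarith), abs_sub_comm]
        nlinarith
      have a3 : |h v' / nr v' * ((nr v' - nr v) / nr v)| ≤ 2 * B * D := by
        rw [abs_mul]
        exact mul_le_mul (hbd v') a2 (abs_nonneg _) (by positivity)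
      linarith
    rw [← hD]
    unfold dw
    have e : w v * ((h v / nr v : ℝ) : ℂ) - w v' * ((h v' / nr v' : ℝ) : ℂ) =
        (w v - w v') * ((h v / nr v : ℝ) : ℂ) + w v' * ((h v / nr v - h v' / nr v' : ℝ) : ℂ) := by
      push_cast
      ring
    rw [e]
    refine (norm_add_le _ _).trans ?_
    rw [norm_mul, norm_mul, Complex.norm_real, Complex.norm_real, Real.norm_eq_abs, Real.norm_eq_abs]
    have b1 : ‖w v - w v'‖ * |h v / nr v| ≤ B * D * (2 * B) := by
      refine mul_le_mul ?_ (hbd v) (abs_nonneg _) (by positivity)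
      rw [hD]
      exact hw.lip v v' hv hv'
    have b2 : ‖w v'‖ * |h v / nr v - h v' / nr v'| ≤ B * (3 * B * D) := mul_le_mul (hw.bdd v') h3 (abs_nonneg _) hB
    calc _ ≤ B * D * (2 * B) + B * (3 * B * D) := add_le_add b1 b2
      _ = 5 * B ^ 2 * D := by ring

theorem HL_mono {B B' : ℝ} (h1 : B ≤ B') {h : ℝ × ℝ → ℝ} (hh : HL B h) : HL B' h :=
  ⟨hh.hom, fun v w a b c d => (hh.lip v w a b c d).trans (mul_le_mul_of_nonneg_right h1 (by positivity))⟩

theorem WL_mono {B B' : ℝ} (h1 : B ≤ B') {w : ℝ × ℝ → ℂ} (hw : WL B w) : WL B' w :=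
  ⟨hw.hom, fun v => (hw.bdd v).trans h1, fun v v' a b => (hw.lip v v' a b).trans (mul_le_mul_of_nonneg_right h1 (by positivity))⟩

theorem LS_deriv {f : Fr} (hf : fdet f ≠ 0) (h : ℝ × ℝ → ℝ) (w : ℝ × ℝ → ℂ) (i : ℕ) {N : ℕ} (hN : 1 ≤ N) (c : ℝ × ℝ) (r : ℝ) :
    HasDerivAt (fun r => LS f h w (i + 1) N r c) (((2 * π * N : ℝ) : ℂ) * Complex.I * LS f h (dw h w) i N r c) r := by
  unfold LS
  rw [Finset.mul_sum]
  have hs : HasDerivAt (fun r : ℝ => ∑ k ∈ sqa N, (((N : ℝ) / nr (fk f k) : ℝ) : ℂ) ^ (i + 1) * w (fk f k) * ee (r * h (fk f k) + dt k c))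
      (∑ k ∈ sqa N, (((N : ℝ) / nr (fk f k) : ℝ) : ℂ) ^ (i + 1) * w (fk f k) * (ee (r * h (fk f k) + dt k c) *
        (((2 * π * h (fk f k) : ℝ) : ℂ) * Complex.I))) r := by
    apply HasDerivAt.fun_sum
    intro k _
    apply HasDerivAt.const_mul
    unfold ee
    apply HasDerivAt.cexp
    apply HasDerivAt.mul_const
    apply HasDerivAt.ofReal_comp
    apply HasDerivAt.const_mul
    have h1 : HasDerivAt (fun r : ℝ => r * h (fk f k) + dt k c) (h (fk f k)) r := by
      have := ((hasDerivAt_id r).mul_const (h (fk f k))).add_const (dt k c)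
      rw [one_mul] at this
      exact this
    exact h1
  convert hs using 1
  refine Finset.sum_congr rfl fun k hk => ?_
  have h2 : (nr (fk f k) : ℂ) ≠ 0 := by exact_mod_cast (nr_pos (fk_ne hf (sqa_ne hN hk))).ne'
  have h3 : ((N : ℂ) / (nr (fk f k) : ℂ)) ^ (i + 1) = ((N : ℂ) / (nr (fk f k) : ℂ)) ^ i * ((N : ℂ) / (nr (fk f k) : ℂ)) := pow_succ _ _
  unfold dw
  push_cast
  rw [h3]
  field_simp

theorem LS_cont_r (f : Fr) (h : ℝ × ℝ → ℝ) (w : ℝ × ℝ → ℂ) (i N : ℕ) (c : ℝ × ℝ) : Continuous fun r => LS f h w i N r c := by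
  unfold LS ee
  fun_prop

private lemma young_lb {x y : ℝ} (hx : 0 ≤ x) (hy : 0 ≤ y) : 12 * x ^ 11 * y ≤ 11 * x ^ 12 + y ^ 12 := by
  rcases hx.eq_or_lt with rfl | hx0
  · have := pow_nonneg hy 12
    simpa using this
  · have h1 : (-2 : ℝ) ≤ y / x - 1 := by
      have := div_nonneg hy hx
      linarith
    have h2 := one_add_mul_le_pow h1 12
    have h3 : 1 + (y / x - 1) = y / x := by ring
    rw [h3, div_pow] at h2
    have hp : 0 < x ^ 12 := by positivity
    have h4 := mul_le_mul_of_nonneg_left h2 hp.le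
    have h5 : x ^ 12 * (y ^ 12 / x ^ 12) = y ^ 12 := by field_simp
    have h6 : x ^ 12 * (1 + ((12 : ℕ) : ℝ) * (y / x - 1)) = 12 * x ^ 11 * y - 11 * x ^ 12 := by
      push_cast
      field_simp
      ring
    rw [h5, h6] at h4
    linarith

private lemma sob_lb {h h' g : ℝ → ℝ} (hd : ∀ r, HasDerivAt h (h' r) r) (hc : Continuous h')
    (hgc : Continuous g) (hb : ∀ r, |h' r| ≤ g r) (h0 : ∀ r, 0 ≤ h r) {a b : ℝ} (hab : a + 1 ≤ b) {R : ℝ}
    (hR : R ∈ Icc a b) :
    h R ≤ (∫ r in Icc a b, h r) + ∫ r in Icc a b, g r := by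
  have hhc : Continuous h := continuous_iff_continuousAt.2 fun r => (hd r).continuousAt
  have hig : IntegrableOn g (Icc a b) := hgc.continuousOn.integrableOn_Icc
  have hih : IntegrableOn h (Icc a b) := hhc.continuousOn.integrableOn_Icc
  have hg0 : ∀ r, 0 ≤ g r := fun r => (abs_nonneg _).trans (hb r)
  set I : ℝ := ∫ r in Icc a b, g r with hI
  have key : ∀ r ∈ Icc a b, h R - I ≤ h r := by
    intro r hr
    have e1 : ∫ s in r..R, h' s = h R - h r :=
      intervalIntegral.integral_eq_sub_of_hasDerivAt (fun s _ => hd s) (hc.intervalIntegrable _ _)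
    have e2 : ‖∫ s in r..R, h' s‖ ≤ ∫ s in uIoc r R, ‖h' s‖ :=
      intervalIntegral.norm_integral_le_integral_norm_uIoc
    have hsub : uIoc r R ⊆ Icc a b := by
      intro s hs
      rw [uIoc, mem_Ioc] at hs
      exact ⟨(le_min hr.1 hR.1).trans hs.1.le, hs.2.trans (max_le hr.2 hR.2)⟩
    have e3 : ∫ s in uIoc r R, ‖h' s‖ ≤ I := by
      calc ∫ s in uIoc r R, ‖h' s‖ ≤ ∫ s in uIoc r R, g s := by
            apply setIntegral_mono_on
            · exact (hc.norm.continuousOn.integrableOn_Icc (a := a) (b := b)).mono_set hsub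
            · exact hig.mono_set hsub
            · exact measurableSet_uIoc
            · intro s _
              exact hb s
        _ ≤ I := setIntegral_mono_set hig (Filter.Eventually.of_forall hg0)
            (Filter.Eventually.of_forall hsub)
    rw [e1, Real.norm_eq_abs] at e2
    have := le_abs_self (h R - h r)
    linarith
  have hvol : volume.real (Icc a b) = b - a := by
    rw [Real.volume_real_Icc]
    rw [max_eq_left (by linarith)]
  have h1 : ∫ r in Icc a b, (h R - I) ≤ ∫ r in Icc a b, h r := by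
    apply setIntegral_mono_on _ hih measurableSet_Icc key
    exact integrableOn_const (by simp)
  rw [setIntegral_const, hvol, smul_eq_mul] at h1
  by_cases hneg : h R - I ≤ 0
  · have : 0 ≤ ∫ r in Icc a b, h r := integral_nonneg fun r => h0 r
    linarith
  · push Not at hneg
    nlinarith

/-- the supremum over the radius -/
theorem sup_r {f : Fr} (hf : fdet f ≠ 0) (h : ℝ × ℝ → ℝ) (w : ℝ × ℝ → ℂ) (i : ℕ) {N : ℕ} (hN : 1 ≤ N) (c : ℝ × ℝ) {a b : ℝ} (hab : a + 1 ≤ b)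
    {R : ℝ} (hR : R ∈ Icc a b) :
    ‖LS f h w (i + 1) N R c‖ ^ 12 ≤ 12 * (2 * π * N) * ∫ r in Icc a b, (‖LS f h w (i + 1) N r c‖ ^ 12 + ‖LS f h (dw h w) i N r c‖ ^ 12) := by
  have hπ := Real.pi_pos
  have hNr : (1 : ℝ) ≤ N := by exact_mod_cast hN
  set W : ℝ := 2 * π * N with hW
  have hW1 : 1 ≤ W := by
    rw [hW]
    have h3 := Real.pi_gt_three
    nlinarith
  have hW0 : 0 < W := by linarith
  set F : ℝ → ℂ := fun r => LS f h w (i + 1) N r c with hF
  set g : ℝ → ℂ := fun r => LS f h (dw h w) i N r c with hg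
  have hfd : ∀ r, HasDerivAt F ((W : ℂ) * Complex.I * g r) r := fun r => LS_deriv hf h w i hN c r
  have hfc : Continuous F := LS_cont_r _ _ _ _ _ _
  have hgc : Continuous g := LS_cont_r _ _ _ _ _ _
  have hnf : ∀ r, ‖(W : ℂ) * Complex.I * g r‖ = W * ‖g r‖ := by
    intro r
    rw [norm_mul, norm_mul, Complex.norm_I, mul_one, Complex.norm_real, Real.norm_eq_abs, abs_of_pos hW0]
  have hd : ∀ r, HasDerivAt (fun r => ‖F r‖ ^ 12) ((6 : ℝ) * (‖F r‖ ^ 2) ^ 5 * (2 * inner ℝ (F r) ((W : ℂ) * Complex.I * g r))) r := by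
    intro r
    have h1 := ((hfd r).norm_sq).pow 6
    have h2 : (fun r => ‖F r‖ ^ 12) = fun r => (‖F r‖ ^ 2) ^ 6 := by
      funext r
      rw [← pow_mul]
    rw [h2]
    exact_mod_cast h1
  have hcont : Continuous fun r => (6 : ℝ) * (‖F r‖ ^ 2) ^ 5 * (2 * inner ℝ (F r) ((W : ℂ) * Complex.I * g r)) := by
    have h1 : Continuous fun r => inner ℝ (F r) ((W : ℂ) * Complex.I * g r) :=
      hfc.inner (continuous_const.mul hgc)
    exact (continuous_const.mul ((hfc.norm.pow 2).pow _)).mul (continuous_const.mul h1)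
  have hbd : ∀ r, |(6 : ℝ) * (‖F r‖ ^ 2) ^ 5 * (2 * inner ℝ (F r) ((W : ℂ) * Complex.I * g r))| ≤
      W * (11 * ‖F r‖ ^ 12 + ‖g r‖ ^ 12) := by
    intro r
    have h1 : |inner ℝ (F r) ((W : ℂ) * Complex.I * g r)| ≤ ‖F r‖ * (W * ‖g r‖) := by
      have := abs_real_inner_le_norm (F r) ((W : ℂ) * Complex.I * g r)
      rwa [hnf] at this
    rw [abs_mul, abs_mul, abs_mul, abs_of_pos (by norm_num : (0 : ℝ) < 6), abs_of_nonneg (by positivity : (0 : ℝ) ≤ (‖F r‖ ^ 2) ^ 5),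
      abs_of_pos (by norm_num : (0 : ℝ) < 2)]
    have h3 : (6 : ℝ) * (‖F r‖ ^ 2) ^ 5 * (2 * |inner ℝ (F r) ((W : ℂ) * Complex.I * g r)|) ≤
        6 * (‖F r‖ ^ 2) ^ 5 * (2 * (‖F r‖ * (W * ‖g r‖))) := by
      apply mul_le_mul_of_nonneg_left _ (by positivity)
      linarith
    refine h3.trans ?_
    have h4 : 6 * (‖F r‖ ^ 2) ^ 5 * (2 * (‖F r‖ * (W * ‖g r‖))) = W * (12 * ‖F r‖ ^ 11 * ‖g r‖) := by
      ring
    rw [h4]
    exact mul_le_mul_of_nonneg_left (young_lb (norm_nonneg _) (norm_nonneg _)) hW0.le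
  have hgcont : Continuous fun r => W * (11 * ‖F r‖ ^ 12 + ‖g r‖ ^ 12) :=
    continuous_const.mul ((continuous_const.mul (hfc.norm.pow _)).add (hgc.norm.pow _))
  have hmain := sob_lb hd hcont hgcont hbd (fun r => by positivity) hab hR
  have hif : IntegrableOn (fun r => ‖F r‖ ^ 12) (Icc a b) := (hfc.norm.pow _).continuousOn.integrableOn_Icc
  have hig : IntegrableOn (fun r => ‖g r‖ ^ 12) (Icc a b) := (hgc.norm.pow _).continuousOn.integrableOn_Icc
  refine hmain.trans ?_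
  rw [integral_const_mul, integral_add (hif.const_mul _) hig, integral_const_mul, integral_add hif hig]
  set A : ℝ := ∫ r in Icc a b, ‖F r‖ ^ 12 with hA
  set D : ℝ := ∫ r in Icc a b, ‖g r‖ ^ 12 with hD
  have hA0 : 0 ≤ A := integral_nonneg fun r => by positivity
  have hD0 : 0 ≤ D := integral_nonneg fun r => by positivity
  nlinarith [mul_nonneg hW0.le hA0, mul_nonneg hW0.le hD0]

/-- the sum as a trigonometric polynomial in the centre -/
theorem LS_tp (f : Fr) (h : ℝ × ℝ → ℝ) (w : ℝ × ℝ → ℂ) (i N : ℕ) (r : ℝ) (y c : ℝ × ℝ) :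
    LS f h w i N r (c + y) = tp (sqa N) (fun k => (((N : ℝ) / nr (fk f k) : ℝ) : ℂ) ^ i * w (fk f k) *
      ee (0 * h (fk f k)) * (ee (dt k y) * ee (r * h (fk f k)))) c := by
  unfold LS tp
  refine Finset.sum_congr rfl fun k _ => ?_
  have e1 : r * h (fk f k) + dt k (c + y) = r * h (fk f k) + dt k y + dt k c := by
    unfold dt
    simp only [Prod.fst_add, Prod.snd_add]
    ring
  rw [e1, ee_add, ee_add]
  simp only [zero_mul, ee_zero]
  ring

/-- the twelfth moment over the centres -/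
theorem ls_mom {M B : ℝ} (hM : 1 ≤ M) : ∃ C : ℝ, 0 < C ∧ ∀ f : Fr, Fb M f → ∀ h : ℝ × ℝ → ℝ, HL B h → ∀ w : ℝ × ℝ → ℂ, WL B w →
    ∀ i : ℕ, i ≤ 2 → ∀ N : ℕ, 1 ≤ N → ∀ r : ℝ, ∀ y : ℝ × ℝ, ∫ c in Tq, ‖LS f h w i N r (c + y)‖ ^ 12 ≤ C * MR f h r N := by
  obtain ⟨C, hC, hmul⟩ := ls_mul (M := M) (B := B) hM
  refine ⟨C ^ 12, by positivity, ?_⟩
  intro f hf h hh w hw i hi N hN r y
  have h2 := (hmul f hf h hh w hw i hi N hN 0 (by rw [abs_zero]; positivity)).2 (fun k => ee (dt k y) * ee (r * h (fk f k)))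
  rw [m12_shift] at h2
  simp only [LS_tp]
  exact h2

end Pool.Agent.Helper92.LB
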