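import Pool.Agent.Helper92.LB.Av
import Pool.Agent.Helper92.LB.Q

/-!
# LB-V: the moment over the centres of the averages, Borel-Cantelli in the centre
-/

open MeasureTheory Real Set Filter Topology

set_option autoImplicit false

namespace Pool.Agent.Helper92.LB

open Pool.Agent.Helper22.AE
open Pool.Agent.Helper22.AC (ga)
open Pool.Agent.Helper22.OV (o3_rho_cont)
open Pool.Agent.Helper92.GC
open Pool.Agent.Helper92.DT
open Pool.Agent.Helper92.LA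
open Pool.Agent.Helper22.LP (Fr fv fk fdet nr tr hom LS wr)

/-- the sums of a block and their derivatives in the radius -/
noncomputable def E4 (f : Fr) (H : ℝ → ℝ) (N : ℕ) (α r : ℝ) (c : ℝ × ℝ) : ℝ :=
  (‖LS f (hom (ga H α)) (wr H α) 1 N r c‖ ^ 12 + ‖LS f (hom (ga H α)) (dw (hom (ga H α)) (wr H α)) 0 N r c‖ ^ 12) +
    (‖LS f (hom (ga H α)) (fun _ => 1) 2 N r c‖ ^ 12 + ‖LS f (hom (ga H α)) (dw (hom (ga H α)) (fun _ => 1)) 1 N r c‖ ^ 12)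

theorem E4_nonneg (f : Fr) (H : ℝ → ℝ) (N : ℕ) (α r : ℝ) (c : ℝ × ℝ) : 0 ≤ E4 f H N α r c := by
  unfold E4
  positivity

theorem LS_cont {h : ℝ → ℝ × ℝ → ℝ} {w : ℝ → ℝ × ℝ → ℂ} (hh : ∀ v, Continuous fun α => h α v) (hw : ∀ v, Continuous fun α => w α v)
    (f : Fr) (i N : ℕ) : Continuous fun q : ℝ × (ℝ × (ℝ × ℝ)) => LS f (h q.1) (w q.1) i N q.2.1 q.2.2 := by
  unfold LS
  refine continuous_finsetSum _ fun k _ => ?_
  have h1 : Continuous fun q : ℝ × (ℝ × (ℝ × ℝ)) => h q.1 (fk f k) := (hh (fk f k)).comp continuous_fst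
  have h2 : Continuous fun q : ℝ × (ℝ × (ℝ × ℝ)) => w q.1 (fk f k) := (hw (fk f k)).comp continuous_fst
  refine (continuous_const.mul h2).mul (ee_cont.comp ?_)
  refine ((continuous_fst.comp continuous_snd).mul h1).add ?_
  unfold dt
  fun_prop

section

variable {H : ℝ → ℝ} (hH : IsSupp H) (hjc : Continuous fun q : ℝ × (ℝ × ℝ) => hom (ga H q.1) q.2)

include hjc in
theorem hc_v (v : ℝ × ℝ) : Continuous fun α => hom (ga H α) v := hjc.comp (continuous_id.prodMk continuous_const)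

include hH in
theorem wr_v (v : ℝ × ℝ) : Continuous fun α => wr H α v := by
  unfold wr
  exact Complex.continuous_ofReal.comp ((o3_rho_cont hH.smooth).comp (by fun_prop))

include hjc in
theorem dw_v {w : ℝ → ℝ × ℝ → ℂ} (hw : ∀ v, Continuous fun α => w α v) (v : ℝ × ℝ) : Continuous fun α => dw (hom (ga H α)) (w α) v := by
  unfold dw
  exact (hw v).mul (Complex.continuous_ofReal.comp ((hc_v hjc v).div_const _))

include hH hjc in
theorem E4_cont (f : Fr) (N : ℕ) : Continuous fun q : ℝ × (ℝ × (ℝ × ℝ)) => E4 f H N q.1 q.2.1 q.2.2 := by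
  unfold E4
  have h1 := LS_cont (hc_v hjc) (wr_v hH) f 1 N
  have h2 := LS_cont (hc_v hjc) (dw_v hjc (wr_v hH)) f 0 N
  have h3 := LS_cont (hc_v hjc) (w := fun _ _ => 1) (fun _ => continuous_const) f 2 N
  have h4 := LS_cont (hc_v hjc) (dw_v hjc (w := fun _ _ => 1) (fun _ => continuous_const)) f 1 N
  exact ((h1.norm.pow 12).add (h2.norm.pow 12)).add ((h3.norm.pow 12).add (h4.norm.pow 12))

end

/-- the average over the translations, over `α` and over the radius -/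
noncomputable def Zg (e4 : ℝ → ℝ → ℝ × ℝ → ℝ) (φ : ℝ × ℝ → ℝ) (κ : ℝ → ℝ) (α₀ δ X : ℝ) (c : ℝ × ℝ) : ℝ :=
  av φ κ α₀ (fun s => ∫ r in Icc (X / 2) (4 * X), e4 s.2 r (c.1 + δ * s.1.1, c.2 + δ * s.1.2))

theorem Zg_nonneg {e4 : ℝ → ℝ → ℝ × ℝ → ℝ} (h0 : ∀ α r c, 0 ≤ e4 α r c) {φ : ℝ × ℝ → ℝ} {κ : ℝ → ℝ} (hφ : IsBump φ) (hκ0 : ∀ α, 0 ≤ κ α)
    {α₀ δ X : ℝ} (c : ℝ × ℝ) : 0 ≤ Zg e4 φ κ α₀ δ X c :=
  av_nonneg hφ hκ0 fun _ => integral_nonneg fun _ => h0 _ _ _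

section

variable {e4 : ℝ → ℝ → ℝ × ℝ → ℝ} (hc : Continuous fun q : ℝ × (ℝ × (ℝ × ℝ)) => e4 q.1 q.2.1 q.2.2)
include hc

theorem in_cont (δ X : ℝ) : Continuous fun q : ((ℝ × ℝ) × ℝ) × (ℝ × ℝ) =>
    ∫ r in Icc (X / 2) (4 * X), e4 q.1.2 r (q.2.1 + δ * q.1.1.1, q.2.2 + δ * q.1.1.2) := by
  refine continuous_parametric_integral_of_continuous
    (f := fun (q : ((ℝ × ℝ) × ℝ) × (ℝ × ℝ)) (r : ℝ) => e4 q.1.2 r (q.2.1 + δ * q.1.1.1, q.2.2 + δ * q.1.1.2)) ?_ isCompact_Icc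
  have h1 : Continuous fun q : (((ℝ × ℝ) × ℝ) × (ℝ × ℝ)) × ℝ =>
      (q.1.1.2, (q.2, (q.1.2.1 + δ * q.1.1.1.1, q.1.2.2 + δ * q.1.1.1.2))) := by fun_prop
  exact hc.comp h1

theorem Zg_cont {φ : ℝ × ℝ → ℝ} {κ : ℝ → ℝ} (hφ : IsBump φ) (hκ : Continuous κ) (α₀ δ X : ℝ) :
    Continuous (Zg e4 φ κ α₀ δ X) := by
  unfold Zg av
  refine continuous_parametric_integral_of_continuous (f := fun (c : ℝ × ℝ) (s : (ℝ × ℝ) × ℝ) => φ s.1 * κ s.2 *
    ∫ r in Icc (X / 2) (4 * X), e4 s.2 r (c.1 + δ * s.1.1, c.2 + δ * s.1.2)) ?_ (Sv_compact α₀)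
  refine ((hφ.cont.comp (continuous_fst.comp continuous_snd)).mul (hκ.comp (continuous_snd.comp continuous_snd))).mul ?_
  exact (in_cont hc δ X).comp (continuous_snd.prodMk continuous_fst)

/-- the integral over the centres -/
theorem Zg_int {φ : ℝ × ℝ → ℝ} {κ : ℝ → ℝ} (hφ : IsBump φ) (hκ : Continuous κ) (hκ0 : ∀ α, 0 ≤ κ α) {α₀ δ X : ℝ}
    {m : ℝ → ℝ → ℝ} (hm : Continuous fun q : ℝ × ℝ => m q.1 q.2)
    (hin : ∀ α ∈ Icc (-α₀) α₀, ∀ (r : ℝ) (y : ℝ × ℝ), ∫ c in Tq, e4 α r (c.1 + y.1, c.2 + y.2) ≤ m α r) :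
    ∫ c in Tq, Zg e4 φ κ α₀ δ X c ≤ ∫ α in Icc (-α₀) α₀, κ α * ∫ r in Icc (X / 2) (4 * X), m α r := by
  have hTq : IsCompact Tq := isCompact_Icc.prod isCompact_Icc
  have hF := in_cont hc δ X
  have h1 : ∫ c in Tq, Zg e4 φ κ α₀ δ X c =
      av φ κ α₀ (fun s => ∫ c in Tq, ∫ r in Icc (X / 2) (4 * X), e4 s.2 r (c.1 + δ * s.1.1, c.2 + δ * s.1.2)) :=
    av_swap (F := fun (s : (ℝ × ℝ) × ℝ) (c : ℝ × ℝ) => ∫ r in Icc (X / 2) (4 * X), e4 s.2 r (c.1 + δ * s.1.1, c.2 + δ * s.1.2))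
      hφ hκ hTq hF
  have hJc : Continuous fun α => ∫ r in Icc (X / 2) (4 * X), m α r := continuous_parametric_integral_of_continuous hm isCompact_Icc
  have hc3 : Continuous fun s : (ℝ × ℝ) × ℝ => ∫ c in Tq, ∫ r in Icc (X / 2) (4 * X), e4 s.2 r (c.1 + δ * s.1.1, c.2 + δ * s.1.2) :=
    continuous_parametric_integral_of_continuous
      (f := fun (s : (ℝ × ℝ) × ℝ) (c : ℝ × ℝ) => ∫ r in Icc (X / 2) (4 * X), e4 s.2 r (c.1 + δ * s.1.1, c.2 + δ * s.1.2)) hF hTq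
  rw [h1, ← av_snd hφ hκ hJc]
  refine av_mono hφ hκ hκ0 hc3 (hJc.comp continuous_snd) fun s hs => ?_
  have hc1 : Continuous fun q : (ℝ × ℝ) × ℝ => e4 s.2 q.2 (q.1.1 + δ * s.1.1, q.1.2 + δ * s.1.2) := by
    have h2 : Continuous fun q : (ℝ × ℝ) × ℝ => (s.2, (q.2, (q.1.1 + δ * s.1.1, q.1.2 + δ * s.1.2))) := by fun_prop
    exact hc.comp h2
  have h2 : ∫ c in Tq, ∫ r in Icc (X / 2) (4 * X), e4 s.2 r (c.1 + δ * s.1.1, c.2 + δ * s.1.2) =
      ∫ r in Icc (X / 2) (4 * X), ∫ c in Tq, e4 s.2 r (c.1 + δ * s.1.1, c.2 + δ * s.1.2) := by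
    refine integral_integral_swap ?_
    rw [Measure.prod_restrict]
    exact hc1.continuousOn.integrableOn_compact (hTq.prod isCompact_Icc)
  have hc2 : Continuous fun r => ∫ c in Tq, e4 s.2 r (c.1 + δ * s.1.1, c.2 + δ * s.1.2) := by
    refine continuous_parametric_integral_of_continuous
      (f := fun (r : ℝ) (c : ℝ × ℝ) => e4 s.2 r (c.1 + δ * s.1.1, c.2 + δ * s.1.2)) ?_ hTq
    exact hc1.comp (continuous_snd.prodMk continuous_fst)
  rw [h2]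
  refine setIntegral_mono_on ?_ ?_ measurableSet_Icc fun r _ => hin s.2 hs r (δ * s.1.1, δ * s.1.2)
  · exact hc2.continuousOn.integrableOn_compact isCompact_Icc
  · have h3 : Continuous fun r => m s.2 r := hm.comp (continuous_const.prodMk continuous_id)
    exact h3.continuousOn.integrableOn_compact isCompact_Icc

end

private lemma int4_v {g1 g2 g3 g4 : ℝ × ℝ → ℝ} (h1 : IntegrableOn g1 Tq) (h2 : IntegrableOn g2 Tq) (h3 : IntegrableOn g3 Tq) (h4 : IntegrableOn g4 Tq) :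
    ∫ c in Tq, ((g1 c + g2 c) + (g3 c + g4 c)) = ((∫ c in Tq, g1 c) + ∫ c in Tq, g2 c) + ((∫ c in Tq, g3 c) + ∫ c in Tq, g4 c) := by
  have i1 : IntegrableOn (fun c => g1 c + g2 c) Tq := h1.add h2
  have i2 : IntegrableOn (fun c => g3 c + g4 c) Tq := h3.add h4
  rw [integral_add i1 i2, integral_add h1 h2, integral_add h3 h4]

/-- the moment over the centres of `E4` -/
theorem E4_mom {H : ℝ → ℝ} {M B : ℝ} (hM : 1 ≤ M) (hB : 1 ≤ B) : ∃ C : ℝ, 0 < C ∧ ∀ f : Fr, Fb M f → ∀ α : ℝ,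
    (HL B (hom (ga H α)) ∧ WL B (wr H α) ∧ WL B (fun _ => 1)) → ∀ N : ℕ, 1 ≤ N → ∀ (r : ℝ) (y : ℝ × ℝ),
      ∫ c in Tq, E4 f H N α r (c.1 + y.1, c.2 + y.2) ≤ C * MR f (hom (ga H α)) r N := by
  have hBB : B ≤ 5 * B ^ 2 := by nlinarith
  obtain ⟨C, hC, hmom⟩ := ls_mom (M := M) (B := 5 * B ^ 2) hM
  refine ⟨4 * C, by positivity, ?_⟩
  rintro f hf α ⟨hHL, hW1, hW2⟩ N hN r y
  have hTq : IsCompact Tq := isCompact_Icc.prod isCompact_Icc
  have hHL' : HL (5 * B ^ 2) (hom (ga H α)) := HL_mono hBB hHL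
  have hLc : ∀ (w : ℝ × ℝ → ℂ) (i : ℕ), Continuous fun c : ℝ × ℝ => ‖LS f (hom (ga H α)) w i N r (c + y)‖ ^ 12 := by
    intro w i
    simp only [LS_tp]
    exact (tp_cont _ _).norm.pow 12
  have hLi : ∀ (w : ℝ × ℝ → ℂ) (i : ℕ), IntegrableOn (fun c : ℝ × ℝ => ‖LS f (hom (ga H α)) w i N r (c + y)‖ ^ 12) Tq := fun w i =>
    (hLc w i).continuousOn.integrableOn_compact hTq
  have m1 := hmom f hf _ hHL' (wr H α) (WL_mono hBB hW1) 1 (by norm_num) N hN r y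
  have m2 := hmom f hf _ hHL' _ (dw_WL hHL hW1) 0 (by norm_num) N hN r y
  have m3 := hmom f hf _ hHL' (fun _ => 1) (WL_mono hBB hW2) 2 (by norm_num) N hN r y
  have m4 := hmom f hf _ hHL' _ (dw_WL hHL hW2) 1 (by norm_num) N hN r y
  have e1 : ∫ c in Tq, E4 f H N α r (c.1 + y.1, c.2 + y.2) =
      ((∫ c in Tq, ‖LS f (hom (ga H α)) (wr H α) 1 N r (c + y)‖ ^ 12) +
        ∫ c in Tq, ‖LS f (hom (ga H α)) (dw (hom (ga H α)) (wr H α)) 0 N r (c + y)‖ ^ 12) +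
      ((∫ c in Tq, ‖LS f (hom (ga H α)) (fun _ => 1) 2 N r (c + y)‖ ^ 12) +
        ∫ c in Tq, ‖LS f (hom (ga H α)) (dw (hom (ga H α)) (fun _ => 1)) 1 N r (c + y)‖ ^ 12) :=
    int4_v (hLi _ _) (hLi _ _) (hLi _ _) (hLi _ _)
  rw [e1]
  linarith

private theorem geo_v {r : ℝ} (hr : 0 ≤ r) (hr1 : r < 1) (A : ℝ) : ∑' p : ℕ, ENNReal.ofReal (((p : ℝ) + 1) * (A * r ^ p)) < ⊤ := by
  have h1 : ‖r‖ < 1 := by rwa [norm_of_nonneg hr]
  have h2 := summable_pow_mul_geometric_of_norm_lt_one 1 h1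
  have h3 := summable_pow_mul_geometric_of_norm_lt_one 0 h1
  have h4 : Summable fun p : ℕ => ((p : ℝ) + 1) * (A * r ^ p) := by
    refine ((h2.add h3).mul_left A).congr fun p => ?_
    ring
  exact h4.tsum_ofReal_lt_top

/-- Borel-Cantelli in the centre, abstract form -/
theorem bc_c {Z : ℕ → ℕ → ℝ × ℝ → ℝ} (hZ : ∀ p n, Continuous (Z p n)) (hZ0 : ∀ p n c, 0 ≤ Z p n c)
    {D : ℕ → ℕ → ℝ} (hD0 : ∀ p n, 0 < D p n) {A r : ℝ} (hr : 0 ≤ r) (hr1 : r < 1)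
    (hb : ∀ p n, n ≤ p → ∫ c in Tq, Z p n c ≤ A * r ^ p * D p n) :
    ∀ᵐ c ∂((volume : Measure (ℝ × ℝ)).restrict Tq), ∃ C : ℝ, 0 ≤ C ∧ ∀ p n : ℕ, n ≤ p → Z p n c ≤ C * D p n := by
  have hTq : IsCompact Tq := isCompact_Icc.prod isCompact_Icc
  have hZi : ∀ p n, IntegrableOn (Z p n) Tq := fun p n => (hZ p n).continuousOn.integrableOn_compact hTq
  obtain ⟨Φ, hΦ⟩ : ∃ Φ : ℝ × ℝ → ENNReal, Φ = fun c => ∑' p : ℕ, ∑ n ∈ Finset.range (p + 1), ENNReal.ofReal (Z p n c / D p n) := ⟨_, rfl⟩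
  have hmeas : ∀ p n, Measurable fun c => ENNReal.ofReal (Z p n c / D p n) := fun p n =>
    ((hZ p n).div_const _).measurable.ennreal_ofReal
  have hΦm : Measurable Φ := by
    rw [hΦ]
    exact Measurable.tsum fun p => Finset.measurable_sum _ fun n _ => hmeas p n
  have hΦi : ∫⁻ c in Tq, Φ c ≠ ⊤ := by
    rw [hΦ, lintegral_tsum (fun p => (Finset.measurable_sum _ fun n _ => hmeas p n).aemeasurable)]
    refine ne_of_lt (lt_of_le_of_lt (ENNReal.tsum_le_tsum fun p => ?_) (geo_v hr hr1 A))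
    rw [lintegral_finsetSum _ fun n _ => hmeas p n]
    calc ∑ n ∈ Finset.range (p + 1), ∫⁻ c in Tq, ENNReal.ofReal (Z p n c / D p n)
        ≤ ∑ _n ∈ Finset.range (p + 1), ENNReal.ofReal (A * r ^ p) := by
          refine Finset.sum_le_sum fun n hn => ?_
          rw [← ofReal_integral_eq_lintegral_ofReal ((hZi p n).div_const _)
            (Eventually.of_forall fun c => div_nonneg (hZ0 p n c) (hD0 p n).le)]
          refine ENNReal.ofReal_le_ofReal ?_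
          rw [integral_div, div_le_iff₀ (hD0 p n)]
          exact hb p n (Nat.lt_succ_iff.1 (Finset.mem_range.1 hn))
      _ = ENNReal.ofReal (((p : ℝ) + 1) * (A * r ^ p)) := by
          rw [Finset.sum_const, Finset.card_range, nsmul_eq_mul, ENNReal.ofReal_mul (show (0 : ℝ) ≤ (p : ℝ) + 1 by positivity),
            ← Nat.cast_succ, ENNReal.ofReal_natCast]
  have h6 := ae_lt_top hΦm hΦi
  filter_upwards [h6] with c hc
  refine ⟨(Φ c).toReal, ENNReal.toReal_nonneg, fun p n hn => ?_⟩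
  have h7 : ENNReal.ofReal (Z p n c / D p n) ≤ Φ c := by
    rw [hΦ]
    refine le_trans ?_ (ENNReal.le_tsum p)
    exact Finset.single_le_sum (f := fun n => ENNReal.ofReal (Z p n c / D p n)) (fun _ _ => bot_le)
      (Finset.mem_range.2 (Nat.lt_succ_iff.2 hn))
  have h8 : Z p n c / D p n ≤ (Φ c).toReal := by
    rw [← ENNReal.ofReal_le_iff_le_toReal hc.ne]
    exact h7
  rwa [div_le_iff₀ (hD0 p n)] at h8

end Pool.Agent.Helper92.LB
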