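import Pool.Agent.Helper92.LB.V

/-!
# LB-W: the average of a block, for one centre: supremum over the radius and twelfth mean
-/

open MeasureTheory Real Set Filter Topology

set_option autoImplicit false

namespace Pool.Agent.Helper92.LB

open Pool.Agent.Helper22.AE

private lemma g12_w {a b c d : ℝ} (ha : 0 ≤ a) (hb : 0 ≤ b) (hc : 0 ≤ c) (hd : 0 ≤ d) :
    ((a + b) + (c + d)) ^ 12 ≤ 4 ^ 11 * ((a ^ 12 + b ^ 12) + (c ^ 12 + d ^ 12)) := by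
  have h1 := add_pow_le (a := a + b) (b := c + d) (by positivity) (by positivity) 12
  have h2 := add_pow_le ha hb 12
  have h3 := add_pow_le hc hd 12
  have e : (2 : ℝ) ^ (12 - 1) = 2 ^ 11 := by norm_num
  rw [e] at h1 h2 h3
  have e2 : (4 : ℝ) ^ 11 = 2 ^ 11 * 2 ^ 11 := by norm_num
  rw [e2]
  have h4 : (2 : ℝ) ^ 11 * ((a + b) ^ 12 + (c + d) ^ 12) ≤ 2 ^ 11 * (2 ^ 11 * (a ^ 12 + b ^ 12) + 2 ^ 11 * (c ^ 12 + d ^ 12)) :=
    mul_le_mul_of_nonneg_left (add_le_add h2 h3) (by positivity)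
  calc _ ≤ _ := h1
    _ ≤ _ := h4
    _ = _ := by ring

/-- the average of a block -/
noncomputable def Bf (L1 L2 : ℝ → ℝ → ℝ × ℝ → ℝ) (φ : ℝ × ℝ → ℝ) (κ : ℝ → ℝ) (α₀ δ d : ℝ) (c : ℝ × ℝ) (R : ℝ) : ℝ :=
  av φ κ α₀ (fun s => (L1 s.2 (R + d) (c.1 + δ * s.1.1, c.2 + δ * s.1.2) + L1 s.2 (R - d) (c.1 + δ * s.1.1, c.2 + δ * s.1.2)) +
    (L2 s.2 (R + d) (c.1 + δ * s.1.1, c.2 + δ * s.1.2) + L2 s.2 (R - d) (c.1 + δ * s.1.1, c.2 + δ * s.1.2)))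

section

variable {L1 L2 e4 : ℝ → ℝ → ℝ × ℝ → ℝ} (hL1 : Continuous fun q : ℝ × (ℝ × (ℝ × ℝ)) => L1 q.1 q.2.1 q.2.2)
  (hL2 : Continuous fun q : ℝ × (ℝ × (ℝ × ℝ)) => L2 q.1 q.2.1 q.2.2)
  (h10 : ∀ α r c, 0 ≤ L1 α r c) (h20 : ∀ α r c, 0 ≤ L2 α r c)
  {φ : ℝ × ℝ → ℝ} {κ : ℝ → ℝ} (hφ : IsBump φ) (hκ : Continuous κ) (hκ0 : ∀ α, 0 ≤ κ α)

include hL1 in
theorem L_cont (c : ℝ × ℝ) (δ t : ℝ) : Continuous fun q : ((ℝ × ℝ) × ℝ) × ℝ => L1 q.1.2 (q.2 + t) (c.1 + δ * q.1.1.1, c.2 + δ * q.1.1.2) := by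
  have h1 : Continuous fun q : ((ℝ × ℝ) × ℝ) × ℝ => (q.1.2, (q.2 + t, (c.1 + δ * q.1.1.1, c.2 + δ * q.1.1.2))) := by fun_prop
  exact hL1.comp h1

include hL1 hL2 in
theorem G_cont (c : ℝ × ℝ) (δ d : ℝ) : Continuous fun q : ((ℝ × ℝ) × ℝ) × ℝ =>
    (L1 q.1.2 (q.2 + d) (c.1 + δ * q.1.1.1, c.2 + δ * q.1.1.2) + L1 q.1.2 (q.2 - d) (c.1 + δ * q.1.1.1, c.2 + δ * q.1.1.2)) +
      (L2 q.1.2 (q.2 + d) (c.1 + δ * q.1.1.1, c.2 + δ * q.1.1.2) + L2 q.1.2 (q.2 - d) (c.1 + δ * q.1.1.1, c.2 + δ * q.1.1.2)) := by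
  have h1 := L_cont hL1 c δ d
  have h2 := L_cont hL1 c δ (-d)
  have h3 := L_cont hL2 c δ d
  have h4 := L_cont hL2 c δ (-d)
  simp only [← sub_eq_add_neg] at h2 h4
  exact (h1.add h2).add (h3.add h4)

include h10 h20 hφ hκ0 in
theorem Bf_nonneg (α₀ δ d : ℝ) (c : ℝ × ℝ) (R : ℝ) : 0 ≤ Bf L1 L2 φ κ α₀ δ d c R :=
  av_nonneg hφ hκ0 fun _ => add_nonneg (add_nonneg (h10 _ _ _) (h10 _ _ _)) (add_nonneg (h20 _ _ _) (h20 _ _ _))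

include hL1 hL2 hφ hκ in
theorem Bf_cont (α₀ δ d : ℝ) (c : ℝ × ℝ) : Continuous (Bf L1 L2 φ κ α₀ δ d c) := by
  unfold Bf av
  refine continuous_parametric_integral_of_continuous (f := fun (R : ℝ) (s : (ℝ × ℝ) × ℝ) => φ s.1 * κ s.2 *
    ((L1 s.2 (R + d) (c.1 + δ * s.1.1, c.2 + δ * s.1.2) + L1 s.2 (R - d) (c.1 + δ * s.1.1, c.2 + δ * s.1.2)) +
      (L2 s.2 (R + d) (c.1 + δ * s.1.1, c.2 + δ * s.1.2) + L2 s.2 (R - d) (c.1 + δ * s.1.1, c.2 + δ * s.1.2)))) ?_ (Sv_compact α₀)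
  refine ((hφ.cont.comp (continuous_fst.comp continuous_snd)).mul (hκ.comp (continuous_snd.comp continuous_snd))).mul ?_
  exact (G_cont hL1 hL2 c δ d).comp (continuous_snd.prodMk continuous_fst)

/-- the sum of the twelfth powers -/
noncomputable def P4 (L1 L2 : ℝ → ℝ → ℝ × ℝ → ℝ) (δ d : ℝ) (c : ℝ × ℝ) (s : (ℝ × ℝ) × ℝ) (R : ℝ) : ℝ :=
  (L1 s.2 (R + d) (c.1 + δ * s.1.1, c.2 + δ * s.1.2) ^ 12 + L1 s.2 (R - d) (c.1 + δ * s.1.1, c.2 + δ * s.1.2) ^ 12) +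
    (L2 s.2 (R + d) (c.1 + δ * s.1.1, c.2 + δ * s.1.2) ^ 12 + L2 s.2 (R - d) (c.1 + δ * s.1.1, c.2 + δ * s.1.2) ^ 12)

include hL1 hL2 in
theorem P4_cont (c : ℝ × ℝ) (δ d : ℝ) : Continuous fun q : ((ℝ × ℝ) × ℝ) × ℝ => P4 L1 L2 δ d c q.1 q.2 := by
  unfold P4
  have h1 := L_cont hL1 c δ d
  have h2 := L_cont hL1 c δ (-d)
  have h3 := L_cont hL2 c δ d
  have h4 := L_cont hL2 c δ (-d)
  simp only [← sub_eq_add_neg] at h2 h4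
  exact ((h1.pow 12).add (h2.pow 12)).add ((h3.pow 12).add (h4.pow 12))

include hL1 hL2 h10 h20 hφ hκ hκ0 in
/-- the twelfth power is at most the average of the twelfth powers -/
theorem Bf_jen {α₀ : ℝ} (hκ1 : ∫ α in Icc (-α₀) α₀, κ α ≤ 20) (δ d : ℝ) (c : ℝ × ℝ) (R : ℝ) :
    Bf L1 L2 φ κ α₀ δ d c R ^ 12 ≤ 21 ^ 12 * 4 ^ 11 * av φ κ α₀ (fun s => P4 L1 L2 δ d c s R) := by
  have hG : Continuous fun s : (ℝ × ℝ) × ℝ =>
      (L1 s.2 (R + d) (c.1 + δ * s.1.1, c.2 + δ * s.1.2) + L1 s.2 (R - d) (c.1 + δ * s.1.1, c.2 + δ * s.1.2)) +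
      (L2 s.2 (R + d) (c.1 + δ * s.1.1, c.2 + δ * s.1.2) + L2 s.2 (R - d) (c.1 + δ * s.1.1, c.2 + δ * s.1.2)) :=
    (G_cont hL1 hL2 c δ d).comp (continuous_id.prodMk continuous_const)
  have hsR : Continuous fun s : (ℝ × ℝ) × ℝ => (s, R) := by fun_prop
  have hP : Continuous fun s : (ℝ × ℝ) × ℝ => P4 L1 L2 δ d c s R := by
    have hq := (P4_cont hL1 hL2 c δ d).comp hsR
    exact hq
  have h1 := av_jen hφ hκ hκ0 hκ1 hG (fun _ => add_nonneg (add_nonneg (h10 _ _ _) (h10 _ _ _)) (add_nonneg (h20 _ _ _) (h20 _ _ _)))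
  have h2 := av_mono (α₀ := α₀) (G := fun s =>
      ((L1 s.2 (R + d) (c.1 + δ * s.1.1, c.2 + δ * s.1.2) + L1 s.2 (R - d) (c.1 + δ * s.1.1, c.2 + δ * s.1.2)) +
      (L2 s.2 (R + d) (c.1 + δ * s.1.1, c.2 + δ * s.1.2) + L2 s.2 (R - d) (c.1 + δ * s.1.1, c.2 + δ * s.1.2))) ^ 12)
    (G' := fun s => 4 ^ 11 * P4 L1 L2 δ d c s R) hφ hκ hκ0 (hG.pow 12) (continuous_const.mul hP) (fun s _ => by
    unfold P4
    exact g12_w (h10 _ _ _) (h10 _ _ _) (h20 _ _ _) (h20 _ _ _))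
  rw [av_const_mul] at h2
  unfold Bf
  calc _ ≤ _ := h1
    _ ≤ 21 ^ 12 * (4 ^ 11 * av φ κ α₀ (fun s => P4 L1 L2 δ d c s R)) := mul_le_mul_of_nonneg_left h2 (by positivity)
    _ = _ := by ring

variable (he : Continuous fun q : ℝ × (ℝ × (ℝ × ℝ)) => e4 q.1 q.2.1 q.2.2) (he0 : ∀ α r c, 0 ≤ e4 α r c)
  (hle : ∀ α r c, L1 α r c ^ 12 ≤ e4 α r c ∧ L2 α r c ^ 12 ≤ e4 α r c)

include hL1 hL2 h10 h20 hφ hκ hκ0 he in
/-- the supremum over the radius -/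
theorem Bf_sup {α₀ : ℝ} (hκ1 : ∫ α in Icc (-α₀) α₀, κ α ≤ 20) {δ d X S : ℝ} (hX : 4 ≤ X) (hd0 : 0 ≤ d) (hd : d ≤ 1)
    (hS : ∀ α ∈ Icc (-α₀) α₀, ∀ r ∈ Icc (X / 2) (4 * X), ∀ c : ℝ × ℝ, L1 α r c ^ 12 ≤ S * ∫ t in Icc (X / 2) (4 * X), e4 α t c)
    (hS2 : ∀ α ∈ Icc (-α₀) α₀, ∀ r ∈ Icc (X / 2) (4 * X), ∀ c : ℝ × ℝ, L2 α r c ^ 12 ≤ S * ∫ t in Icc (X / 2) (4 * X), e4 α t c)
    (c : ℝ × ℝ) {R : ℝ} (hR : R ∈ Icc X (2 * X)) :
    Bf L1 L2 φ κ α₀ δ d c R ^ 12 ≤ 21 ^ 12 * 4 ^ 12 * S * Zg e4 φ κ α₀ δ X c := by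
  have hsR : Continuous fun s : (ℝ × ℝ) × ℝ => (s, R) := by fun_prop
  have hP : Continuous fun s : (ℝ × ℝ) × ℝ => P4 L1 L2 δ d c s R := by
    have hq := (P4_cont hL1 hL2 c δ d).comp hsR
    exact hq
  have hIc : Continuous fun s : (ℝ × ℝ) × ℝ => ∫ r in Icc (X / 2) (4 * X), e4 s.2 r (c.1 + δ * s.1.1, c.2 + δ * s.1.2) :=
    (in_cont he δ X).comp (continuous_id.prodMk continuous_const)
  have r1 : R + d ∈ Icc (X / 2) (4 * X) := ⟨by linarith [hR.1], by linarith [hR.2]⟩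
  have r2 : R - d ∈ Icc (X / 2) (4 * X) := ⟨by linarith [hR.1], by linarith [hR.2]⟩
  have h2 : av φ κ α₀ (fun s => P4 L1 L2 δ d c s R) ≤ 4 * S * Zg e4 φ κ α₀ δ X c := by
    unfold Zg
    rw [← av_const_mul]
    refine av_mono hφ hκ hκ0 hP (continuous_const.mul hIc) fun s hs => ?_
    have a1 := hS s.2 hs _ r1 (c.1 + δ * s.1.1, c.2 + δ * s.1.2)
    have a2 := hS s.2 hs _ r2 (c.1 + δ * s.1.1, c.2 + δ * s.1.2)
    have a3 := hS2 s.2 hs _ r1 (c.1 + δ * s.1.1, c.2 + δ * s.1.2)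
    have a4 := hS2 s.2 hs _ r2 (c.1 + δ * s.1.1, c.2 + δ * s.1.2)
    unfold P4
    linarith
  have h1 := Bf_jen hL1 hL2 h10 h20 hφ hκ hκ0 hκ1 δ d c R
  calc _ ≤ _ := h1
    _ ≤ 21 ^ 12 * 4 ^ 11 * (4 * S * Zg e4 φ κ α₀ δ X c) := mul_le_mul_of_nonneg_left h2 (by positivity)
    _ = _ := by ring

include hL1 h10 he in
/-- a translate of the interval -/
theorem one_w (hle1 : ∀ α r c, L1 α r c ^ 12 ≤ e4 α r c) {X : ℝ} (hX : 4 ≤ X) (α : ℝ) (y : ℝ × ℝ) {t : ℝ} (ht : |t| ≤ 1) :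
    IntegrableOn (fun R => L1 α (R + t) y ^ 12) (Icc X (2 * X)) ∧
      ∫ R in Icc X (2 * X), L1 α (R + t) y ^ 12 ≤ ∫ r in Icc (X / 2) (4 * X), e4 α r y := by
  obtain ⟨t1, t2⟩ := abs_le.1 ht
  have hec : Continuous fun r => e4 α r y := he.comp (continuous_const.prodMk (continuous_id.prodMk continuous_const))
  have hLc : Continuous fun r => L1 α r y ^ 12 := (hL1.comp (continuous_const.prodMk (continuous_id.prodMk continuous_const))).pow 12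
  refine ⟨(hLc.comp (continuous_id.add continuous_const)).continuousOn.integrableOn_compact isCompact_Icc, ?_⟩
  have e1 : ∫ R in Icc X (2 * X), L1 α (R + t) y ^ 12 = ∫ r in Icc (X + t) (2 * X + t), L1 α r y ^ 12 := by
    rw [integral_Icc_eq_integral_Ioc, ← intervalIntegral.integral_of_le (by linarith),
      intervalIntegral.integral_comp_add_right (fun r => L1 α r y ^ 12),
      intervalIntegral.integral_of_le (by linarith), ← integral_Icc_eq_integral_Ioc]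
  rw [e1]
  calc ∫ r in Icc (X + t) (2 * X + t), L1 α r y ^ 12 ≤ ∫ r in Icc (X / 2) (4 * X), L1 α r y ^ 12 := by
        refine setIntegral_mono_set ?_ (Eventually.of_forall fun r => pow_nonneg (h10 _ _ _) 12) (Eventually.of_forall ?_)
        · exact hLc.continuousOn.integrableOn_compact isCompact_Icc
        · intro r hr
          exact ⟨by linarith [hr.1], by linarith [hr.2]⟩
    _ ≤ ∫ r in Icc (X / 2) (4 * X), e4 α r y := by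
        refine setIntegral_mono_on ?_ ?_ measurableSet_Icc fun r _ => hle1 _ _ _
        · exact hLc.continuousOn.integrableOn_compact isCompact_Icc
        · exact hec.continuousOn.integrableOn_compact isCompact_Icc

include hL1 hL2 h10 h20 he hle in
theorem P4_int {X : ℝ} (hX : 4 ≤ X) {d : ℝ} (hd0 : 0 ≤ d) (hd : d ≤ 1) (c : ℝ × ℝ) (δ : ℝ) (s : (ℝ × ℝ) × ℝ) :
    ∫ R in Icc X (2 * X), P4 L1 L2 δ d c s R ≤ 4 * ∫ r in Icc (X / 2) (4 * X), e4 s.2 r (c.1 + δ * s.1.1, c.2 + δ * s.1.2) := by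
  unfold P4
  obtain ⟨y, hy⟩ : ∃ y : ℝ × ℝ, y = (c.1 + δ * s.1.1, c.2 + δ * s.1.2) := ⟨_, rfl⟩
  rw [← hy]
  have hda : |d| ≤ 1 := by rwa [abs_of_nonneg hd0]
  have hdb : |(-d)| ≤ 1 := by rwa [abs_neg]
  obtain ⟨i1, j1⟩ := one_w hL1 h10 he (fun α r c => (hle α r c).1) hX s.2 y hda
  obtain ⟨i2, j2⟩ := one_w hL1 h10 he (fun α r c => (hle α r c).1) hX s.2 y hdb
  obtain ⟨i3, j3⟩ := one_w hL2 h20 he (fun α r c => (hle α r c).2) hX s.2 y hda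
  obtain ⟨i4, j4⟩ := one_w hL2 h20 he (fun α r c => (hle α r c).2) hX s.2 y hdb
  simp only [← sub_eq_add_neg] at i2 j2 i4 j4
  have i12 : IntegrableOn (fun R => L1 s.2 (R + d) y ^ 12 + L1 s.2 (R - d) y ^ 12) (Icc X (2 * X)) := i1.add i2
  have i34 : IntegrableOn (fun R => L2 s.2 (R + d) y ^ 12 + L2 s.2 (R - d) y ^ 12) (Icc X (2 * X)) := i3.add i4
  rw [integral_add i12 i34, integral_add i1 i2, integral_add i3 i4]
  linarith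

include hL1 hL2 h10 h20 hφ hκ hκ0 he hle in
/-- the twelfth mean over the radius -/
theorem Bf_mean {α₀ : ℝ} (hκ1 : ∫ α in Icc (-α₀) α₀, κ α ≤ 20) {δ d X : ℝ} (hX : 4 ≤ X) (hd0 : 0 ≤ d) (hd : d ≤ 1) (c : ℝ × ℝ) :
    ∫ R in Icc X (2 * X), Bf L1 L2 φ κ α₀ δ d c R ^ 12 ≤ 21 ^ 12 * 4 ^ 12 * Zg e4 φ κ α₀ δ X c := by
  have hF := P4_cont hL1 hL2 c δ d
  have hint := P4_int hL1 hL2 h10 h20 he hle hX hd0 hd c δ
  have hJ := Bf_jen (α₀ := α₀) hL1 hL2 h10 h20 hφ hκ hκ0 hκ1 δ d c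
  have hBc := Bf_cont hL1 hL2 hφ hκ α₀ δ d c
  obtain ⟨P, hP⟩ : ∃ P : (ℝ × ℝ) × ℝ → ℝ → ℝ, P = P4 L1 L2 δ d c := ⟨_, rfl⟩
  rw [← hP] at hF hint hJ
  obtain ⟨Bb, hBb⟩ : ∃ Bb : ℝ → ℝ, Bb = Bf L1 L2 φ κ α₀ δ d c := ⟨_, rfl⟩
  rw [← hBb] at hJ hBc ⊢
  have hIc : Continuous fun s : (ℝ × ℝ) × ℝ => ∫ r in Icc (X / 2) (4 * X), e4 s.2 r (c.1 + δ * s.1.1, c.2 + δ * s.1.2) :=
    (in_cont he δ X).comp (continuous_id.prodMk continuous_const)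
  have hsw := av_swap (α₀ := α₀) (ν := (volume : Measure ℝ)) (T := Icc X (2 * X)) (F := P) hφ hκ isCompact_Icc hF
  have hAc : Continuous fun R : ℝ => av φ κ α₀ (fun s => P s R) := by
    unfold av
    refine continuous_parametric_integral_of_continuous (f := fun (R : ℝ) (s : (ℝ × ℝ) × ℝ) => φ s.1 * κ s.2 * P s R) ?_ (Sv_compact α₀)
    refine ((hφ.cont.comp (continuous_fst.comp continuous_snd)).mul (hκ.comp (continuous_snd.comp continuous_snd))).mul ?_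
    exact hF.comp (continuous_snd.prodMk continuous_fst)
  have h1 : ∫ R in Icc X (2 * X), Bb R ^ 12 ≤ ∫ R in Icc X (2 * X), 21 ^ 12 * 4 ^ 11 * av φ κ α₀ (fun s => P s R) := by
    refine setIntegral_mono_on ?_ ?_ measurableSet_Icc fun R _ => hJ R
    · exact (hBc.pow 12).continuousOn.integrableOn_compact isCompact_Icc
    · exact (continuous_const.mul hAc).continuousOn.integrableOn_compact isCompact_Icc
  rw [integral_const_mul, hsw] at h1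
  have hGc : Continuous fun s : (ℝ × ℝ) × ℝ => ∫ R in Icc X (2 * X), P s R := continuous_parametric_integral_of_continuous hF isCompact_Icc
  have h2 : av φ κ α₀ (fun s => ∫ R in Icc X (2 * X), P s R) ≤ 4 * Zg e4 φ κ α₀ δ X c := by
    unfold Zg
    rw [← av_const_mul]
    exact av_mono hφ hκ hκ0 hGc (continuous_const.mul hIc) fun s _ => hint s
  calc _ ≤ _ := h1
    _ ≤ 21 ^ 12 * 4 ^ 11 * (4 * Zg e4 φ κ α₀ δ X c) := mul_le_mul_of_nonneg_left h2 (by positivity)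
    _ = _ := by ring

end

end Pool.Agent.Helper92.LB
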