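import Pool.Agent.Helper92.LA.E6
import Pool.Agent.Helper92.LB.C
import Pool.Agent.Helper92.LB.W

/-!
# LB-X: one frame, one centre, one dyadic interval
-/

open MeasureTheory Real Set Filter Topology

set_option autoImplicit false

namespace Pool.Agent.Helper92.LB

open Pool.Agent.Helper22.AE
open Pool.Agent.Helper22.AC (cntc ga)
open Pool.Agent.Helper22.OV (o3_k0_cont o3_k0_nonneg)
open Pool.Agent.Helper92.GC
open Pool.Agent.Helper92.LA
open Pool.Agent.Helper22.LP (Fr fv fk fdet nr tr hom LS wr Hf nr_eq nr_pos)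

private theorem fb_x {f : Fr} (hf : fdet f ≠ 0) : ∃ M : ℝ, 1 ≤ M ∧ Fb M f := by
  have h0 : 0 < |fdet f| := abs_pos.2 hf
  refine ⟨1 + |f.1.1| + |f.1.2| + |f.2.1| + |f.2.2| + 1 / |fdet f|, ?_, ?_⟩
  · have := abs_nonneg f.1.1
    have := abs_nonneg f.1.2
    have := abs_nonneg f.2.1
    have := abs_nonneg f.2.2
    have : 0 ≤ 1 / |fdet f| := by positivity
    linarith
  · have h1 := abs_nonneg f.1.1
    have h2 := abs_nonneg f.1.2
    have h3 := abs_nonneg f.2.1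
    have h4 := abs_nonneg f.2.2
    have h5 : 0 ≤ 1 / |fdet f| := by positivity
    refine ⟨by linarith, by linarith, by linarith, by linarith, ?_⟩
    have h6 : 1 = 1 / |fdet f| * |fdet f| := by field_simp
    calc (1 : ℝ) = 1 / |fdet f| * |fdet f| := h6
      _ ≤ _ := mul_le_mul_of_nonneg_right (by linarith) h0.le

private theorem k0_mass_x {α₀ β : ℝ} (h0 : 0 < α₀) (h1 : α₀ < π / 2) (hβ : 0 < β) : ∫ α in Icc (-α₀) α₀, k0 β α ≤ 20 := by
  have hpi := Real.pi_pos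
  have h2 := k0_int hβ
  rw [intervalIntegral.integral_of_le (by linarith)] at h2
  refine le_trans (setIntegral_mono_set ?_ (Eventually.of_forall (o3_k0_nonneg hβ)) (Eventually.of_forall ?_)) h2
  · rw [← integrableOn_Icc_iff_integrableOn_Ioc]
    exact (o3_k0_cont hβ).continuousOn.integrableOn_compact isCompact_Icc
  · intro x hx
    exact ⟨by linarith [hx.1], by linarith [hx.2]⟩

/-- the trivial bound of the sums -/
private theorem ls_triv_x {M B : ℝ} (hM : 1 ≤ M) {f : Fr} (hf : Fb M f) {h : ℝ × ℝ → ℝ} {w : ℝ × ℝ → ℂ} (hw : WL B w) {i N : ℕ}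
    (hi : i ≤ 2) (hN : 1 ≤ N) (r : ℝ) (c : ℝ × ℝ) : ‖LS f h w i N r c‖ ≤ 25 * (2 * M ^ 2) ^ 2 * B * (N : ℝ) ^ 2 := by
  classical
  have hB : 0 ≤ B := (norm_nonneg _).trans (hw.bdd (0, 0))
  have hNr : (1 : ℝ) ≤ N := by exact_mod_cast hN
  have hM2 : 1 ≤ 2 * M ^ 2 := by nlinarith
  have hterm : ∀ k ∈ sqa N, ‖(((N : ℝ) / nr (fk f k) : ℝ) : ℂ) ^ i * w (fk f k) * ee (r * h (fk f k) + dt k c)‖ ≤ (2 * M ^ 2) ^ 2 * B := by
    intro k hk
    rw [norm_mul, norm_mul, norm_pow, ee_norm, mul_one, Complex.norm_real, Real.norm_eq_abs]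
    obtain ⟨⟨a, b⟩, c', d⟩ := f
    obtain ⟨h1, -, -⟩ := fr_bd hM hf hk
    have h2 : max |lf a c' k| |lf b d k| ≤ nr (fk ((a, b), c', d) k) := by
      rw [nr_eq]
      have e1 : (fk ((a, b), c', d) k).1 = lf a c' k := by
        unfold fk fv lf
        simp only
        ring
      have e2 : (fk ((a, b), c', d) k).2 = lf b d k := by
        unfold fk fv lf
        simp only
        ring
      rw [e1, e2]
      refine max_le ?_ ?_
      · apply Real.le_sqrt_of_sq_le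
        rw [sq_abs]
        linarith [sq_nonneg (lf b d k)]
      · apply Real.le_sqrt_of_sq_le
        rw [sq_abs]
        linarith [sq_nonneg (lf a c' k)]
    have h3 : (N : ℝ) ≤ 2 * M ^ 2 * nr (fk ((a, b), c', d) k) :=
      h1.trans (mul_le_mul_of_nonneg_left h2 (by positivity))
    have h4 : 0 < nr (fk ((a, b), c', d) k) := by
      by_contra hn
      push Not at hn
      have := mul_nonpos_of_nonneg_of_nonpos (show 0 ≤ 2 * M ^ 2 by positivity) hn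
      linarith
    have h5 : |(N : ℝ) / nr (fk ((a, b), c', d) k)| ≤ 2 * M ^ 2 := by
      rw [abs_of_nonneg (by positivity), div_le_iff₀ h4]
      exact h3
    have h6 : |(N : ℝ) / nr (fk ((a, b), c', d) k)| ^ i ≤ (2 * M ^ 2) ^ 2 :=
      (pow_le_pow_left₀ (abs_nonneg _) h5 i).trans (pow_le_pow_right₀ hM2 hi)
    exact mul_le_mul h6 (hw.bdd _) (norm_nonneg _) (by positivity)
  have hcard : ((sqa N).card : ℝ) ≤ 25 * (N : ℝ) ^ 2 := by
    have h1 : (sqa N).card ≤ (box (2 * N)).card := Finset.card_le_card (Finset.filter_subset _ _)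
    have h2 : (box (2 * N)).card = (4 * N + 1) ^ 2 := by
      unfold box
      rw [Finset.card_product, Int.card_Icc]
      have : (((2 * N : ℕ) : ℤ) + 1 - -((2 * N : ℕ) : ℤ)).toNat = 4 * N + 1 := by omega
      rw [this]
      ring
    rw [h2] at h1
    have h3 : ((sqa N).card : ℝ) ≤ (4 * (N : ℝ) + 1) ^ 2 := by exact_mod_cast h1
    refine h3.trans ?_
    nlinarith
  unfold LS
  refine (norm_sum_le _ _).trans ((Finset.sum_le_sum hterm).trans ?_)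
  rw [Finset.sum_const, nsmul_eq_mul]
  have := mul_le_mul_of_nonneg_right hcard (show 0 ≤ (2 * M ^ 2) ^ 2 * B by positivity)
  linarith

/-- one frame, one centre -/
theorem centre_core {H : ℝ → ℝ} (hH : IsSupp H) {φ : ℝ × ℝ → ℝ} (hφ : IsBump φ) {α₀ B : ℝ} (ha0 : 0 < α₀) (ha1 : α₀ < π / 2) (hB : 1 ≤ B)
    (hjc : Continuous fun q : ℝ × (ℝ × ℝ) => hom (ga H q.1) q.2)
    (hfam : ∀ α ∈ Icc (-α₀) α₀, HL B (hom (ga H α)) ∧ WL B (wr H α) ∧ WL B (fun _ => 1)) {f : Fr} (hf : fdet f ≠ 0)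
    {e : ℝ} (he : 0 < e) (he1 : e ≤ 1 / 1000) {K₂ : ℝ} (hK₂ : 0 ≤ K₂) {c : ℝ × ℝ}
    (hZ : ∀ p n : ℕ, n ≤ p → Zg (E4 f H (2 ^ n)) φ (k0 (1 / sqrt ((2 : ℝ) ^ p * ((2 ^ n : ℕ) : ℝ)))) α₀ (((2 : ℝ) ^ p) ^ (-(1 / 2 - e))) ((2 : ℝ) ^ p) c ≤
      K₂ * (((2 : ℝ) ^ p) ^ (1 + 2 * e) * MB ((2 : ℝ) ^ p) (2 ^ n))) :
    ∃ D R₁ : ℝ, 0 ≤ D ∧ ∀ p : ℕ, R₁ ≤ (2 : ℝ) ^ p →
      (∀ R ∈ Icc ((2 : ℝ) ^ p) (2 * (2 : ℝ) ^ p), |Ef2 H f c R| ≤ D * ((2 : ℝ) ^ p) ^ (6 / 11 + 2 * e)) ∧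
      ∫⁻ R in Icc ((2 : ℝ) ^ p) (2 * (2 : ℝ) ^ p), ENNReal.ofReal (|Ef2 H f c R| ^ 24) ≤ ENNReal.ofReal (D * ((2 : ℝ) ^ p) ^ (13 + 48 * e)) := by
  classical
  obtain ⟨M, hM, hfb⟩ := fb_x hf
  obtain ⟨T, hT⟩ : ∃ T : ℝ, T = 25 * (2 * M ^ 2) ^ 2 * B := ⟨_, rfl⟩
  have hT0 : 0 ≤ T := by
    rw [hT]
    positivity
  obtain ⟨C₃, R₁, κ₀, hC₃, hR₁, hκ₀, hlp⟩ := lp_c hH hf hφ (τ := 1 / 2 - e) (e2 := e) (α₀ := α₀) (by linarith) (by linarith) he ha0 ha1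
  have hpi := Real.pi_pos
  have hK₁ : 0 ≤ 21 ^ 12 * 4 ^ 12 * (24 * π) * K₂ := by positivity
  obtain ⟨D, hD0, hcore⟩ := core24 (e := e) (T := 20 * (4 * T)) (K₁ := 21 ^ 12 * 4 ^ 12 * (24 * π) * K₂) (C₃ := C₃) (L := 2 / e + 2) he
    (by positivity) hK₁ hC₃.le
  refine ⟨D, max (max R₁ 4) (κ₀ ^ (1 / (1 / 2 - e))), hD0, ?_⟩
  intro p hp
  have hZp := hZ p
  obtain ⟨X, hX⟩ : ∃ X : ℝ, X = (2 : ℝ) ^ p := ⟨_, rfl⟩
  rw [← hX] at hp hZp ⊢
  have hX4 : 4 ≤ X := ((le_max_right _ _).trans (le_max_left _ _)).trans hp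
  have hXR1 : R₁ ≤ X := ((le_max_left _ _).trans (le_max_left _ _)).trans hp
  have hX1 : 1 ≤ X := by linarith
  have hX0 : 0 < X := by linarith
  obtain ⟨d, hd⟩ : ∃ d : ℝ, d = κ₀ * X ^ (-(1 / 2 - e)) := ⟨_, rfl⟩
  have hd0 : 0 < d := by
    rw [hd]
    positivity
  have hd1 : d ≤ 1 := by
    have h1 : κ₀ ^ (1 / (1 / 2 - e)) ≤ X := (le_max_right _ _).trans hp
    have h2 : κ₀ ≤ X ^ (1 / 2 - e) := by
      have h3 := rpow_le_rpow (by positivity) h1 (show 0 ≤ 1 / 2 - e by linarith)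
      rw [← rpow_mul hκ₀.le, one_div_mul_cancel (by linarith), rpow_one] at h3
      exact h3
    rw [hd, rpow_neg hX0.le, ← div_eq_mul_inv, div_le_one (by positivity)]
    exact h2
  obtain ⟨n1, hn1⟩ : ∃ n1 : ℕ, n1 = ⌈(1 / 2 : ℝ) * p⌉₊ := ⟨_, rfl⟩
  have hXp : ∀ y : ℝ, X ^ y = (2 : ℝ) ^ (p * y) := by
    intro y
    rw [hX, ← rpow_natCast 2 p, ← rpow_mul (by norm_num)]
  have hn1a : X ^ (1 / 2 - e + e) ≤ 2 ^ n1 := by
    rw [hXp, ← rpow_natCast]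
    refine rpow_le_rpow_of_exponent_le (by norm_num) ?_
    rw [hn1]
    have : (p : ℝ) * (1 / 2 - e + e) = 1 / 2 * p := by ring
    rw [this]
    exact Nat.le_ceil _
  have hn1b : ∀ n < n1, (n : ℝ) < 1 / 2 * p := by
    intro n hn
    rw [hn1] at hn
    exact Nat.lt_ceil.1 hn
  have hnp : ∀ n < n1, n ≤ p := by
    intro n hn
    have h1 := hn1b n hn
    have h2 : (0 : ℝ) ≤ p := Nat.cast_nonneg p
    have h3 : (n : ℝ) < p := by linarith
    exact_mod_cast h3.le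
  have hn1c : (n1 : ℝ) + 1 ≤ (2 / e + 2) * X ^ e := by
    have h1 : (n1 : ℝ) < 1 / 2 * p + 1 := by
      rw [hn1]
      exact Nat.ceil_lt_add_one (by positivity)
    have h2 : log X ≤ X ^ e / e := log_le_rpow_div hX0.le he
    have h3 : (1 : ℝ) / 2 < log 2 := by
      have := log_two_gt_d9
      linarith
    have h4 : log X = p * log 2 := by
      rw [hX, log_pow]
    have h5 : (p : ℝ) * (1 / 2) ≤ X ^ e / e := by
      have : (p : ℝ) * (1 / 2) ≤ p * log 2 := mul_le_mul_of_nonneg_left h3.le (Nat.cast_nonneg p)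
      linarith
    have h6 : 1 ≤ X ^ e := one_le_rpow hX1 he.le
    have h8 : 2 / e * X ^ e = 2 * (X ^ e / e) := by ring
    have h9 : 0 ≤ X ^ e / e := by positivity
    linarith
  have hnN : ∀ n < n1, (2 : ℝ) ^ n ≤ X ^ (1 / 2 : ℝ) := by
    intro n hn
    rw [hXp, ← rpow_natCast]
    refine rpow_le_rpow_of_exponent_le (by norm_num) ?_
    have := hn1b n hn
    linarith
  -- the functions
  have hN1 : ∀ n : ℕ, 1 ≤ 2 ^ n := fun n => Nat.one_le_two_pow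
  have hNr1 : ∀ n : ℕ, (1 : ℝ) ≤ ((2 ^ n : ℕ) : ℝ) := fun n => by exact_mod_cast hN1 n
  have hβ : ∀ n : ℕ, 0 < 1 / sqrt (X * ((2 ^ n : ℕ) : ℝ)) := by
    intro n
    have := hNr1 n
    positivity
  obtain ⟨κ, hκd⟩ : ∃ κ : ℕ → ℝ → ℝ, ∀ n, κ n = k0 (1 / sqrt (X * ((2 ^ n : ℕ) : ℝ))) := ⟨_, fun _ => rfl⟩
  have hκc : ∀ n, Continuous (κ n) := by
    intro n
    rw [hκd]
    exact o3_k0_cont (hβ n)
  have hκ0 : ∀ n α, 0 ≤ κ n α := by
    intro n α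
    rw [hκd]
    exact o3_k0_nonneg (hβ n) α
  have hκ1 : ∀ n, ∫ α in Icc (-α₀) α₀, κ n α ≤ 20 := by
    intro n
    rw [hκd]
    exact k0_mass_x ha0 ha1 (hβ n)
  obtain ⟨δ, hδ⟩ : ∃ δ : ℝ, δ = X ^ (-(1 / 2 - e)) := ⟨_, rfl⟩
  obtain ⟨L1, hL1⟩ : ∃ L1 : ℕ → ℝ → ℝ → ℝ × ℝ → ℝ, ∀ n α r c, L1 n α r c = ‖LS f (hom (ga H α)) (wr H α) 1 (2 ^ n) r c‖ := ⟨_, fun _ _ _ _ => rfl⟩
  obtain ⟨L2, hL2⟩ : ∃ L2 : ℕ → ℝ → ℝ → ℝ × ℝ → ℝ, ∀ n α r c, L2 n α r c = ‖LS f (hom (ga H α)) (fun _ => 1) 2 (2 ^ n) r c‖ := ⟨_, fun _ _ _ _ => rfl⟩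
  obtain ⟨e4, he4⟩ : ∃ e4 : ℕ → ℝ → ℝ → ℝ × ℝ → ℝ, ∀ n, e4 n = E4 f H (2 ^ n) := ⟨_, fun _ => rfl⟩
  have c1 : ∀ n, Continuous fun q : ℝ × (ℝ × (ℝ × ℝ)) => L1 n q.1 q.2.1 q.2.2 := by
    intro n
    simp only [hL1]
    exact (LS_cont (hc_v hjc) (wr_v hH) f 1 (2 ^ n)).norm
  have c2 : ∀ n, Continuous fun q : ℝ × (ℝ × (ℝ × ℝ)) => L2 n q.1 q.2.1 q.2.2 := by
    intro n
    simp only [hL2]
    exact (LS_cont (hc_v hjc) (w := fun _ _ => 1) (fun _ => continuous_const) f 2 (2 ^ n)).norm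
  have c4 : ∀ n, Continuous fun q : ℝ × (ℝ × (ℝ × ℝ)) => e4 n q.1 q.2.1 q.2.2 := by
    intro n
    rw [he4]
    exact E4_cont hH hjc f (2 ^ n)
  have p1 : ∀ n α r c, 0 ≤ L1 n α r c := by
    intro n α r c
    rw [hL1]
    exact norm_nonneg _
  have p2 : ∀ n α r c, 0 ≤ L2 n α r c := by
    intro n α r c
    rw [hL2]
    exact norm_nonneg _
  have l4 : ∀ n α r c, L1 n α r c ^ 12 ≤ e4 n α r c ∧ L2 n α r c ^ 12 ≤ e4 n α r c := by
    intro n α r c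
    rw [hL1, hL2, he4]
    unfold E4
    have a1 : 0 ≤ ‖LS f (hom (ga H α)) (wr H α) 1 (2 ^ n) r c‖ ^ 12 := by positivity
    have a2 : 0 ≤ ‖LS f (hom (ga H α)) (dw (hom (ga H α)) (wr H α)) 0 (2 ^ n) r c‖ ^ 12 := by positivity
    have a3 : 0 ≤ ‖LS f (hom (ga H α)) (fun _ => 1) 2 (2 ^ n) r c‖ ^ 12 := by positivity
    have a4 : 0 ≤ ‖LS f (hom (ga H α)) (dw (hom (ga H α)) (fun _ => 1)) 1 (2 ^ n) r c‖ ^ 12 := by positivity
    constructor <;> linarith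
  have hsup : ∀ n, ∀ α, ∀ r ∈ Icc (X / 2) (4 * X), ∀ c : ℝ × ℝ,
      L1 n α r c ^ 12 ≤ 24 * π * ((2 ^ n : ℕ) : ℝ) * ∫ t in Icc (X / 2) (4 * X), e4 n α t c := by
    intro n α r hr c
    have h1 := sup_r hf (hom (ga H α)) (wr H α) 0 (hN1 n) c (a := X / 2) (b := 4 * X) (by linarith) hr
    rw [hL1]
    refine h1.trans ?_
    have h2 : ∫ t in Icc (X / 2) (4 * X), (‖LS f (hom (ga H α)) (wr H α) (0 + 1) (2 ^ n) t c‖ ^ 12 +
        ‖LS f (hom (ga H α)) (dw (hom (ga H α)) (wr H α)) 0 (2 ^ n) t c‖ ^ 12) ≤ ∫ t in Icc (X / 2) (4 * X), e4 n α t c := by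
      refine setIntegral_mono_on ?_ ?_ measurableSet_Icc fun t _ => ?_
      · exact (((LS_cont_r _ _ _ _ _ _).norm.pow 12).add ((LS_cont_r _ _ _ _ _ _).norm.pow 12)).continuousOn.integrableOn_compact isCompact_Icc
      · exact ((c4 n).comp (continuous_const.prodMk (continuous_id.prodMk continuous_const))).continuousOn.integrableOn_compact isCompact_Icc
      · rw [he4]
        unfold E4
        have a3 : 0 ≤ ‖LS f (hom (ga H α)) (fun _ => 1) 2 (2 ^ n) t c‖ ^ 12 := by positivity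
        have a4 : 0 ≤ ‖LS f (hom (ga H α)) (dw (hom (ga H α)) (fun _ => 1)) 1 (2 ^ n) t c‖ ^ 12 := by positivity
        rw [zero_add]
        linarith
    refine (mul_le_mul_of_nonneg_left h2 (by positivity)).trans (le_of_eq ?_)
    ring
  have hsup2 : ∀ n, ∀ α, ∀ r ∈ Icc (X / 2) (4 * X), ∀ c : ℝ × ℝ,
      L2 n α r c ^ 12 ≤ 24 * π * ((2 ^ n : ℕ) : ℝ) * ∫ t in Icc (X / 2) (4 * X), e4 n α t c := by
    intro n α r hr c
    have h1 := sup_r hf (hom (ga H α)) (fun _ => 1) 1 (hN1 n) c (a := X / 2) (b := 4 * X) (by linarith) hr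
    rw [hL2]
    refine h1.trans ?_
    have h2 : ∫ t in Icc (X / 2) (4 * X), (‖LS f (hom (ga H α)) (fun _ => 1) (1 + 1) (2 ^ n) t c‖ ^ 12 +
        ‖LS f (hom (ga H α)) (dw (hom (ga H α)) (fun _ => 1)) 1 (2 ^ n) t c‖ ^ 12) ≤ ∫ t in Icc (X / 2) (4 * X), e4 n α t c := by
      refine setIntegral_mono_on ?_ ?_ measurableSet_Icc fun t _ => ?_
      · exact (((LS_cont_r _ _ _ _ _ _).norm.pow 12).add ((LS_cont_r _ _ _ _ _ _).norm.pow 12)).continuousOn.integrableOn_compact isCompact_Icc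
      · exact ((c4 n).comp (continuous_const.prodMk (continuous_id.prodMk continuous_const))).continuousOn.integrableOn_compact isCompact_Icc
      · rw [he4]
        unfold E4
        have a3 : 0 ≤ ‖LS f (hom (ga H α)) (wr H α) 1 (2 ^ n) t c‖ ^ 12 := by positivity
        have a4 : 0 ≤ ‖LS f (hom (ga H α)) (dw (hom (ga H α)) (wr H α)) 0 (2 ^ n) t c‖ ^ 12 := by positivity
        rw [one_add_one_eq_two]
        linarith
    refine (mul_le_mul_of_nonneg_left h2 (by positivity)).trans (le_of_eq ?_)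
    ring
  obtain ⟨Bb, hBb⟩ : ∃ Bb : ℕ → ℝ → ℝ, ∀ n, Bb n = Bf (L1 n) (L2 n) φ (κ n) α₀ δ d c := ⟨_, fun _ => rfl⟩
  have hMB : ∀ n : ℕ, 0 < X ^ (1 + 2 * e) * MB X (2 ^ n) := fun n => mul_pos (by positivity) (MB_pos hX0 (by positivity))
  have hZ' : ∀ n < n1, Zg (e4 n) φ (κ n) α₀ δ X c ≤ K₂ * (X ^ (1 + 2 * e) * MB X (2 ^ n)) := by
    intro n hn
    have h1 := hZp n (hnp n hn)
    rw [he4, hκd, hδ]
    exact h1
  refine hcore X hX1 n1 hn1c hnN Bb (fun R => Ef2 H f c R) ?_ ?_ ?_ ?_ ?_ ?_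
  · intro n R
    rw [hBb]
    exact Bf_nonneg (p1 n) (p2 n) hφ (hκ0 n) α₀ δ d c R
  · intro n
    rw [hBb]
    exact Bf_cont (c1 n) (c2 n) hφ (hκc n) α₀ δ d c
  · intro R hR
    obtain ⟨g, hg⟩ : ∃ g : ℕ → ℝ → ℝ × ℝ → ℝ, ∀ n α c', g n α c' = (L1 n α (R + d) c' + L1 n α (R - d) c') + (L2 n α (R + d) c' + L2 n α (R - d) c') :=
      ⟨_, fun _ _ _ => rfl⟩
    have hgc : ∀ n, Continuous fun q : ℝ × (ℝ × ℝ) => g n q.1 q.2 := by
      intro n
      simp only [hg]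
      have hq : ∀ t : ℝ, Continuous fun q : ℝ × (ℝ × ℝ) => (q.1, (t, q.2)) := fun t => by fun_prop
      have b1 := (c1 n).comp (hq (R + d))
      have b2 := (c1 n).comp (hq (R - d))
      have b3 := (c2 n).comp (hq (R + d))
      have b4 := (c2 n).comp (hq (R - d))
      exact (b1.add b2).add (b3.add b4)
    have h1 := hlp X hXR1 n1 hn1a R hR g (fun n _ => hgc n) (by
      intro n hn α hα r hr c'
      rw [← hd] at hr
      rw [← hL1, ← hL2, hg]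
      have a1 := p1 n α (R + d) c'
      have a2 := p1 n α (R - d) c'
      have a3 := p2 n α (R + d) c'
      have a4 := p2 n α (R - d) c'
      rcases hr with h | h
      · rw [h]
        constructor <;> linarith
      · rw [h]
        constructor <;> linarith) c
    have h2 : (1 : ℝ) - (1 / 2 - e) = 1 / 2 + e := by ring
    rw [h2] at h1
    have h3 : ∀ n, ∫ q : ℝ × ℝ, φ q * ∫ α in Icc (-α₀) α₀, k0 (1 / sqrt (X * ((2 ^ n : ℕ) : ℝ))) α *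
        g n α (c.1 + X ^ (-(1 / 2 - e)) * q.1, c.2 + X ^ (-(1 / 2 - e)) * q.2) = Bb n R := by
      intro n
      rw [← hκd, ← hδ, hBb]
      unfold Bf
      have hq : Continuous fun s : (ℝ × ℝ) × ℝ => (s.2, (c.1 + δ * s.1.1, c.2 + δ * s.1.2)) := by fun_prop
      have hG : Continuous fun s : (ℝ × ℝ) × ℝ => g n s.2 (c.1 + δ * s.1.1, c.2 + δ * s.1.2) := by
        have b := (hgc n).comp hq
        exact b
      have h4 := av_eq (α₀ := α₀) (G := fun s => g n s.2 (c.1 + δ * s.1.1, c.2 + δ * s.1.2)) hφ (hκc n) hG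
      simp only at h4
      rw [h4]
      simp only [hg]
    simp only [h3] at h1
    unfold Ef2
    exact h1
  · intro n hn R hR
    rw [hBb]
    have h1 : Bf (L1 n) (L2 n) φ (κ n) α₀ δ d c R ≤ av φ (κ n) α₀ (fun _ => 4 * (T * ((2 ^ n : ℕ) : ℝ) ^ 2) * 1) := by
      unfold Bf
      have hsR : Continuous fun s : (ℝ × ℝ) × ℝ => (s, R) := by fun_prop
      refine av_mono hφ (hκc n) (hκ0 n) ?_ continuous_const fun s hs => ?_
      · have hq := (G_cont (c1 n) (c2 n) c δ d).comp hsR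
        exact hq
      · obtain ⟨-, hW1, hW2⟩ := hfam s.2 hs
        have t1 : ∀ r c', L1 n s.2 r c' ≤ T * ((2 ^ n : ℕ) : ℝ) ^ 2 := by
          intro r c'
          rw [hL1, hT]
          exact ls_triv_x hM hfb hW1 (by norm_num) (hN1 n) r c'
        have t2 : ∀ r c', L2 n s.2 r c' ≤ T * ((2 ^ n : ℕ) : ℝ) ^ 2 := by
          intro r c'
          rw [hL2, hT]
          exact ls_triv_x hM hfb hW2 (by norm_num) (hN1 n) r c'
        have u1 := t1 (R + d) (c.1 + δ * s.1.1, c.2 + δ * s.1.2)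
        have u2 := t1 (R - d) (c.1 + δ * s.1.1, c.2 + δ * s.1.2)
        have u3 := t2 (R + d) (c.1 + δ * s.1.1, c.2 + δ * s.1.2)
        have u4 := t2 (R - d) (c.1 + δ * s.1.1, c.2 + δ * s.1.2)
        linarith
    rw [av_const_mul _ (fun _ => 1)] at h1
    have h2 := mul_le_mul_of_nonneg_left (av_one (α₀ := α₀) hφ (hκc n) (hκ1 n)) (show 0 ≤ 4 * (T * ((2 ^ n : ℕ) : ℝ) ^ 2) by positivity)
    linarith
  · intro n hn R hR
    rw [hBb]
    have h1 := Bf_sup (c1 n) (c2 n) (p1 n) (p2 n) hφ (hκc n) (hκ0 n) (c4 n) (hκ1 n) (δ := δ) hX4 hd0.le hd1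
      (fun α _ => hsup n α) (fun α _ => hsup2 n α) c hR
    refine h1.trans ((mul_le_mul_of_nonneg_left (hZ' n hn) (by positivity)).trans (le_of_eq ?_))
    ring
  · intro n hn
    rw [hBb]
    have h1 := Bf_mean (c1 n) (c2 n) (p1 n) (p2 n) hφ (hκc n) (hκ0 n) (c4 n) (l4 n) (hκ1 n) (δ := δ) hX4 hd0.le hd1 c
    refine h1.trans ((mul_le_mul_of_nonneg_left (hZ' n hn) (by positivity)).trans ?_)
    have h2 : (1 : ℝ) ≤ 24 * π := by linarith [Real.pi_gt_three]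
    have h3 : 0 ≤ 21 ^ 12 * 4 ^ 12 * K₂ * (X ^ (1 + 2 * e) * MB X (2 ^ n)) := by
      have := (hMB n).le
      positivity
    nlinarith

end Pool.Agent.Helper92.LB
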